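import Pool.Agent.W_448so_h64.SoK

/-!
SECOND ORDER THEOREM (MP_448cb3_co, proofs row 476): energy at most five, arbitrary parts.
-/

namespace Pool.Agent.GaussPoset.Win.SO

set_option linter.unusedSectionVars false

open Finset
open Pool.Agent.GaussPoset.Win.I2 (lS uS mem_lS mem_uS)
open Pool.Agent.GaussPoset.Win.So (TogL TogU RefL RefU RefD red up2 up2_y up2_p up2_ne)

universe u

variable {P : Type u} [Fintype P] [PartialOrder P] [DecidableEq P] {r i : ℕ} {psi : P → P}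
  {e : P → ℕ} {C : Finset P}

/-- general parts: closed pairs below the window and flips are allowed -/
structure PS5 (r i : ℕ) (psi : P → P) (C : Finset P) : Prop extends PSO r i psi C where
  ncu : ∀ w ∈ C, ∀ w' ∈ C, ∀ x x' : P, lev w + 2 = i → x ≠ x' → dc w = {x, x'} →
    dc w' = {x, x'} → (dc x).card = 2 → (dc x').card = 2 → w = w'
  fl : ∀ p ∈ C, ∀ p' ∈ C, ∀ y u, p ∈ PD P i → p' ∈ PU P i → uc p = {y} → dc p' = {u} →
    u = psi y ∨ ∃ s, uc y ∩ dc u = {s}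

/-- the special classes at energy five: closed pairs and flips -/
def K1 (i : ℕ) (e : P → ℕ) : Prop :=
  Clo uc (tL (P := P) i) (lS P i) e ∨
  ∃ p y p' u s, Pen uc (tL (P := P) i) (lS P i) p y ∧ Pen dc (tU (P := P) i) (uS P i) p' u ∧
    0 < e p ∧ 0 < e p' ∧ uc y ∩ dc u = {s}

/-- the explicit closed pair configurations -/
def Clx (i : ℕ) (e : P → ℕ) : Prop :=
  ∃ w w' x x' s, TD uc (tL (P := P) i) (lS P i) w x x' s ∧
    TD uc (tL (P := P) i) (lS P i) w' x x' s ∧ w ≠ w' ∧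
    ((∀ y, e y = if y = w then 2 else if y = w' ∨ y = x ∨ y = x' then 1 else 0) ∨
      On e {w, w', x, x', s})

/-- the explicit flip configuration -/
def Flx (i : ℕ) (e : P → ℕ) : Prop :=
  ∃ p y p' u s, Pen uc (tL (P := P) i) (lS P i) p y ∧ Pen dc (tU (P := P) i) (uS P i) p' u ∧
    uc y ∩ dc u = {s} ∧ On e {p, y, s, u, p'}

lemma PS5.noCloU (Q : PS5 r i psi C) (hs : Spt C e) : ¬ Clo dc (tU (P := P) i) (uS P i) e := by
  rintro ⟨w, w', x, x', h1, h2, h3, h4, h5, h6, h7, h8, h9, h10, h11, h12⟩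
  rw [mem_uS] at h1
  unfold tU at h3
  exact h5 (Q.ncu w (mem_of_spt hs h11) w' (mem_of_spt hs h12) x x' (by omega) h6 h7 h8 h9 h10)

/-- CLASSIFICATION for the cores of a general part, energy at most five -/
theorem PS5.cls (Q : PS5 r i psi C) (hs : Spt C e) (hc : IsCore i ∅ psi e) (hE : ∑ x, e x ≤ 5) :
    Cheap 1 i e ∨
    (K1 i e ∧ (Clx i e ∨ Flx i e)) ∨
    (Cheap 2 i e ∧ ((∃ w x x' a s b, TogL i e w x x' a s b ∧ a ≠ b) ∨
      ∃ w x x' a s b, TogU i e w x x' a s b ∧ a ≠ b)) ∨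
    (AdmL i e ∧ AdmU i e ∧ Disjoint (AL i e) (AU i e) ∧ ¬ K1 i e ∧
      LO5 uc dc (tL (P := P) i) (tU i) (lS P i) (uS P i) e) := by
  classical
  by_cases hA : AdmL i e
  swap
  · exact Or.inl (Or.inl hA)
  by_cases hB : AdmU i e
  swap
  · exact Or.inl (Or.inr (Or.inl hB))
  by_cases hd : Disjoint (AL i e) (AU i e)
  swap
  · exact Or.inl (Or.inr (Or.inr (Or.inl hd)))
  have hir := Q.hi2
  have hcf := cfg_of Q.H Q.hi2 Q.hM hc hA hB hd
  by_cases hK : K1 i e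
  · rcases hK with hK | ⟨p, y, p', u, s, g1, g2, g3, g4, g5⟩
    · rcases clo5 Q.two hcf hE hK with h | h
      · exact Or.inl (cheap_of h)
      · exact Or.inr (Or.inl ⟨Or.inl hK, Or.inl h⟩)
    · have h := flip5 Q.two hcf hE g1 g2 g3 g4 g5
      exact Or.inr (Or.inl ⟨Or.inr ⟨p, y, p', u, s, g1, g2, g3, g4, g5⟩,
        Or.inr ⟨p, y, p', u, s, g1, g2, g5, h⟩⟩)
  rcases classify Q.two hcf (Q.pdx hs) (Q.pux hs) (by omega) with
    h | h | h | h | h | h | h
  · exact Or.inl (cheap_of h)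
  · exact absurd (Or.inl h) hK
  · exact absurd h (Q.noCloU hs)
  · obtain ⟨p, y, p', u, h1, h2, h3, h4, h5⟩ := h
    obtain ⟨g1, g2, g3, g4, g5⟩ := pen_low Q.H h1
    obtain ⟨k1, k2, k3, k4, k5⟩ := pen_up Q.H h2
    rcases Q.fl p (mem_of_spt hs h3) p' (mem_of_spt hs h4) y u g1 k1 g4 k4 with h6 | ⟨s, h6⟩
    · exact absurd h6 h5
    · exact absurd (Or.inr ⟨p, y, p', u, s, h1, h2, h3, h4, h6⟩) hK
  · right; right; left
    refine ⟨cheap_of h.1, ?_⟩
    rcases h.2 with ⟨w, x, x', s, T⟩ | ⟨w, x, x', s, T⟩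
    · left
      obtain ⟨a, b, h1, h2⟩ := togL_of Q.H Q.hM T
      exact ⟨w, x, x', a, s, b, h1, h2⟩
    · right
      obtain ⟨a, b, h1, h2⟩ := togU_of Q.H Q.hM T
      exact ⟨w, x, x', a, s, b, h1, h2⟩
  · right; right; right
    exact ⟨hA, hB, hd, hK, h.2 hE⟩
  · exfalso
    have := LO6.six Q.toPSO h
    omega

/-- parts without closed pairs and flips -/
theorem PS6.toPS5 (Q : PS6 r i psi C) : PS5 r i psi C where
  toPSO := Q.toPSO
  ncu := Q.ncu
  fl := by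
    intro p hp p' hp' y u h1 h2 h3 h4
    left
    obtain ⟨y1, hy1, p1, hp1, hp1', hd⟩ := Q.mtL p hp h1
    have e1 : y1 = y := by
      rw [h3, singleton_inj] at hy1
      exact hy1.symm
    subst e1
    have e2 := Q.pu p1 hp1 p' hp' hp1' h2
    subst e2
    rw [h4, singleton_inj] at hd
    exact hd

end Pool.Agent.GaussPoset.Win.SO
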