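import Pool.Agent.W_448so_h64.SoQ
import Pool.Agent.W_448so_h17.AsE

/-!
SECOND ORDER THEOREM (MP_448cb3_co, proofs row 476): the value of (6,2).
-/

namespace Pool.Agent.GaussPoset.Win.SO

set_option linter.unusedSectionVars false

open Finset
open Pool.Agent.GaussPoset.Win.I2 (lS uS mem_lS mem_uS)
open Pool.Agent.GaussPoset.Win.So (TogL TogU RefL RefU RefD)

universe u

variable {P : Type u} [Fintype P] [PartialOrder P] [DecidableEq P] {r i : ℕ} {psi : P → P}
  {e : P → ℕ} {C : Finset P}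

lemma part_pred (hC : Part (i + 1) C) : Part i C :=
  ⟨hC.up, fun hy hl hxy => hC.dn hy (by omega) hxy⟩

/-- few deficits: divisibility of the term -/
lemma cheap_dvd (H : Gr P r) (hC : Part (i + 1) C) (hs : Spt C e) {k : ℕ} (h : Cheap k i e) :
    dd ^ ((st i C).card - k) ∣ tC i C e := by
  rw [tC_IV H (part_pred hC) hs]
  exact Rk_IV (Rk_sub (st_sub i C) (Rk_of_cheap h))

/-- at most one deficit: no second order coefficient -/
lemma cheap_coeff (H : Gr P r) (hC : Part (i + 1) C) (hs : Spt C e) (h : Cheap 1 i e)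
    (hb : 1 ≤ (st i C).card) :
    PowerSeries.coeff (st i C).card (dd ^ 2 * tC i C e : A) = 0 := by
  obtain ⟨q, hq⟩ := cheap_dvd H hC hs h
  have h1 : dd ^ ((st i C).card + 1) ∣ (dd ^ 2 * tC i C e : A) := by
    rw [hq, ← mul_assoc, ← pow_add]
    exact dvd_mul_of_dvd_left (pow_dvd_pow _ (by omega)) _
  exact I2.coeff_eq_zero_of_dvd h1

/-- the value of a configuration of the index set -/
noncomputable def val (i : ℕ) (C T : Finset P) : ℤ :=
  PowerSeries.coeff (st i C).card (dd ^ 2 * tC i C (Psi i C T) : A)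

lemma val_ne (Q : PSO r i psi C) {T : Finset P} (hT : T ∈ Ix i C) :
    ∑ x, Psi i C T x = 6 ∧ val i C T ≠ 0 := by
  rcases mem_Ix.1 hT with h | ⟨z, h | h, rfl⟩
  · obtain ⟨h1, h2⟩ := PR_value Q.H Q.hi Q.hi2 Q.hC h
    refine ⟨h1, ?_⟩
    unfold val
    rw [h2, prod_ne_zero_iff]
    intro z _
    unfold chg
    split_ifs <;> norm_num
  · obtain ⟨h1, h2⟩ := N1_value Q h
    refine ⟨h1, ?_⟩
    unfold val
    rw [h2]
    norm_num
  · obtain ⟨h1, h2⟩ := N5_value Q.H Q.hi Q.hi2 Q.hC h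
    refine ⟨h1, ?_⟩
    unfold val
    rw [h2]
    norm_num

/-- the configurations of the index set are leftover configurations -/
theorem Psi_LO6 (Q : PS6 r i psi C) (hb : 1 ≤ (st i C).card) {T : Finset P} (hT : T ∈ Ix i C) :
    LO6 uc dc (tL (P := P) i) (tU i) (lS P i) (uS P i) (Psi i C T) := by
  have hir : i ≤ r := by have := Q.hi2; omega
  obtain ⟨h1, h2⟩ := val_ne Q.toPSO hT
  have hs := Psi_spt Q.H Q.hC hT
  rcases Q.cls hs (Psi_core Q.H hT) h1.le with h | ⟨h, ⟨w, x, x', a, s, b, G, -⟩ |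
    ⟨w, x, x', a, s, b, G, -⟩⟩ | ⟨y, p, u, p', g1, g2, g3, D, R⟩ | h
  · exact absurd (cheap_coeff Q.H Q.hC hs h hb) h2
  · exact absurd G (Psi_noTogL Q.H hT)
  · exact absurd G (Psi_noTogU Q.H hT)
  · obtain ⟨k1, k2⟩ := Psi_noRef Q.H hir hT D
    rcases R with R | R
    · exact absurd R k1
    · exact absurd R k2
  · exact h.2.2.2

/-- sums over the leftover configurations of energy six -/
theorem sum_LO6 (Q : PS6 r i psi C) (hb : 1 ≤ (st i C).card) {M : Type*} [AddCommMonoid M]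
    (f : (P → ℕ) → M) [DecidablePred (LO6 uc dc (tL (P := P) i) (tU i) (lS P i) (uS P i))] :
    ∑ e ∈ (C.piAntidiag 6).filter (LO6 uc dc (tL (P := P) i) (tU i) (lS P i) (uS P i)), f e =
      ∑ T ∈ Ix i C, f (Psi i C T) := by
  classical
  have hir : i ≤ r := by have := Q.hi2; omega
  have h1 : (C.piAntidiag 6).filter (LO6 uc dc (tL (P := P) i) (tU i) (lS P i) (uS P i)) =
      (Ix i C).image (Psi i C) := by
    ext e
    rw [mem_filter, mem_image, mem_piA]
    constructor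
    · rintro ⟨⟨g1, g2⟩, g3⟩
      exact LO6_index Q.toPSO g2 g3
    · rintro ⟨T, hT, rfl⟩
      exact ⟨⟨(val_ne Q.toPSO hT).1, Psi_spt Q.H Q.hC hT⟩, Psi_LO6 Q hb hT⟩
  rw [h1, sum_image]
  intro T hT T' hT' h
  exact Psi_inj Q.H hir hT hT' h

/-- sums over the index set -/
theorem sum_Ix (H : Gr P r) {M : Type*} [AddCommMonoid M] (f : Finset P → M) :
    ∑ T ∈ Ix i C, f T =
      ∑ T ∈ PR i C, f T + (∑ z ∈ N1f i C, f {z} + ∑ z ∈ N5f i C, f {z}) := by
  classical
  unfold Ix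
  have hd : Disjoint (PR i C) ((N1f i C ∪ N5f i C).image (fun z => {z})) := by
    rw [disjoint_left]
    intro T hT hT'
    rw [mem_image] at hT'
    obtain ⟨z, -, rfl⟩ := hT'
    have := (mem_PR.1 hT).2.1
    rw [card_singleton] at this
    omega
  have hd2 : Disjoint (N1f i C) (N5f i C) := by
    rw [disjoint_left]
    intro z hz hz'
    exact N5f_N1f H hz' hz
  rw [sum_union hd, sum_image, sum_union hd2]
  intro a _ b _ h
  exact singleton_injective h

/-- THE VALUE OF (6,2) -/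
theorem PS6.be6 (Q : PS6 r i psi C) (hb : 1 ≤ (st i C).card) :
    I2.be 6 (st i C).card (ZS i C) =
      ∑ T ∈ PR i C, ∏ z ∈ T, chg i C z - (N1f i C).card - (N5f i C).card := by
  classical
  rw [Q.be_six hb, sum_LO6 Q hb, sum_Ix Q.H]
  have h1 : ∑ T ∈ PR i C, PowerSeries.coeff (st i C).card (dd ^ 2 * tC i C (Psi i C T) : A) =
      ∑ T ∈ PR i C, ∏ z ∈ T, chg i C z :=
    sum_congr rfl fun T hT => (PR_value Q.H Q.hi Q.hi2 Q.hC hT).2
  have h2 : ∑ z ∈ N1f i C, PowerSeries.coeff (st i C).card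
      (dd ^ 2 * tC i C (Psi i C {z}) : A) = ∑ z ∈ N1f i C, (-1 : ℤ) :=
    sum_congr rfl fun z hz => (N1_value Q.toPSO hz).2
  have h3 : ∑ z ∈ N5f i C, PowerSeries.coeff (st i C).card
      (dd ^ 2 * tC i C (Psi i C {z}) : A) = ∑ z ∈ N5f i C, (-1 : ℤ) :=
    sum_congr rfl fun z hz => (N5_value Q.H Q.hi Q.hi2 Q.hC hz).2
  rw [h1, h2, h3, sum_const, sum_const]
  simp only [smul_eq_mul, nsmul_eq_mul]
  ring

/-- twice the sum over the pairs with disjoint sites is the sum over the ordered pairs -/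
theorem two_PR (H : Gr P r) (hir : i ≤ r) (g : P → ℤ) :
    2 * ∑ T ∈ PR i C, ∏ z ∈ T, g z = ∑ z ∈ Chs i C, ∑ z' ∈ Chs i C,
      if Disjoint (sit i z) (sit i z') then g z * g z' else 0 := by
  classical
  have hne : ∀ z ∈ Chs i C, ¬ Disjoint (sit i z) (sit i z) := by
    intro z hz hd
    obtain ⟨v, hv⟩ := sit_ne H hir (num_Chs H hz).ns
    exact disjoint_left.1 hd hv hv
  rw [← Finset.sum_product']
  rw [← Finset.sum_filter (fun q : P × P => Disjoint (sit i q.1) (sit i q.2))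
    (fun q => g q.1 * g q.2)]
  rw [← Finset.sum_fiberwise_of_maps_to (t := PR i C)
    (g := fun q : P × P => ({q.1, q.2} : Finset P))]
  · rw [Finset.mul_sum]
    refine sum_congr rfl fun T hT => ?_
    obtain ⟨h1, h2, h3⟩ := mem_PR.1 hT
    obtain ⟨z, z', hzz, rfl⟩ := card_eq_two.1 h2
    have hz := h1 (show z ∈ ({z, z'} : Finset P) by simp)
    have hz' := h1 (show z' ∈ ({z, z'} : Finset P) by simp)
    have hd := h3 z (by simp) z' (by simp) hzz
    have h4 : (((Chs i C ×ˢ Chs i C).filter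
        (fun q : P × P => Disjoint (sit i q.1) (sit i q.2))).filter
          (fun q : P × P => ({q.1, q.2} : Finset P) = {z, z'})) = {(z, z'), (z', z)} := by
      ext ⟨a, b⟩
      simp only [mem_filter, mem_product, mem_insert, mem_singleton, Prod.mk.injEq]
      constructor
      · rintro ⟨⟨⟨g1, g2⟩, g3⟩, g4⟩
        have ha : a ∈ ({z, z'} : Finset P) := by rw [← g4]; simp
        have hb : b ∈ ({z, z'} : Finset P) := by rw [← g4]; simp
        rw [mem_insert, mem_singleton] at ha hb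
        rcases ha with rfl | rfl <;> rcases hb with rfl | rfl
        · exact absurd g3 (hne _ g1)
        · exact Or.inl ⟨rfl, rfl⟩
        · exact Or.inr ⟨rfl, rfl⟩
        · exact absurd g3 (hne _ g1)
      · rintro (⟨rfl, rfl⟩ | ⟨rfl, rfl⟩)
        · exact ⟨⟨⟨hz, hz'⟩, hd⟩, rfl⟩
        · exact ⟨⟨⟨hz', hz⟩, hd.symm⟩, pair_comm _ _⟩
    rw [h4, sum_pair, prod_pair hzz]
    · ring
    · intro h
      rw [Prod.mk.injEq] at h
      exact hzz h.1
  · rintro ⟨a, b⟩ hq
    rw [mem_filter, mem_product] at hq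
    exact (pr_of H hir hq.1.1 hq.1.2 hq.2).1

/-- the square of the total charge -/
theorem sq_QQ (H : Gr P r) (hir : i ≤ r) :
    (∑ z ∈ Chs i C, chg i C z) ^ 2 - 2 * ∑ T ∈ PR i C, ∏ z ∈ T, chg i C z = QQ i C := by
  classical
  rw [two_PR H hir, sq, sum_mul_sum]
  unfold QQ
  rw [← sum_sub_distrib]
  refine sum_congr rfl fun z _ => ?_
  rw [← sum_sub_distrib]
  refine sum_congr rfl fun z' _ => ?_
  split_ifs <;> ring

/-- THE SECOND ORDER IDENTITY of a part: with `al 3` = total charge,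
`al 3 ^ 2 - 2 be 6 = QQ + 2 (N1 + N5)`. -/
theorem PS6.six (Q : PS6 r i psi C) (hb : 1 ≤ (st i C).card)
    (h3 : I2.al 3 (st i C).card (ZS i C) = ∑ z ∈ Chs i C, chg i C z) :
    (I2.al 3 (st i C).card (ZS i C)) ^ 2 - 2 * I2.be 6 (st i C).card (ZS i C) =
      QQ i C + 2 * (N1f i C).card + 2 * (N5f i C).card := by
  have hir : i ≤ r := by have := Q.hi2; omega
  rw [Q.be6 hb, ← sq_QQ Q.H hir, h3]
  ring

end Pool.Agent.GaussPoset.Win.SO
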