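import Pool.Agent.W_448so_h64.SoV
import Pool.Agent.W_448so_h61.CF
import Pool.Agent.W_448i2_h61.TC

/-!
SECOND ORDER THEOREM (MP_448cb3_co, proofs row 476): the profiles of a part.
-/

namespace Pool.Agent.GaussPoset.Win.SO

set_option linter.unusedSectionVars false

open Finset
open Pool.Agent.GaussPoset.Win.I2 (lS uS mem_lS mem_uS Prof)

universe u

variable {P : Type u} [Fintype P] [PartialOrder P] [DecidableEq P] {r i : ℕ} {psi : P → P}
  {e : P → ℕ} {C : Finset P}

/-- labels one on a closed set: few deficits -/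
lemma on_cheap (H : Gr P r) (hi : 1 ≤ i) (hi2 : i + 1 ≤ r) {s : Finset P} (hs : Cls i s) {k : ℕ}
    (h : (BL i s).card + (BU i s).card ≤ (nL i s).card + (nU i s).card + k) :
    Cheap k i (on s) := by
  obtain ⟨-, -, -, -, h5, h6, h7, h8⟩ := on_data H hi hi2 hs
  right; right; right
  rw [h5, h6, h7, h8]
  omega

/-- the union of two closed sets is closed -/
lemma Cls.union {s s' : Finset P} (h : Cls i s) (h' : Cls i s') : Cls i (s ∪ s') := by
  constructor
  · intro x hx
    rcases mem_union.1 hx with hx | hx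
    · exact h.ns x hx
    · exact h'.ns x hx
  · intro x hx hl y hy
    rcases mem_union.1 hx with hx | hx
    · exact mem_union_left _ (h.lo x hx hl y hy)
    · exact mem_union_right _ (h'.lo x hx hl y hy)
  · intro x hx hl y hy
    rcases mem_union.1 hx with hx | hx
    · exact mem_union_left _ (h.up x hx hl y hy)
    · exact mem_union_right _ (h'.up x hx hl y hy)

/-- the numbers of two cones with disjoint sites -/
lemma pair_num (H : Gr P r) (hir : i ≤ r) {z z' : P} {v v' : ℤ} {k k' : ℕ}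
    (N : NumG i C z v k) (N' : NumG i C z' v' k') (hd : Disjoint (sit i z) (sit i z')) :
    (BL i (con i z ∪ con i z')).card + (BU i (con i z ∪ con i z')).card ≤
      (nL i (con i z ∪ con i z')).card + (nU i (con i z ∪ con i z')).card + 2 := by
  have hcd := con_disj H hir N.ns N'.ns hd
  have d3 : Disjoint (nL i (con i z)) (nL i (con i z')) := disjoint_of_subset_left
    (filter_subset _ _) (disjoint_of_subset_right (filter_subset _ _) hcd)
  have d4 : Disjoint (nU i (con i z)) (nU i (con i z')) := disjoint_of_subset_left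
    (filter_subset _ _) (disjoint_of_subset_right (filter_subset _ _) hcd)
  have n1 := N.num
  have n2 := N'.num
  rw [BL_union, BU_union, nL_union, nU_union, card_union_of_disjoint d3,
    card_union_of_disjoint d4]
  have h1 := card_union_le (BL i (con i z)) (BL i (con i z'))
  have h2 := card_union_le (BU i (con i z)) (BU i (con i z'))
  omega

/-- a pair: at most two deficits -/
lemma pair_cheap (H : Gr P r) (hi : 1 ≤ i) (hi2 : i + 1 ≤ r) {z z' : P} {v v' : ℤ} {k k' : ℕ}
    (N : NumG i C z v k) (N' : NumG i C z' v' k') (hd : Disjoint (sit i z) (sit i z')) :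
    Cheap 2 i (on (con i z ∪ con i z')) :=
  on_cheap H hi hi2 ((con_cls H N.ns).union (con_cls H N'.ns))
    (pair_num H (by omega) N N' hd)

/-- a far element does not change the numbers -/
lemma insert_far {z : P} {s : Finset P} (h1 : lev z ≠ i + 1) (h2 : lev z + 1 ≠ i)
    (H : Gr P r) : BL i (insert z s) = BL i s ∧ BU i (insert z s) = BU i s ∧
      nL i (insert z s) = nL i s ∧ nU i (insert z s) = nU i s := by
  refine ⟨?_, ?_, ?_, ?_⟩
  · ext v
    rw [mem_BL, mem_BL]
    constructor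
    · rintro ⟨h, x, hx, hv⟩
      refine ⟨h, x, ?_, hv⟩
      rcases mem_insert.1 hx with rfl | hx
      · have := lev_cov H hv
        omega
      · exact hx
    · rintro ⟨h, x, hx, hv⟩
      exact ⟨h, x, mem_insert_of_mem hx, hv⟩
  · ext v
    rw [mem_BU, mem_BU]
    constructor
    · rintro ⟨h, x, hx, hv⟩
      refine ⟨h, x, ?_, hv⟩
      rcases mem_insert.1 hx with rfl | hx
      · have := lev_cov H hv
        omega
      · exact hx
    · rintro ⟨h, x, hx, hv⟩
      exact ⟨h, x, mem_insert_of_mem hx, hv⟩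
  · ext v
    rw [mem_nL, mem_nL]
    constructor
    · rintro ⟨h, h'⟩
      refine ⟨?_, h'⟩
      rcases mem_insert.1 h with rfl | h
      · omega
      · exact h
    · rintro ⟨h, h'⟩
      exact ⟨mem_insert_of_mem h, h'⟩
  · ext v
    rw [mem_nU, mem_nU]
    constructor
    · rintro ⟨h, h'⟩
      refine ⟨?_, h'⟩
      rcases mem_insert.1 h with rfl | h
      · omega
      · exact h
    · rintro ⟨h, h'⟩
      exact ⟨mem_insert_of_mem h, h'⟩

/-- the configuration N5: at most two deficits -/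
lemma N5_cheap (H : Gr P r) (hi : 1 ≤ i) (hi2 : i + 1 ≤ r) (hC : Part (i + 1) C)
    {z : P} (hz : z ∈ N5f i C) : Cheap 2 i (Psi i C {z}) := by
  have hps : Psi i C {z} = on (con i z) := by
    rw [Psi_on, singleton_biUnion]
    intro a ha
    rw [mem_singleton] at ha
    subst ha
    exact N5f_N1f H hz
  have hzC := (mem_N5f.1 hz).1
  rw [hps]
  rcases N5f_lev H hz with ⟨k, p, w, h0, h2, h3, h4⟩ | ⟨k, p, w, h0, h2, h3, h4⟩
  · have hp : z ⋖ p := by rw [← mem_uc, h3]; simp
    have hpC : p ∈ C := part_up hC hzC hp.le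
    have N := num_PD H h0 hpC
    have N' := (num_Chs H (Z_Chs (Or.inl h2))).g
    have l1 := (lev_PD h0).1
    have l2 := (mem_ZL.1 h2).2.1
    have hcon : con i z = insert z (con i p ∪ con i w) := by
      rw [con_rec_low H (by omega), h3, biUnion_insert, singleton_biUnion]
    have hd : Disjoint (sit i p) (sit i w) := by
      rw [sit_low H (by omega), sit_low H (by omega)]
      exact h4
    obtain ⟨g1, g2, g3, g4⟩ := insert_far (i := i) (z := z) (s := con i p ∪ con i w)
      (by omega) (by omega) H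
    apply on_cheap H hi hi2 (con_cls H (by omega))
    rw [hcon, g1, g2, g3, g4]
    exact pair_num H (by omega) N N' hd
  · have hp : p ⋖ z := by rw [← mem_dc, h3]; simp
    have hpC : p ∈ C := hC.dn hzC (by omega) hp
    have N := num_PU H h0 hpC
    have N' := (num_Chs H (Z_Chs (Or.inr h2))).g
    have l1 := (lev_PU h0).1
    have l2 := (mem_ZU.1 h2).2.1
    have hcon : con i z = insert z (con i p ∪ con i w) := by
      rw [con_rec_upp H (by omega), h3, biUnion_insert, singleton_biUnion]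
    have hd : Disjoint (sit i p) (sit i w) := by
      rw [sit_upp H (by omega), sit_upp H (by omega)]
      exact h4
    obtain ⟨g1, g2, g3, g4⟩ := insert_far (i := i) (z := z) (s := con i p ∪ con i w)
      (by omega) (by omega) H
    apply on_cheap H hi hi2 (con_cls H (by omega))
    rw [hcon, g1, g2, g3, g4]
    exact pair_num H (by omega) N N' hd

/-- the terms of the list of energy six -/
theorem LO6_dvd (Q : PSO r i psi C) (hs : Spt C e)
    (h : LO6 uc dc (tL (P := P) i) (tU i) (lS P i) (uS P i) e) :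
    dd ^ ((st i C).card - 2) ∣ tC i C e := by
  have H := Q.H
  have hir : i ≤ r := by have := Q.hi2; omega
  obtain ⟨T, hT, rfl⟩ := LO6_index Q hs h
  rcases mem_Ix.1 hT with hT | ⟨z, hz | hz, rfl⟩
  · obtain ⟨h1, h2, h3⟩ := mem_PR.1 hT
    obtain ⟨z, z', hne, rfl⟩ := card_eq_two.1 h2
    have hz := h1 (show z ∈ ({z, z'} : Finset P) by simp)
    have hz' := h1 (show z' ∈ ({z, z'} : Finset P) by simp)
    have hd := h3 z (by simp) z' (by simp) hne
    refine cheap_dvd H Q.hC hs ?_
    rw [(pr_of H hir hz hz' hd).2]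
    exact pair_cheap H Q.hi Q.hi2 (num_Chs H hz).g (num_Chs H hz').g hd
  · have hzC := (mem_N1f.1 hz).1
    rcases N1f_lev H hz with ⟨k, w, hw, hw2⟩ | ⟨k, w, hw, hw2⟩
    · obtain ⟨x, x', s, T⟩ := td_of_ZL Q hw
      obtain ⟨-, g2⟩ := psi_N1 H Q.hC T hw2 hzC
      exact (n1_coeff H Q.hi Q.hi2 Q.hC hs
        ⟨z, w, x, x', s, T, mem_lS.2 (by omega), hw2, g2⟩).2.2.2.2.1
    · obtain ⟨x, x', s, T⟩ := td_of_ZU Q hw
      obtain ⟨-, g2⟩ := psi_N1U H Q.hC T hw2 hzC
      exact (n1U_coeff H Q.hi Q.hi2 Q.hC hs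
        ⟨z, w, x, x', s, T, mem_uS.2 (by omega), hw2, g2⟩).2.2.2.2.1
  · exact cheap_dvd H Q.hC hs (N5_cheap H Q.hi Q.hi2 Q.hC hz)

/-- the terms of the remaining class of energy five -/
theorem D5_dvd (Q : PS5 r i psi C) (hs : Spt C e) (hE : ∑ x, e x ≤ 5) (h : D5 i psi e) :
    dd ^ ((st i C).card - 2) ∣ tC i C e := by
  have H := Q.H
  rcases h.cases Q hs hE with ⟨-, h | h⟩ | h
  · obtain ⟨w, w', x, x', s, T, T', hne, he⟩ := h
    rcases he with he | he
    · exact (clo_coeff H Q.hi Q.hi2 Q.hC hs T T' hne he).2.2.2.2.1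
    · exact (clo_coeff' H Q.hi Q.hi2 Q.hC hs T T' hne he).2.2.2.2.1
  · obtain ⟨p, y, p', u, s, T, T', hys, he⟩ := h
    exact (flp_coeff H Q.hi Q.hi2 Q.hC hs T T' hys he).2.2.2.2.1
  · obtain ⟨q, hq, rfl⟩ := LO5_index Q.toPSO hs h.2.2.2.2
    obtain ⟨h1, h2, h3⟩ := mem_I5.1 hq
    exact cheap_dvd H Q.hC hs
      (pair_cheap H Q.hi Q.hi2 (num_Chs H (Z_Chs h1)).g (num_PN H h2) h3)

theorem PS5.dvd5 (Q : PS5 r i psi C) : dd ^ ((st i C).card - 2) ∣ ZC i C 5 := by
  refine Q.dvd_five fun e he h => ?_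
  rw [mem_piA] at he
  exact D5_dvd Q he.2 he.1.le h

theorem PS6.dvd6 (Q : PS6 r i psi C) : dd ^ ((st i C).card - 2) ∣ ZC i C 6 := by
  refine Q.dvd_six fun e he h => ?_
  rw [mem_piA] at he
  exact LO6_dvd Q.toPSO he.2 h

lemma dvd_up {b k : ℕ} {f : A} (h : dd ^ (b - k) ∣ f) : dd ^ b ∣ dd ^ k * f := by
  refine (pow_dvd_pow dd (show b ≤ k + (b - k) by omega)).trans ?_
  rw [pow_add]
  exact mul_dvd_mul_left _ h

lemma card_PP (Q : PT r i psi C) : (C.filter (· ∈ PD P i)).card =
    (C.filter (· ∈ PU P i)).card := by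
  have h1 : (C.filter (· ∈ PD P i)).card ≤ 1 := by
    rw [card_le_one]
    intro a ha b hb
    rw [mem_filter] at ha hb
    exact Q.pd a ha.1 b hb.1 ha.2 hb.2
  have h2 : (C.filter (· ∈ PU P i)).card ≤ 1 := by
    rw [card_le_one]
    intro a ha b hb
    rw [mem_filter] at ha hb
    exact Q.pu a ha.1 b hb.1 ha.2 hb.2
  have h3 : (C.filter (· ∈ PD P i)).Nonempty ↔ (C.filter (· ∈ PU P i)).Nonempty := by
    constructor
    · rintro ⟨p, hp⟩
      rw [mem_filter] at hp
      obtain ⟨p', h4, h5⟩ := Q.both.1 ⟨p, hp⟩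
      exact ⟨p', mem_filter.2 ⟨h4, h5⟩⟩
    · rintro ⟨p, hp⟩
      rw [mem_filter] at hp
      obtain ⟨p', h4, h5⟩ := Q.both.2 ⟨p, hp⟩
      exact ⟨p', mem_filter.2 ⟨h4, h5⟩⟩
  rw [← card_pos, ← card_pos] at h3
  omega

/-- THE PROFILE at energy five -/
theorem PT.prof5 (Q : PT r i psi C) : Prof 3 5 (st i C).card (ZS i C) where
  lo := by
    intro n hn
    rw [coeff_ZS]
    rcases Nat.eq_zero_or_pos n with rfl | h
    · rw [ZC_zero Q.H (by have := Q.hi2; omega)]
    · exact so_lo Q.toPSO (card_PP Q) h (by omega)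
  mid := by
    intro n hn
    rw [coeff_ZS]
    have := dvd_up (k := 1) (Q.toPS5.le_four (n := n) (by omega))
    rwa [pow_one] at this
  top := by
    rw [coeff_ZS]
    exact dvd_up Q.toPS5.dvd5

/-- the top condition at energy six -/
theorem PS6.top6 (Q : PS6 r i psi C) :
    dd ^ (st i C).card ∣ dd ^ 2 * PowerSeries.coeff 6 (ZS i C) := by
  rw [coeff_ZS]
  exact dvd_up Q.dvd6

/-- THE SECOND ORDER IDENTITY OF A PART, unconditional form -/
theorem PS6.six' (Q : PS6 r i psi C) (hb : 1 ≤ (st i C).card) :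
    (I2.al 3 (st i C).card (ZS i C)) ^ 2 - 2 * I2.be 6 (st i C).card (ZS i C) =
      QQ i C + 2 * (N1f i C).card + 2 * (N5f i C).card := by
  classical
  refine Q.six hb ?_
  have h := sum_chg (S := C) Q.H (i := i) (fun _ => True)
  simp only [filter_true] at h
  rw [h, so_al3 Q]

end Pool.Agent.GaussPoset.Win.SO
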