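import Pool.Agent.W_448so_h64.SoL

/-!
SECOND ORDER THEOREM (MP_448cb3_co, proofs row 476): the data of a part which is a strip at the window.
-/

namespace Pool.Agent.GaussPoset.Win.SO

set_option linter.unusedSectionVars false

open Finset

universe u

variable {P : Type u} [Fintype P] [PartialOrder P] [DecidableEq P] {r i : ℕ} {psi : P → P}
  {C : Finset P}

/-- the data for the evaluation of (5,2): pendants occur on both sides or on no side, and they are over the
same double, or the window is small -/
structure PT (r i : ℕ) (psi : P → P) (C : Finset P) : Prop extends PS5 r i psi C where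
  both : (∃ p ∈ C, p ∈ PD P i) ↔ ∃ p' ∈ C, p' ∈ PU P i
  sm : ∀ p ∈ C, ∀ p' ∈ C, ∀ y u, p ∈ PD P i → p' ∈ PU P i → uc p = {y} → dc p' = {u} →
    u = psi y ∨ (st i C).card ≤ 3

end Pool.Agent.GaussPoset.Win.SO
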