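import Pool.Agent.W_448so_h64.SoR
import Pool.Agent.W_448so_h64.SoS

/-!
SECOND ORDER THEOREM (MP_448cb3_co, proofs row 476): values of pairs, general form; pendants.
-/

namespace Pool.Agent.GaussPoset.Win.SO

set_option linter.unusedSectionVars false

open Finset
open Pool.Agent.GaussPoset.Win.I2 (lS uS mem_lS mem_uS)

universe u

variable {P : Type u} [Fintype P] [PartialOrder P] [DecidableEq P] {r i : ℕ} {psi : P → P}
  {e : P → ℕ} {C : Finset P}

/-- the numbers of an element with one deficit -/
structure NumG (i : ℕ) (C : Finset P) (z : P) (v : ℤ) (k : ℕ) : Prop where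
  ns : lev z ≠ i
  mC : z ∈ C
  num : (BL i (con i z)).card + (BU i (con i z)).card =
    (nL i (con i z)).card + (nU i (con i z)).card + 1
  sgn : v = (-1) ^ ((BL i (con i z)).card + (nU i (con i z)).card)
  cd : (con i z).card = k

lemma Num.g {z : P} (N : Num i C z) : NumG i C z (chg i C z) 3 :=
  ⟨N.ns, N.mC, N.num, N.sgn, N.three⟩

/-- disjoint sites: the value is the product -/
theorem pair_gen (H : Gr P r) (hi : 1 ≤ i) (hi2 : i + 1 ≤ r) (hC : Part (i + 1) C)
    {z z' : P} {v v' : ℤ} {k k' : ℕ} (N : NumG i C z v k) (N' : NumG i C z' v' k')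
    (hd : Disjoint (sit i z) (sit i z')) :
    ∑ x, on (con i z ∪ con i z') x = k + k' ∧
    PowerSeries.coeff (st i C).card (dd ^ 2 * tC i C (on (con i z ∪ con i z')) : A) =
      v * v' := by
  have hir : i ≤ r := by omega
  have hcd := con_disj H hir N.ns N'.ns hd
  constructor
  · rw [on_sum, card_union_of_disjoint hcd, N.cd, N'.cd]
  have hs : Cls i (con i z ∪ con i z') := by
    have c1 := con_cls H N.ns
    have c2 := con_cls H N'.ns
    constructor
    · intro x hx
      rcases mem_union.1 hx with hx | hx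
      · exact c1.ns x hx
      · exact c2.ns x hx
    · intro x hx hl y hy
      rcases mem_union.1 hx with hx | hx
      · exact mem_union_left _ (c1.lo x hx hl y hy)
      · exact mem_union_right _ (c2.lo x hx hl y hy)
    · intro x hx hl y hy
      rcases mem_union.1 hx with hx | hx
      · exact mem_union_left _ (c1.up x hx hl y hy)
      · exact mem_union_right _ (c2.up x hx hl y hy)
  have hsC : con i z ∪ con i z' ⊆ C :=
    union_subset (con_sub H hC N.mC N.ns) (con_sub H hC N'.mC N'.ns)
  have s1 := sit_con H N.ns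
  have s1' := sit_con H N'.ns
  have a1 : BL i (con i z) ⊆ sit i z := by rw [← s1]; exact subset_union_left
  have a2 : BU i (con i z) ⊆ sit i z := by rw [← s1]; exact subset_union_right
  have a1' : BL i (con i z') ⊆ sit i z' := by rw [← s1']; exact subset_union_left
  have a2' : BU i (con i z') ⊆ sit i z' := by rw [← s1']; exact subset_union_right
  have own : ∀ {y : P}, lev y ≠ i → Disjoint (BL i (con i y)) (BU i (con i y)) := by
    intro y hy
    rcases Nat.lt_or_gt_of_ne hy with h | h
    · rw [BL_con_upp H h]; exact disjoint_empty_left _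
    · rw [BU_con_low H h]; exact disjoint_empty_right _
  have d1 : Disjoint (BL i (con i z)) (BL i (con i z')) := disjoint_of_subset_left a1
    (disjoint_of_subset_right a1' hd)
  have d2 : Disjoint (BU i (con i z)) (BU i (con i z')) := disjoint_of_subset_left a2
    (disjoint_of_subset_right a2' hd)
  have d3 : Disjoint (nL i (con i z)) (nL i (con i z')) := disjoint_of_subset_left
    (filter_subset _ _) (disjoint_of_subset_right (filter_subset _ _) hcd)
  have d4 : Disjoint (nU i (con i z)) (nU i (con i z')) := disjoint_of_subset_left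
    (filter_subset _ _) (disjoint_of_subset_right (filter_subset _ _) hcd)
  have hdis : Disjoint (BL i (con i z ∪ con i z')) (BU i (con i z ∪ con i z')) := by
    rw [BL_union, BU_union, disjoint_union_left, disjoint_union_right, disjoint_union_right]
    exact ⟨⟨own N.ns, disjoint_of_subset_left a1 (disjoint_of_subset_right a2' hd)⟩,
      disjoint_of_subset_left a1' (disjoint_of_subset_right a2 hd.symm), own N'.ns⟩
  have c1 : (BL i (con i z ∪ con i z')).card = (BL i (con i z)).card + (BL i (con i z')).card := by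
    rw [BL_union, card_union_of_disjoint d1]
  have c2 : (BU i (con i z ∪ con i z')).card = (BU i (con i z)).card + (BU i (con i z')).card := by
    rw [BU_union, card_union_of_disjoint d2]
  have c3 : (nL i (con i z ∪ con i z')).card = (nL i (con i z)).card + (nL i (con i z')).card := by
    rw [nL_union, card_union_of_disjoint d3]
  have c4 : (nU i (con i z ∪ con i z')).card = (nU i (con i z)).card + (nU i (con i z')).card := by
    rw [nU_union, card_union_of_disjoint d4]
  have n1 := N.num
  have n2 := N'.num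
  rw [on_coeff H hi hi2 hC hs hsC hdis (by omega), N.sgn, N'.sgn, c1, c4, ← pow_add]
  congr 1
  ring

/-- the double of a pendant -/
lemma PD_data (H : Gr P r) {p : P} (hp : p ∈ PD P i) :
    ∃ y, uc p = {y} ∧ lev p = i + 2 ∧ lev y = i + 1 ∧ (uc y).card = 2 ∧
      Pen uc (tL (P := P) i) (lS P i) p y := by
  obtain ⟨g1, g2, y, hy, hc⟩ := mem_PD.1 hp
  have g3 := lev_uc H (mem_uc.2 hy)
  obtain ⟨q, hq⟩ := card_eq_one.1 g2
  have hqy : y ∈ uc p := mem_uc.2 hy
  rw [hq, mem_singleton] at hqy
  subst hqy
  exact ⟨y, hq, g1, by omega, hc, ⟨mem_lS.2 (by omega), by unfold tL; omega, hq, hc⟩⟩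

lemma PU_data (H : Gr P r) {p : P} (hp : p ∈ PU P i) :
    ∃ y, dc p = {y} ∧ lev p + 2 = i ∧ lev y + 1 = i ∧ (dc y).card = 2 ∧
      Pen dc (tU (P := P) i) (uS P i) p y := by
  obtain ⟨g1, g2, y, hy, hc⟩ := mem_PU.1 hp
  have g3 := lev_dc H (mem_dc.2 hy)
  obtain ⟨q, hq⟩ := card_eq_one.1 g2
  have hqy : y ∈ dc p := mem_dc.2 hy
  rw [hq, mem_singleton] at hqy
  subst hqy
  exact ⟨y, hq, g1, by omega, hc, ⟨mem_uS.2 (by omega), by unfold tU; omega, hq, hc⟩⟩

lemma con_PD (H : Gr P r) {p y : P} (h1 : lev p = i + 2) (h2 : uc p = {y}) :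
    con i p = {p, y} := by
  rw [con_two_low H h1, h2]

lemma con_PU (H : Gr P r) {p y : P} (h1 : lev p + 2 = i) (h2 : dc p = {y}) :
    con i p = {p, y} := by
  rw [con_two_upp H h1, h2]

lemma sit_PD (H : Gr P r) {p y : P} (h1 : lev p = i + 2) (h2 : uc p = {y}) :
    sit i p = uc y := by
  rw [sit_low H (by omega)]
  ext v
  rw [mem_sts_iff H h1, h2]
  simp

lemma sit_PU (H : Gr P r) {p y : P} (h1 : lev p + 2 = i) (h2 : dc p = {y}) :
    sit i p = dc y := by
  rw [sit_upp H (by omega)]
  ext v
  rw [mem_stD_iff H h1, h2]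
  simp

/-- a pendant below the window: value `1` -/
lemma num_PD (H : Gr P r) {p : P} (hp : p ∈ PD P i) (hpC : p ∈ C) : NumG i C p 1 2 := by
  obtain ⟨y, g1, g2, g3, g4, -⟩ := PD_data H hp
  have hcon := con_PD H g2 g1
  have e1 : BL i (con i p) = uc y := by
    rw [BL_con_low H (by omega), ← sit_low H (show i ≤ lev p by omega), sit_PD H g2 g1]
  have e2 : nL i (con i p) = {y} := by
    rw [hcon]
    ext v
    rw [mem_nL, mem_insert, mem_singleton]
    constructor
    · rintro ⟨rfl | rfl, hl⟩
      · omega
      · rfl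
    · rintro rfl
      exact ⟨Or.inr rfl, g3⟩
  refine ⟨by omega, hpC, ?_, ?_, ?_⟩
  · rw [e1, BU_con_low H (by omega), e2, nU_con_low H (by omega), g4]
    simp
  · rw [e1, nU_con_low H (by omega), g4]
    norm_num
  · rw [hcon, card_pair]
    rintro rfl
    omega

/-- a pendant above the window: value `-1` -/
lemma num_PU (H : Gr P r) {p : P} (hp : p ∈ PU P i) (hpC : p ∈ C) : NumG i C p (-1) 2 := by
  obtain ⟨y, g1, g2, g3, g4, -⟩ := PU_data H hp
  have hcon := con_PU H g2 g1
  have e1 : BU i (con i p) = dc y := by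
    rw [BU_con_upp H (by omega), ← sit_upp H (show lev p ≤ i by omega), sit_PU H g2 g1]
  have e2 : nU i (con i p) = {y} := by
    rw [hcon]
    ext v
    rw [mem_nU, mem_insert, mem_singleton]
    constructor
    · rintro ⟨rfl | rfl, hl⟩
      · omega
      · rfl
    · rintro rfl
      exact ⟨Or.inr rfl, g3⟩
  refine ⟨by omega, hpC, ?_, ?_, ?_⟩
  · rw [e1, BL_con_upp H (by omega), e2, nL_con_upp H (by omega), g4]
    simp
  · rw [BL_con_upp H (by omega), e2]
    norm_num
  · rw [hcon, card_pair]
    rintro rfl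
    omega

end Pool.Agent.GaussPoset.Win.SO
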