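import Pool.Agent.W_448so_h64.SoA

/-!
SECOND ORDER THEOREM at the window `i` (MP_448cb3_co, proofs row 476), helper64.
ABSTRACT SETTING, definitions and basic lemmas for the classification of the cores.
-/

namespace Pool.Agent.GaussPoset.Win.SO

set_option linter.unusedSectionVars false

open Finset
open Pool.Agent.GaussPoset.Win.I2 (kd gu kl kn kr so cc fr KK KD mem_kn mem_kr mem_so kd_iff kl_iff)

universe u

variable {P : Type u} [DecidableEq P]

/-- NEAR LEVEL CONDITION: two covers of an element `w` at distance two have exactly one common cover, or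
both have one cover only (and then they have no common cover, or the same one). -/
def NL (c : P → Finset P) (t : P → ℕ) (Sd : Finset P) : Prop :=
  ∀ w ∈ Sd, t w = 2 → ∀ x ∈ c w, ∀ x' ∈ c w, x ≠ x' →
    (c x ∩ c x').card = 1 ∨ ((c x).card = 1 ∧ (c x').card = 1)

/-- both sides of a window. `psi` matches the doubles at distance one. -/
structure Two (c c' : P → Finset P) (t t' : P → ℕ) (V Sd Sd' : Finset P) (psi : P → P) : Prop where
  s1 : Sde c c' t V Sd
  s2 : Sde c' c t' V Sd'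
  nl1 : NL c t Sd
  nl2 : NL c' t' Sd'
  psi1 : ∀ x ∈ Sd, t x = 1 → (c x).card = 2 →
    psi x ∈ Sd' ∧ t' (psi x) = 1 ∧ c' (psi x) = c x ∧ psi (psi x) = x
  psi2 : ∀ x ∈ Sd', t' x = 1 → (c' x).card = 2 →
    psi x ∈ Sd ∧ t (psi x) = 1 ∧ c (psi x) = c' x ∧ psi (psi x) = x
  d1 : Disjoint Sd V
  d2 : Disjoint Sd' V
  d3 : Disjoint Sd Sd'

/-- exchange the two sides -/
lemma Two.symm {c c' : P → Finset P} {t t' : P → ℕ} {V Sd Sd' : Finset P} {psi : P → P}
    (W : Two c c' t t' V Sd Sd' psi) : Two c' c t' t V Sd' Sd psi :=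
  ⟨W.s2, W.s1, W.nl2, W.nl1, W.psi2, W.psi1, W.d2, W.d1, W.d3.symm⟩

/-- touched elements at distance one -/
def TT (c' : P → Finset P) (t : P → ℕ) (Sd : Finset P) (e : P → ℕ) : Finset P :=
  Sd.filter (fun x => t x = 1 ∧ ∃ z ∈ c' x, 0 < e z)

/-- excited elements at distance at least two -/
def FF (t : P → ℕ) (Sd : Finset P) (e : P → ℕ) : Finset P :=
  Sd.filter (fun z => 2 ≤ t z ∧ 0 < e z)

/-- `p` is a pendant: one cover `y`, at distance one, with two covers -/
structure Pen (c : P → Finset P) (t : P → ℕ) (Sd : Finset P) (p y : P) : Prop where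
  m : p ∈ Sd
  tp : t p = 2
  cp : c p = {y}
  cy : (c y).card = 2

/-- T data: `w` at distance two with two covers `x`, `x'` which have two covers each, `s` common -/
structure TD (c : P → Finset P) (t : P → ℕ) (Sd : Finset P) (w x x' s : P) : Prop where
  m : w ∈ Sd
  tw : t w = 2
  cw : c w = {x, x'}
  ne : x ≠ x'
  cx : (c x).card = 2
  cx' : (c x').card = 2
  sx : s ∈ c x
  sx' : s ∈ c x'
  only : ∀ v, v ∈ c x → v ∈ c x' → v = s

/-- the toggle condition (TOOL (B)) -/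
structure Tog (c c' : P → Finset P) (t : P → ℕ) (Sd : Finset P) (psi : P → P) (e : P → ℕ)
    (w x x' s : P) : Prop where
  T : TD c t Sd w x x' s
  w1 : 1 ≤ e w
  x1 : 1 ≤ e x
  x1' : 1 ≤ e x'
  st : (min (e x) (e x') < e w ∧ e s < min (e x) (e x')) ∨
    (e w ≤ min (e x) (e x') ∧ min (e x) (e x') ≤ e s)
  p0 : e (psi x) = 0
  p0' : e (psi x') = 0
  dw : ∀ z ∈ c' w, e z ≤ min (e w) (e s + 1)
  vx : e x < max (e w) (e s + 1) → ∀ v ∈ c x, v ≠ s → e v < e x
  vx' : e x' < max (e w) (e s + 1) → ∀ v ∈ c x', v ≠ s → e v < e x'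
  dx : ∀ z ∈ c' x, z ≠ w → e z ≤ e x
  dx' : ∀ z ∈ c' x', z ≠ w → e z ≤ e x'

/-- the reflection condition (TOOL (C)), one side: the pendant `p` below `y` is excited, `psi y` is not, and
no other element away from `y`, `p` is excited -/
structure Ref (c c' : P → Finset P) (t : P → ℕ) (Sd : Finset P) (psi : P → P) (e : P → ℕ)
    (p y : P) : Prop where
  pen : Pen c t Sd p y
  p1 : 1 ≤ e p
  u0 : e (psi y) = 0
  dy : ∀ z ∈ c' y, z ≠ p → e z = 0
  dp : ∀ z ∈ c' p, e z = 0

/-- closed pair: two excited elements over the same two doubles -/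
def Clo (c : P → Finset P) (t : P → ℕ) (Sd : Finset P) (e : P → ℕ) : Prop :=
  ∃ w w' x x', w ∈ Sd ∧ w' ∈ Sd ∧ t w = 2 ∧ t w' = 2 ∧ w ≠ w' ∧ x ≠ x' ∧ c w = {x, x'} ∧
    c w' = {x, x'} ∧ (c x).card = 2 ∧ (c x').card = 2 ∧ 1 ≤ e w ∧ 1 ≤ e w'

/-- the type of an explicit configuration: value one on `s`, zero elsewhere -/
def On (e : P → ℕ) (s : Finset P) : Prop := ∀ y, e y = if y ∈ s then 1 else 0

/-- chain: `z` hangs below a pendant only -/
structure Cha (c : P → Finset P) (t : P → ℕ) (Sd : Finset P) (z p y : P) : Prop where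
  m : z ∈ Sd
  cz : c z = {p}
  pen : Pen c t Sd p y

/-- N1: `z` below the T-element `w` only, labels `z = w = 2`, `x = x' = 1`, all others zero -/
def N1 (c : P → Finset P) (t : P → ℕ) (Sd : Finset P) (e : P → ℕ) : Prop :=
  ∃ z w x x' s, TD c t Sd w x x' s ∧ z ∈ Sd ∧ c z = {w} ∧
    ∀ y, e y = if y = z ∨ y = w then 2 else if y = x ∨ y = x' then 1 else 0

/-- N5: `z` below a pendant `p` and a T-element `w` with disjoint sites; all labels one -/
def N5 (c : P → Finset P) (t : P → ℕ) (Sd : Finset P) (e : P → ℕ) : Prop :=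
  ∃ z p y w x x' s, Pen c t Sd p y ∧ TD c t Sd w x x' s ∧ z ∈ Sd ∧ z ≠ p ∧ z ≠ w ∧ p ≠ w ∧
    c z = {p, w} ∧ Disjoint (c y) (c x ∪ c x') ∧ On e {z, p, w, y, x, x'}

/-- two T-elements of one side with disjoint sites -/
def TTp (c : P → Finset P) (t : P → ℕ) (Sd : Finset P) (e : P → ℕ) : Prop :=
  ∃ w x x' s w' y y' s', TD c t Sd w x x' s ∧ TD c t Sd w' y y' s' ∧
    Disjoint (c x ∪ c x') (c y ∪ c y') ∧ On e {w, x, x', w', y, y'}

/-- a T-element and a chain of one side with disjoint sites -/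
def TCp (c : P → Finset P) (t : P → ℕ) (Sd : Finset P) (e : P → ℕ) : Prop :=
  ∃ w x x' s z p y, TD c t Sd w x x' s ∧ Cha c t Sd z p y ∧
    Disjoint (c x ∪ c x') (c y) ∧ On e {w, x, x', z, p, y}

/-- T-elements on both sides with disjoint sites -/
def TUp (c c' : P → Finset P) (t t' : P → ℕ) (Sd Sd' : Finset P) (e : P → ℕ) : Prop :=
  ∃ w x x' s w' y y' s', TD c t Sd w x x' s ∧ TD c' t' Sd' w' y y' s' ∧
    Disjoint (c x ∪ c x') (c' y ∪ c' y') ∧ On e {w, x, x', w', y, y'}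

/-- a T-element of the first side and a chain of the second side with disjoint sites -/
def TVp (c c' : P → Finset P) (t t' : P → ℕ) (Sd Sd' : Finset P) (e : P → ℕ) : Prop :=
  ∃ w x x' s z p y, TD c t Sd w x x' s ∧ Cha c' t' Sd' z p y ∧
    Disjoint (c x ∪ c x') (c' y) ∧ On e {w, x, x', z, p, y}

/-- energy five: a T-element and a pendant of one side with disjoint sites -/
def TPp (c : P → Finset P) (t : P → ℕ) (Sd : Finset P) (e : P → ℕ) : Prop :=
  ∃ w x x' s p y, TD c t Sd w x x' s ∧ Pen c t Sd p y ∧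
    Disjoint (c x ∪ c x') (c y) ∧ On e {w, x, x', p, y}

/-- energy five: a T-element of the first side and a pendant of the second side, disjoint sites -/
def TQp (c c' : P → Finset P) (t t' : P → ℕ) (Sd Sd' : Finset P) (e : P → ℕ) : Prop :=
  ∃ w x x' s p y, TD c t Sd w x x' s ∧ Pen c' t' Sd' p y ∧
    Disjoint (c x ∪ c x') (c' y) ∧ On e {w, x, x', p, y}

/-- a configuration: admissible on both sides, no site killed from both sides, core -/
structure Cfg (c c' : P → Finset P) (t t' : P → ℕ) (V Sd Sd' : Finset P) (psi : P → P)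
    (e : P → ℕ) : Prop where
  adm1 : ∀ z ∈ Sd, ¬ (kd c' e z ∧ gu c e z)
  adm2 : ∀ z ∈ Sd', ¬ (kd c e z ∧ gu c' e z)
  dis : Disjoint (KD c' e V) (KD c e V)
  core1 : ∀ x ∈ Sd, t x = 1 → 0 < e x → (∃ z ∈ c' x, 0 < e z) ∨
    ((c x).card = 2 ∧ ∃ z ∈ c (psi x), 0 < e z)
  core2 : ∀ x ∈ Sd', t' x = 1 → 0 < e x → (∃ z ∈ c x, 0 < e z) ∨
    ((c' x).card = 2 ∧ ∃ z ∈ c' (psi x), 0 < e z)

/-- the excited pendants of the first side -/
def PDx (c : P → Finset P) (t : P → ℕ) (Sd : Finset P) (e : P → ℕ) : Prop :=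
  ∀ p y p' y', Pen c t Sd p y → Pen c t Sd p' y' → 0 < e p → 0 < e p' → p = p'

lemma Cfg.symm {c c' : P → Finset P} {t t' : P → ℕ} {V Sd Sd' : Finset P} {psi : P → P}
    {e : P → ℕ} (C : Cfg c c' t t' V Sd Sd' psi e) : Cfg c' c t' t V Sd' Sd psi e :=
  ⟨C.adm2, C.adm1, C.dis.symm, C.core2, C.core1⟩

/-- the surplus of one side: killed sites minus free elements -/
noncomputable def kS (c c' : P → Finset P) (V Sd : Finset P) (e : P → ℕ) : ℤ :=
  ((KD c' e V).card : ℤ) - ((fr c c' e Sd).card : ℤ)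

end Pool.Agent.GaussPoset.Win.SO
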