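import Pool.Agent.W_448so_h63.DK

/-!
SECOND ORDER THEOREM (MP_448cb3_co, proofs row 476): the classification (proof: helper63, `W_448so_h63`).
-/

namespace Pool.Agent.GaussPoset.Win.SO

set_option linter.unusedSectionVars false

open Finset
open Pool.Agent.GaussPoset.Win.I2 (kd gu kl kn kr so cc fr KK KD mem_kn mem_kr mem_so kd_iff kl_iff)

universe u

variable {P : Type u} [Fintype P] [DecidableEq P]
variable {c c' : P → Finset P} {t t' : P → ℕ} {V Sd Sd' : Finset P} {psi : P → P} {e : P → ℕ}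

/-- the leftover list of energy six -/
def LO6 (c c' : P → Finset P) (t t' : P → ℕ) (Sd Sd' : Finset P) (e : P → ℕ) : Prop :=
  TTp c t Sd e ∨ TTp c' t' Sd' e ∨ TCp c t Sd e ∨ TCp c' t' Sd' e ∨ TUp c c' t t' Sd Sd' e ∨
    TVp c c' t t' Sd Sd' e ∨ TVp c' c t' t Sd' Sd e ∨ N1 c t Sd e ∨ N1 c' t' Sd' e ∨
    N5 c t Sd e ∨ N5 c' t' Sd' e

/-- the leftover list of energy five -/
def LO5 (c c' : P → Finset P) (t t' : P → ℕ) (Sd Sd' : Finset P) (e : P → ℕ) : Prop :=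
  TPp c t Sd e ∨ TPp c' t' Sd' e ∨ TQp c c' t t' Sd Sd' e ∨ TQp c' c t' t Sd' Sd e

/-- CLASSIFICATION, energy at most six -/
theorem classify (W : Two c c' t t' V Sd Sd' psi) (C : Cfg c c' t t' V Sd Sd' psi e)
    (pd : PDx c t Sd e) (pd' : PDx c' t' Sd' e) (hE : ∑ x, e x ≤ 6) :
    kS c c' V Sd e + kS c' c V Sd' e ≤ 1 ∨ Clo c t Sd e ∨ Clo c' t' Sd' e ∨
    (∃ p y p' u, Pen c t Sd p y ∧ Pen c' t' Sd' p' u ∧ 0 < e p ∧ 0 < e p' ∧ u ≠ psi y) ∨
    (kS c c' V Sd e + kS c' c V Sd' e ≤ 2 ∧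
      ((∃ w x x' s, Tog c c' t Sd psi e w x x' s) ∨ ∃ w x x' s, Tog c' c t' Sd' psi e w x x' s)) ∨
    (((∃ p y, Ref c c' t Sd psi e p y) ∨ ∃ p y, Ref c' c t' Sd' psi e p y) ∧
      (∑ x, e x ≤ 5 → LO5 c c' t t' Sd Sd' e)) ∨
    LO6 c c' t t' Sd Sd' e :=
  Pool.Agent.GaussPoset.Win.So.classify W C pd pd' hE

/-- CLOSED PAIRS at energy five.  `w, w', x, x'` are excited: energy `≥ 4`, so at most one extra unit `g`
(`TT = {x, x'}`, other side empty).  With `c x = {a, s}`, `c x' = {s, b}` (nl; `TD` for both):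
no extra unit, or g outside `{w, w', s}`: `kS = 3 - 2 = 1` (or less).  g = w or w': `kS = 3 - 1 = 2`.
g = s: `kS = 2 - 0 = 2`. -/
theorem clo5 (W : Two c c' t t' V Sd Sd' psi) (C : Cfg c c' t t' V Sd Sd' psi e)
    (hE : ∑ x, e x ≤ 5) (h : Clo c t Sd e) :
    kS c c' V Sd e + kS c' c V Sd' e ≤ 1 ∨
    (∃ w w' x x' s, TD c t Sd w x x' s ∧ TD c t Sd w' x x' s ∧ w ≠ w' ∧
      ((∀ y, e y = if y = w then 2 else if y = w' ∨ y = x ∨ y = x' then 1 else 0) ∨
        On e {w, w', x, x', s})) :=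
  Pool.Agent.GaussPoset.Win.So.clo5 W C hE h

/-- FLIPS at energy five: `p` below `y`, `p'` above `u`, excited, the site sets of `y` and `u` have exactly one
common element `s`.  Energy `≥ 4`.  `s` is not killed by both (`C.dis`), so `e s ≥ min (e y) (e u) ≥ 1`: energy 5, all
labels one on `{p, y, s, u, p'}`, and then `kk = 2` (`y` and `u` are not free, each kills its other site). -/
theorem flip5 (W : Two c c' t t' V Sd Sd' psi) (C : Cfg c c' t t' V Sd Sd' psi e)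
    (hE : ∑ x, e x ≤ 5) {p y p' u s : P} (hp : Pen c t Sd p y) (hp' : Pen c' t' Sd' p' u)
    (h1 : 0 < e p) (h1' : 0 < e p') (hs : c y ∩ c' u = {s}) : On e {p, y, s, u, p'} :=
  Pool.Agent.GaussPoset.Win.So.flip5 W C hE hp hp' h1 h1' hs

end Pool.Agent.GaussPoset.Win.SO
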