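import Pool.Agent.W_448so_h64.SoE
import Pool.Agent.W_448so_h17.TgD
import Pool.Agent.W_448so_h17.RfC
import Pool.Agent.W_448so_h61.CB
import Pool.Agent.W_448cr_h63.CH

/-!
SECOND ORDER THEOREM (MP_448cb3_co, proofs row 476): the abstract setting is realised by the windows of a
Gaussian poset.
-/

namespace Pool.Agent.GaussPoset.Win.SO

set_option linter.unusedSectionVars false

open Finset
open Pool.Agent.GaussPoset.Win.I2 (kd gu kl kn kr so cc fr KK KD mem_kn mem_kr mem_so kd_iff kl_iff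
  lS uS mem_lS mem_uS kd_dc kd_uc gu_uc gu_dc adm_low adm_up KD_low KD_up fr_low fr_up Side0
  side0_low side0_up kk)
open Pool.Agent.GaussPoset.Win.So (TogL TogU RefL RefU RefD)

universe u

variable {P : Type u} [Fintype P] [PartialOrder P] [DecidableEq P] {r i : ℕ} {psi : P → P}
  {e : P → ℕ}

/-- distance below the window -/
noncomputable def tL (i : ℕ) (x : P) : ℕ := lev x - i

/-- distance above the window -/
noncomputable def tU (i : ℕ) (x : P) : ℕ := i - lev x

lemma sde_low (H : Gr P r) (i : ℕ) : Sde uc dc (tL (P := P) i) (lv P i) (lS P i) := by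
  have h := side0_low H i
  exact ⟨h.dual, h.c2, h.c2', h.ne, h.tS, h.tV, h.cin, h.cout⟩

lemma sde_up (H : Gr P r) (hir : i ≤ r) : Sde dc uc (tU (P := P) i) (lv P i) (uS P i) := by
  have h := side0_up H hir
  exact ⟨h.dual, h.c2, h.c2', h.ne, h.tS, h.tV, h.cin, h.cout⟩

/-- the near level condition below the window -/
def NLL (P : Type u) [Fintype P] [PartialOrder P] [DecidableEq P] (i : ℕ) : Prop :=
  NL uc (tL (P := P) i) (lS P i)

/-- the near level condition above the window -/
def NLU (P : Type u) [Fintype P] [PartialOrder P] [DecidableEq P] (i : ℕ) : Prop :=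
  NL dc (tU (P := P) i) (uS P i)

/-- the two sides of the window `i` -/
theorem two_of (H : Gr P r) (hi2 : i + 1 ≤ r) (hM : Mat P i ∅ psi) (h1 : NLL P i)
    (h2 : NLU P i) :
    Two uc dc (tL (P := P) i) (tU i) (lv P i) (lS P i) (uS P i) psi where
  s1 := sde_low H i
  s2 := sde_up H (by omega)
  nl1 := h1
  nl2 := h2
  psi1 := by
    classical
    intro x hx ht hc
    rw [mem_lS] at hx
    unfold tL at ht
    have hd : x ∈ dbL P i := by unfold dbL; rw [mem_filter]; exact ⟨mem_univ _, by omega, hc⟩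
    obtain ⟨g1, g2⟩ := hM.low x hd (by simp)
    have g3 := (hM.invol x (mem_union_left _ hd) (by simp)).1
    unfold dbU at g1
    rw [mem_filter] at g1
    refine ⟨?_, ?_, g2, g3⟩
    · rw [mem_uS]; omega
    · unfold tU; omega
  psi2 := by
    classical
    intro x hx ht hc
    rw [mem_uS] at hx
    unfold tU at ht
    have hd : x ∈ dbU P i := by unfold dbU; rw [mem_filter]; exact ⟨mem_univ _, by omega, hc⟩
    obtain ⟨g1, g2⟩ := hM.upp x hd (by simp)
    have g3 := (hM.invol x (mem_union_right _ hd) (by simp)).1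
    unfold dbL at g1
    rw [mem_filter] at g1
    refine ⟨?_, ?_, g2, g3⟩
    · rw [mem_lS]; omega
    · unfold tL; omega
  d1 := by
    rw [disjoint_left]
    intro x hx hx'
    rw [mem_lS] at hx
    rw [mem_lv] at hx'
    omega
  d2 := by
    rw [disjoint_left]
    intro x hx hx'
    rw [mem_uS] at hx
    rw [mem_lv] at hx'
    omega
  d3 := by
    rw [disjoint_left]
    intro x hx hx'
    rw [mem_lS] at hx
    rw [mem_uS] at hx'
    omega

/-- an untouched excited near element of a core is a double with touched partner -/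
lemma core_near (hc : IsCore i ∅ psi e) {x : P} (hx : x ∈ near P i) (he : 0 < e x) :
    x ∈ Tch i e ∨ (x ∈ dbL P i ∪ dbU P i ∧ psi x ∈ Tch i e) := by
  by_contra h
  rw [not_or] at h
  have h1 : x ∈ Rst i ∅ psi e := mem_Rst.2 ⟨hx, by simp, h.1, h.2⟩
  have := hc x h1
  omega

/-- the configuration of a core -/
theorem cfg_of (H : Gr P r) (hi2 : i + 1 ≤ r) (hM : Mat P i ∅ psi) (hc : IsCore i ∅ psi e)
    (hA : AdmL i e) (hB : AdmU i e) (hd : Disjoint (AL i e) (AU i e)) :
    Cfg uc dc (tL (P := P) i) (tU i) (lv P i) (lS P i) (uS P i) psi e where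
  adm1 := adm_low hA
  adm2 := adm_up hB
  dis := by rw [KD_low, KD_up]; exact hd
  core1 := by
    classical
    intro x hx ht he
    rw [mem_lS] at hx
    unfold tL at ht
    have hl : lev x = i + 1 := by omega
    have hn : x ∈ near P i := by unfold near; rw [mem_filter]; exact ⟨mem_univ _, Or.inl hl⟩
    rcases core_near hc hn he with h | ⟨h1, h2⟩
    · left
      unfold Tch at h
      rw [mem_filter] at h
      rcases h.2 with ⟨-, z, hz, hz'⟩ | ⟨h3, -⟩
      · exact ⟨z, mem_dc.2 hz, hz'⟩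
      · omega
    · right
      rw [mem_union] at h1
      have hd : x ∈ dbL P i := by
        rcases h1 with h1 | h1
        · exact h1
        · unfold dbU at h1; rw [mem_filter] at h1; omega
      obtain ⟨g1, g2⟩ := hM.low x hd (by simp)
      unfold dbL at hd
      unfold dbU at g1
      rw [mem_filter] at hd g1
      refine ⟨hd.2.2, ?_⟩
      unfold Tch at h2
      rw [mem_filter] at h2
      rcases h2.2 with ⟨h3, -⟩ | ⟨-, z, hz, hz'⟩
      · omega
      · exact ⟨z, mem_uc.2 hz, hz'⟩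
  core2 := by
    classical
    intro x hx ht he
    rw [mem_uS] at hx
    unfold tU at ht
    have hl : lev x + 1 = i := by omega
    have hn : x ∈ near P i := by unfold near; rw [mem_filter]; exact ⟨mem_univ _, Or.inr hl⟩
    rcases core_near hc hn he with h | ⟨h1, h2⟩
    · left
      unfold Tch at h
      rw [mem_filter] at h
      rcases h.2 with ⟨h3, -⟩ | ⟨-, z, hz, hz'⟩
      · omega
      · exact ⟨z, mem_uc.2 hz, hz'⟩
    · right
      rw [mem_union] at h1
      have hd : x ∈ dbU P i := by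
        rcases h1 with h1 | h1
        · unfold dbL at h1; rw [mem_filter] at h1; omega
        · exact h1
      obtain ⟨g1, g2⟩ := hM.upp x hd (by simp)
      unfold dbU at hd
      unfold dbL at g1
      rw [mem_filter] at hd g1
      refine ⟨hd.2.2, ?_⟩
      unfold Tch at h2
      rw [mem_filter] at h2
      rcases h2.2 with ⟨-, z, hz, hz'⟩ | ⟨h3, -⟩
      · exact ⟨z, mem_dc.2 hz, hz'⟩
      · omega

/-- surplus and deficits -/
lemma kS_sum (i : ℕ) (e : P → ℕ) :
    kS uc dc (lv P i) (lS P i) e + kS dc uc (lv P i) (uS P i) e =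
      ((AL i e).card + (AU i e).card : ℕ) - ((pL i e + pU i e : ℕ) : ℤ) := by
  unfold kS
  rw [KD_low, KD_up, fr_low, fr_up]
  push_cast
  ring

lemma cheap_of {k : ℕ}
    (h : kS uc dc (lv P i) (lS P i) e + kS dc uc (lv P i) (uS P i) e ≤ (k : ℤ)) :
    Cheap k i e := by
  rw [kS_sum] at h
  right; right; right
  omega

/-- pendants are the elements of `PD` -/
lemma pen_low (H : Gr P r) {p y : P} (h : Pen uc (tL (P := P) i) (lS P i) p y) :
    p ∈ PD P i ∧ lev p = i + 2 ∧ lev y = i + 1 ∧ uc p = {y} ∧ (uc y).card = 2 := by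
  obtain ⟨h1, h2, h3, h4⟩ := h
  rw [mem_lS] at h1
  unfold tL at h2
  have h5 : y ∈ uc p := by rw [h3]; simp
  have h6 := lev_uc H h5
  refine ⟨?_, by omega, by omega, h3, h4⟩
  exact mem_PD.2 ⟨by omega, by rw [h3]; simp, y, mem_uc.1 h5, h4⟩

lemma pen_up (H : Gr P r) {p y : P} (h : Pen dc (tU (P := P) i) (uS P i) p y) :
    p ∈ PU P i ∧ lev p + 2 = i ∧ lev y + 1 = i ∧ dc p = {y} ∧ (dc y).card = 2 := by
  obtain ⟨h1, h2, h3, h4⟩ := h
  rw [mem_uS] at h1
  unfold tU at h2
  have h5 : y ∈ dc p := by rw [h3]; simp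
  have h6 := lev_dc H h5
  refine ⟨?_, by omega, by omega, h3, h4⟩
  exact mem_PU.2 ⟨by omega, by rw [h3]; simp, y, mem_dc.1 h5, h4⟩

/-- T data below the window -/
lemma td_low (H : Gr P r) {w x x' s : P} (h : TD uc (tL (P := P) i) (lS P i) w x x' s) :
    lev w = i + 2 ∧ lev x = i + 1 ∧ lev x' = i + 1 ∧ lev s = i ∧
      ∃ a b, uc x = {a, s} ∧ uc x' = {s, b} ∧ a ≠ s ∧ s ≠ b ∧ a ≠ b := by
  obtain ⟨h1, h2, h3, h4, h5, h6, h7, h8, h9⟩ := h
  rw [mem_lS] at h1
  unfold tL at h2
  have g1 := lev_uc H (x := w) (v := x) (by rw [h3]; simp)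
  have g2 := lev_uc H (x := w) (v := x') (by rw [h3]; simp)
  have g3 := lev_uc H h7
  refine ⟨by omega, by omega, by omega, by omega, ?_⟩
  have k1 : ((uc x).erase s).card = 1 := by rw [card_erase_of_mem h7]; omega
  have k2 : ((uc x').erase s).card = 1 := by rw [card_erase_of_mem h8]; omega
  obtain ⟨a, ha⟩ := card_eq_one.1 k1
  obtain ⟨b, hb⟩ := card_eq_one.1 k2
  have ha' : a ∈ (uc x).erase s := by rw [ha]; simp
  have hb' : b ∈ (uc x').erase s := by rw [hb]; simp
  rw [mem_erase] at ha' hb'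
  refine ⟨a, b, ?_, ?_, ha'.1, hb'.1.symm, ?_⟩
  · rw [← insert_erase h7, ha, pair_comm]
  · rw [← insert_erase h8, hb]
  · rintro rfl
    exact ha'.1 (h9 a ha'.2 hb'.2)

/-- T data above the window -/
lemma td_up (H : Gr P r) {w x x' s : P} (h : TD dc (tU (P := P) i) (uS P i) w x x' s) :
    lev w + 2 = i ∧ lev x + 1 = i ∧ lev x' + 1 = i ∧ lev s = i ∧
      ∃ a b, dc x = {a, s} ∧ dc x' = {s, b} ∧ a ≠ s ∧ s ≠ b ∧ a ≠ b := by
  obtain ⟨h1, h2, h3, h4, h5, h6, h7, h8, h9⟩ := h
  rw [mem_uS] at h1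
  unfold tU at h2
  have g1 := lev_dc H (x := w) (v := x) (by rw [h3]; simp)
  have g2 := lev_dc H (x := w) (v := x') (by rw [h3]; simp)
  have g3 := lev_dc H h7
  refine ⟨by omega, by omega, by omega, by omega, ?_⟩
  have k1 : ((dc x).erase s).card = 1 := by rw [card_erase_of_mem h7]; omega
  have k2 : ((dc x').erase s).card = 1 := by rw [card_erase_of_mem h8]; omega
  obtain ⟨a, ha⟩ := card_eq_one.1 k1
  obtain ⟨b, hb⟩ := card_eq_one.1 k2
  have ha' : a ∈ (dc x).erase s := by rw [ha]; simp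
  have hb' : b ∈ (dc x').erase s := by rw [hb]; simp
  rw [mem_erase] at ha' hb'
  refine ⟨a, b, ?_, ?_, ha'.1, hb'.1.symm, ?_⟩
  · rw [← insert_erase h7, ha, pair_comm]
  · rw [← insert_erase h8, hb]
  · rintro rfl
    exact ha'.1 (h9 a ha'.2 hb'.2)

end Pool.Agent.GaussPoset.Win.SO
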