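import Pool.Agent.W_448so_h64.SoG

/-!
SECOND ORDER THEOREM (MP_448cb3_co, proofs row 476): the classification for the configurations of a part.
-/

namespace Pool.Agent.GaussPoset.Win.SO

set_option linter.unusedSectionVars false

open Finset
open Pool.Agent.GaussPoset.Win.I2 (kd gu kl kn kr so cc fr KK KD mem_kn mem_kr mem_so kd_iff kl_iff
  lS uS mem_lS mem_uS kd_dc kd_uc gu_uc gu_dc adm_low adm_up KD_low KD_up fr_low fr_up Side0
  side0_low side0_up kk)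
open Pool.Agent.GaussPoset.Win.So (TogL TogU RefL RefU RefD)

universe u

variable {P : Type u} [Fintype P] [PartialOrder P] [DecidableEq P] {r i : ℕ} {psi : P → P}
  {e : P → ℕ} {C : Finset P}

/-- the data of a part at the window `i` -/
structure PSO (r i : ℕ) (psi : P → P) (C : Finset P) : Prop where
  H : Gr P r
  hi : 1 ≤ i
  hi2 : i + 1 ≤ r
  hC : Part (i + 1) C
  hM : Mat P i ∅ psi
  nlL : NLL P i
  nlU : NLU P i
  pd : ∀ p ∈ C, ∀ p' ∈ C, p ∈ PD P i → p' ∈ PD P i → p = p'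
  pu : ∀ p ∈ C, ∀ p' ∈ C, p ∈ PU P i → p' ∈ PU P i → p = p'

/-- no closed pairs and no flip: the case of energy six -/
structure PS6 (r i : ℕ) (psi : P → P) (C : Finset P) : Prop extends PSO r i psi C where
  ncl : ∀ w ∈ C, ∀ w' ∈ C, ∀ x x' : P, lev w = i + 2 → x ≠ x' → uc w = {x, x'} →
    uc w' = {x, x'} → (uc x).card = 2 → (uc x').card = 2 → w = w'
  ncu : ∀ w ∈ C, ∀ w' ∈ C, ∀ x x' : P, lev w + 2 = i → x ≠ x' → dc w = {x, x'} →
    dc w' = {x, x'} → (dc x).card = 2 → (dc x').card = 2 → w = w'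
  mtL : ∀ p ∈ C, p ∈ PD P i → ∃ y, uc p = {y} ∧ ∃ p' ∈ C, p' ∈ PU P i ∧ dc p' = {psi y}
  mtU : ∀ p' ∈ C, p' ∈ PU P i → ∃ u, dc p' = {u} ∧ ∃ p ∈ C, p ∈ PD P i ∧ uc p = {psi u}

/-- excited elements are in the part -/
lemma mem_of_spt (hs : Spt C e) {x : P} (h : 0 < e x) : x ∈ C := by
  by_contra hx
  have := hs x hx
  omega

theorem PSO.two (Q : PSO r i psi C) :
    Two uc dc (tL (P := P) i) (tU i) (lv P i) (lS P i) (uS P i) psi :=
  two_of Q.H Q.hi2 Q.hM Q.nlL Q.nlU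

lemma PSO.pdx (Q : PSO r i psi C) (hs : Spt C e) : PDx uc (tL (P := P) i) (lS P i) e := by
  intro p y p' y' h h' h1 h1'
  exact Q.pd p (mem_of_spt hs h1) p' (mem_of_spt hs h1') (pen_low Q.H h).1 (pen_low Q.H h').1

lemma PSO.pux (Q : PSO r i psi C) (hs : Spt C e) : PDx dc (tU (P := P) i) (uS P i) e := by
  intro p y p' y' h h' h1 h1'
  exact Q.pu p (mem_of_spt hs h1) p' (mem_of_spt hs h1') (pen_up Q.H h).1 (pen_up Q.H h').1

lemma PS6.noClo (Q : PS6 r i psi C) (hs : Spt C e) : ¬ Clo uc (tL (P := P) i) (lS P i) e := by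
  rintro ⟨w, w', x, x', h1, h2, h3, h4, h5, h6, h7, h8, h9, h10, h11, h12⟩
  rw [mem_lS] at h1
  unfold tL at h3
  exact h5 (Q.ncl w (mem_of_spt hs h11) w' (mem_of_spt hs h12) x x' (by omega) h6 h7 h8 h9 h10)

lemma PS6.noCloU (Q : PS6 r i psi C) (hs : Spt C e) : ¬ Clo dc (tU (P := P) i) (uS P i) e := by
  rintro ⟨w, w', x, x', h1, h2, h3, h4, h5, h6, h7, h8, h9, h10, h11, h12⟩
  rw [mem_uS] at h1
  unfold tU at h3
  exact h5 (Q.ncu w (mem_of_spt hs h11) w' (mem_of_spt hs h12) x x' (by omega) h6 h7 h8 h9 h10)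

lemma PS6.noFlip (Q : PS6 r i psi C) (hs : Spt C e) {p y p' u : P}
    (h : Pen uc (tL (P := P) i) (lS P i) p y) (h' : Pen dc (tU (P := P) i) (uS P i) p' u)
    (h1 : 0 < e p) (h1' : 0 < e p') : u = psi y := by
  obtain ⟨g1, g2, g3, g4, g5⟩ := pen_low Q.H h
  obtain ⟨k1, k2, k3, k4, k5⟩ := pen_up Q.H h'
  obtain ⟨y1, hy1, p1, hp1, hp1', hd⟩ := Q.mtL p (mem_of_spt hs h1) g1
  have e1 : y1 = y := by
    rw [g4, singleton_inj] at hy1
    exact hy1.symm
  subst e1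
  have e2 := Q.pu p1 hp1 p' (mem_of_spt hs h1') hp1' k1
  subst e2
  rw [k4, singleton_inj] at hd
  exact hd

/-- the static reflection data of a pendant below the window -/
theorem PS6.refD (Q : PS6 r i psi C) {p y : P} (hp : p ∈ C) (hpd : p ∈ PD P i)
    (hy : uc p = {y}) : ∃ p' ∈ C, RefD r i y p (psi y) p' := by
  classical
  obtain ⟨y1, hy1, p', hp', hpu, hd⟩ := Q.mtL p hp hpd
  have e1 : y1 = y := by
    rw [hy, singleton_inj] at hy1
    exact hy1.symm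
  subst e1
  obtain ⟨hl, -, y2, hy2, hc⟩ := mem_PD.1 hpd
  have e2 : y2 = y1 := by
    have := mem_uc.2 hy2
    rw [hy, mem_singleton] at this
    exact this
  subst e2
  have hly := lev_uc Q.H (mem_uc.2 hy2)
  have hdb : y2 ∈ dbL P i := by unfold dbL; rw [mem_filter]; exact ⟨mem_univ _, by omega, hc⟩
  obtain ⟨g1, g2⟩ := Q.hM.low y2 hdb (by simp)
  unfold dbU at g1
  rw [mem_filter] at g1
  have := Q.hi2
  exact ⟨p', hp', ⟨by omega, g1.2.1, by omega, hy, hd, g2, hc⟩⟩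

/-- the static reflection data of a pendant above the window -/
theorem PS6.refD' (Q : PS6 r i psi C) {p' u : P} (hp : p' ∈ C) (hpd : p' ∈ PU P i)
    (hu : dc p' = {u}) : ∃ p ∈ C, RefD r i (psi u) p u p' := by
  classical
  obtain ⟨y1, hy1, p, hp1, hpu, hd⟩ := Q.mtU p' hp hpd
  have e1 : y1 = u := by
    rw [hu, singleton_inj] at hy1
    exact hy1.symm
  subst e1
  obtain ⟨hl, -, y2, hy2, hc⟩ := mem_PU.1 hpd
  have e2 : y2 = y1 := by
    have := mem_dc.2 hy2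
    rw [hu, mem_singleton] at this
    exact this
  subst e2
  have hly := lev_dc Q.H (mem_dc.2 hy2)
  have hdb : y2 ∈ dbU P i := by unfold dbU; rw [mem_filter]; exact ⟨mem_univ _, by omega, hc⟩
  obtain ⟨g1, g2⟩ := Q.hM.upp y2 hdb (by simp)
  unfold dbL at g1
  rw [mem_filter] at g1
  have := Q.hi2
  exact ⟨p, hp1, ⟨g1.2.1, by omega, by omega, hd, hu, g2.symm, g1.2.2⟩⟩

/-- CLASSIFICATION for the cores of a part, energy at most six -/
theorem PS6.cls (Q : PS6 r i psi C) (hs : Spt C e) (hc : IsCore i ∅ psi e) (hE : ∑ x, e x ≤ 6) :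
    Cheap 1 i e ∨
    (Cheap 2 i e ∧ ((∃ w x x' a s b, TogL i e w x x' a s b ∧ a ≠ b) ∨
      ∃ w x x' a s b, TogU i e w x x' a s b ∧ a ≠ b)) ∨
    (∃ y p u p', p ∈ C ∧ p' ∈ C ∧ psi y = u ∧ RefD r i y p u p' ∧
      (RefL e y p u p' ∨ RefU e y p u p')) ∨
    (AdmL i e ∧ AdmU i e ∧ Disjoint (AL i e) (AU i e) ∧
      LO6 uc dc (tL (P := P) i) (tU i) (lS P i) (uS P i) e) := by
  classical
  by_cases hA : AdmL i e
  swap
  · exact Or.inl (Or.inl hA)
  by_cases hB : AdmU i e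
  swap
  · exact Or.inl (Or.inr (Or.inl hB))
  by_cases hd : Disjoint (AL i e) (AU i e)
  swap
  · exact Or.inl (Or.inr (Or.inr (Or.inl hd)))
  have hir := Q.hi2
  rcases classify Q.two (cfg_of Q.H Q.hi2 Q.hM hc hA hB hd) (Q.pdx hs) (Q.pux hs) hE with
    h | h | h | h | h | h | h
  · exact Or.inl (cheap_of h)
  · exact absurd h (Q.noClo hs)
  · exact absurd h (Q.noCloU hs)
  · obtain ⟨p, y, p', u, h1, h2, h3, h4, h5⟩ := h
    exact absurd (Q.noFlip hs h1 h2 h3 h4) h5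
  · right; left
    refine ⟨cheap_of h.1, ?_⟩
    rcases h.2 with ⟨w, x, x', s, T⟩ | ⟨w, x, x', s, T⟩
    · left
      obtain ⟨a, b, h1, h2⟩ := togL_of Q.H Q.hM T
      exact ⟨w, x, x', a, s, b, h1, h2⟩
    · right
      obtain ⟨a, b, h1, h2⟩ := togU_of Q.H Q.hM T
      exact ⟨w, x, x', a, s, b, h1, h2⟩
  · right; right; left
    rcases h.1 with ⟨p, y, R⟩ | ⟨p', u, R⟩
    · obtain ⟨g1, g2, g3, g4, g5⟩ := pen_low Q.H R.pen
      have hpC := mem_of_spt hs (show 0 < e p by have := R.p1; omega)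
      obtain ⟨p', hp', D⟩ := Q.refD hpC g1 g4
      refine ⟨y, p, psi y, p', hpC, hp', rfl, D, Or.inl ?_⟩
      exact RefL.mk' Q.H D (by omega) hA hB R.p1 R.u0 (fun z hz hzp => R.dy z (mem_dc.2 hz) hzp)
        (fun z hz => R.dp z (mem_dc.2 hz))
    · obtain ⟨g1, g2, g3, g4, g5⟩ := pen_up Q.H R.pen
      have hpC := mem_of_spt hs (show 0 < e p' by have := R.p1; omega)
      obtain ⟨p, hp, D⟩ := Q.refD' hpC g1 g4
      have hdb : u ∈ dbU P i := by unfold dbU; rw [mem_filter]; exact ⟨mem_univ _, g3, g5⟩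
      refine ⟨psi u, p, u, p', hp, hpC, (Q.hM.invol u (mem_union_right _ hdb) (by simp)).1, D,
        Or.inr ?_⟩
      exact RefU.mk' Q.H D (by omega) hA hB R.p1 R.u0 (fun z hz hzp => R.dy z (mem_uc.2 hz) hzp)
        (fun z hz => R.dp z (mem_uc.2 hz))
  · right; right; right
    exact ⟨hA, hB, hd, h⟩

end Pool.Agent.GaussPoset.Win.SO
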