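import Pool.Agent.W_448so_h64.SoH
import Pool.Agent.W_448so_h63.ED

/-!
SECOND ORDER THEOREM (MP_448cb3_co, proofs row 476): VALUES of the explicit configurations.
Typed by helper64 (statements) and helper63 (proofs, EC and ED).
-/

namespace Pool.Agent.GaussPoset.Win.SO

set_option linter.unusedSectionVars false

open Finset
open Pool.Agent.GaussPoset.Win.I2 (lS uS mem_lS mem_uS)

universe u

variable {P : Type u} [Fintype P] [PartialOrder P] [DecidableEq P] {r i : ℕ} {psi : P → P}
  {e : P → ℕ} {C : Finset P}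

/-- label one on `s` -/
def on (s : Finset P) : P → ℕ := fun y => if y ∈ s then 1 else 0

/-- `s` has no sites and is closed towards the window -/
structure Cls (i : ℕ) (s : Finset P) : Prop where
  ns : ∀ x ∈ s, lev x ≠ i
  lo : ∀ x ∈ s, i + 1 < lev x → ∀ y, x ⋖ y → y ∈ s
  up : ∀ x ∈ s, lev x + 1 < i → ∀ y, y ⋖ x → y ∈ s

open Classical in
/-- sites above the lower near elements of `s` -/
noncomputable def BL (i : ℕ) (s : Finset P) : Finset P :=
  (lv P i).filter (fun v => ∃ x ∈ s, x ⋖ v)

open Classical in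
/-- sites below the upper near elements of `s` -/
noncomputable def BU (i : ℕ) (s : Finset P) : Finset P :=
  (lv P i).filter (fun v => ∃ x ∈ s, v ⋖ x)

/-- lower near elements of `s` -/
noncomputable def nL (i : ℕ) (s : Finset P) : Finset P := s.filter (fun x => lev x = i + 1)

/-- upper near elements of `s` -/
noncomputable def nU (i : ℕ) (s : Finset P) : Finset P := s.filter (fun x => lev x + 1 = i)

lemma on_dat (H : Gr P r) (hir : i ≤ r) {s : Finset P} (hs : Cls i s) :
    LowD i (on s) ∅ (nL i s) (BL i s) ∧ UppD i (on s) ∅ (nU i s) (BU i s) := by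
  classical
  constructor
  · refine low_cls H (fun _ => rfl) hs.ns hs.lo ?_ ?_
    · intro z
      unfold nL
      rw [mem_filter]
    · intro v
      unfold BL
      rw [mem_filter, mem_lv]
  · refine upp_cls H hir (fun _ => rfl) hs.ns hs.up ?_ ?_
    · intro z
      unfold nU
      rw [mem_filter]
    · intro v
      unfold BU
      rw [mem_filter, mem_lv]

lemma on_spt {s : Finset P} (hsC : s ⊆ C) : Spt C (on s) := by
  intro x hx
  unfold on
  rw [if_neg (fun h => hx (hsC h))]

/-- LABELS ONE ON A CLOSED SET.  No element of a side is killed (labels `≤ 1`; an element `z ∉ s` of a side has no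
lower cover / upper cover away from the window in `s`), an element of `s` at distance `≥ 2` has a cover towards the
window in `s` (GU / GD), an element outside `s` has label zero (GU / GD, there is a cover); so the free elements are the
near elements of `s`, all others are not free; killed sites: `BL`, `BU`. -/
theorem on_data (H : Gr P r) (hi : 1 ≤ i) (hi2 : i + 1 ≤ r) {s : Finset P} (hs : Cls i s) :
    AdmL i (on s) ∧ AdmU i (on s) ∧ aL i (on s) = 0 ∧ aU i (on s) = 0 ∧
      pL i (on s) = (nL i s).card ∧ pU i (on s) = (nU i s).card ∧ AL i (on s) = BL i s ∧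
      AU i (on s) = BU i s := by
  obtain ⟨D, D'⟩ := on_dat H (by omega) hs
  exact ⟨D.adm, D'.adm, by rw [D.aL_eq, card_empty], by rw [D'.aU_eq, card_empty], D.pL_eq,
    D'.pU_eq, D.AL_eq, D'.AU_eq⟩

/-- the value: sign `(-1) ^ (killed below + free above)` if there are exactly two deficits
(`tC = xx ^ |BL| * xi ^ |nU| * dd ^ (|nL| + |nU| + (b - |BL| - |BU|))`, exponent `b - 2`, `|BL| + |BU| ≤ b`). -/
theorem on_coeff (H : Gr P r) (hi : 1 ≤ i) (hi2 : i + 1 ≤ r) (hC : Part (i + 1) C)
    {s : Finset P} (hs : Cls i s) (hsC : s ⊆ C) (hd : Disjoint (BL i s) (BU i s))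
    (h2 : (BL i s).card + (BU i s).card = (nL i s).card + (nU i s).card + 2) :
    PowerSeries.coeff (st i C).card (dd ^ 2 * tC i C (on s) : A) =
      (-1) ^ ((BL i s).card + (nU i s).card) := by
  obtain ⟨D, D'⟩ := on_dat H (by omega) hs
  have h := (val_gen H hC (on_spt hsC) D D' hd h2).2
  rw [card_empty, zero_add, zero_add] at h
  exact h

/-- one deficit: first order value -/
theorem on_coeff1 (H : Gr P r) (hi : 1 ≤ i) (hi2 : i + 1 ≤ r) (hC : Part (i + 1) C)
    {s : Finset P} (hs : Cls i s) (hsC : s ⊆ C) (hd : Disjoint (BL i s) (BU i s))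
    (h2 : (BL i s).card + (BU i s).card = (nL i s).card + (nU i s).card + 1) :
    PowerSeries.coeff (st i C).card (dd * tC i C (on s) : A) =
      (-1) ^ ((BL i s).card + (nU i s).card) := by
  obtain ⟨D, D'⟩ := on_dat H (by omega) hs
  have h := (val_gen H hC (on_spt hsC) D D' hd h2).2
  rw [card_empty, zero_add, zero_add, pow_one] at h
  exact h

/-- N1 below the window: `z = w = 2`, `x = x' = 1`: `x, x'` killed (aL = 2), `w` free (pL = 1), three sites killed:
`xx ^ 5 * dd ^ (b - 2)`, value `-1`. -/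
theorem n1_coeff (H : Gr P r) (hi : 1 ≤ i) (hi2 : i + 1 ≤ r) (hC : Part (i + 1) C)
    (hs : Spt C e) (h : N1 uc (tL (P := P) i) (lS P i) e) :
    AdmL i e ∧ AdmU i e ∧ Disjoint (AL i e) (AU i e) ∧ ∑ x, e x = 6 ∧
      dd ^ ((st i C).card - 2) ∣ tC i C e ∧
      PowerSeries.coeff (st i C).card (dd ^ 2 * tC i C e : A) = -1 := by
  exact n1_val H (by omega) hC hs h

/-- N1 above the window: `xi ^ 3 * dd ^ (b - 2)`, value `-1`. -/
theorem n1U_coeff (H : Gr P r) (hi : 1 ≤ i) (hi2 : i + 1 ≤ r) (hC : Part (i + 1) C)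
    (hs : Spt C e) (h : N1 dc (tU (P := P) i) (uS P i) e) :
    AdmL i e ∧ AdmU i e ∧ Disjoint (AL i e) (AU i e) ∧ ∑ x, e x = 6 ∧
      dd ^ ((st i C).card - 2) ∣ tC i C e ∧
      PowerSeries.coeff (st i C).card (dd ^ 2 * tC i C e : A) = -1 := by
  exact n1U_val H (by omega) hC hs h

/-- closed pair, labels `(w, w', x, x') = (2, 1, 1, 1)`: `x, x'` killed, `w` free, three sites:
`xx ^ 5 * dd ^ (b - 2)`, value `-1`. -/
theorem clo_coeff (H : Gr P r) (hi : 1 ≤ i) (hi2 : i + 1 ≤ r) (hC : Part (i + 1) C)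
    (hs : Spt C e) {w w' x x' s : P} (h : TD uc (tL (P := P) i) (lS P i) w x x' s)
    (h' : TD uc (tL (P := P) i) (lS P i) w' x x' s) (hne : w ≠ w')
    (he : ∀ y, e y = if y = w then 2 else if y = w' ∨ y = x ∨ y = x' then 1 else 0) :
    AdmL i e ∧ AdmU i e ∧ Disjoint (AL i e) (AU i e) ∧ ∑ x, e x = 5 ∧
      dd ^ ((st i C).card - 2) ∣ tC i C e ∧
      PowerSeries.coeff (st i C).card (dd ^ 2 * tC i C e : A) = -1 := by
  exact clo_val H (by omega) hC hs h h' hne he

/-- closed pair, all labels one and the common site `s` with label one: `x, x'` are not free (`GU`), they kill their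
other sites: `xx ^ 2 * dd ^ (b - 2)`, value `+1`. -/
theorem clo_coeff' (H : Gr P r) (hi : 1 ≤ i) (hi2 : i + 1 ≤ r) (hC : Part (i + 1) C)
    (hs : Spt C e) {w w' x x' s : P} (h : TD uc (tL (P := P) i) (lS P i) w x x' s)
    (h' : TD uc (tL (P := P) i) (lS P i) w' x x' s) (hne : w ≠ w')
    (he : On e {w, w', x, x', s}) :
    AdmL i e ∧ AdmU i e ∧ Disjoint (AL i e) (AU i e) ∧ ∑ x, e x = 5 ∧
      dd ^ ((st i C).card - 2) ∣ tC i C e ∧
      PowerSeries.coeff (st i C).card (dd ^ 2 * tC i C e : A) = 1 := by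
  exact clo_val' H (by omega) hC hs h h' hne he

/-- flip: `p` below `y`, `p'` above `u`, common site `s`, all five labels one: `y`, `u` are not free, each kills its
other site: `xx * dd ^ (b - 2)`, value `-1`. -/
theorem flp_coeff (H : Gr P r) (hi : 1 ≤ i) (hi2 : i + 1 ≤ r) (hC : Part (i + 1) C)
    (hs : Spt C e) {p y p' u s : P} (h : Pen uc (tL (P := P) i) (lS P i) p y)
    (h' : Pen dc (tU (P := P) i) (uS P i) p' u) (hys : uc y ∩ dc u = {s})
    (he : On e {p, y, s, u, p'}) :
    AdmL i e ∧ AdmU i e ∧ Disjoint (AL i e) (AU i e) ∧ ∑ x, e x = 5 ∧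
      dd ^ ((st i C).card - 2) ∣ tC i C e ∧
      PowerSeries.coeff (st i C).card (dd ^ 2 * tC i C e : A) = -1 := by
  exact flp_val H (by omega) hC hs h h' hys he

end Pool.Agent.GaussPoset.Win.SO
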