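import Pool.Agent.W_448so_h64.SoH

/-!
SECOND ORDER THEOREM (MP_448cb3_co, proofs row 476): the reduced configuration of a reflection (C4).
-/

namespace Pool.Agent.GaussPoset.Win.SO

set_option linter.unusedSectionVars false

open Finset
open Pool.Agent.GaussPoset.Win.I2 (lS uS mem_lS mem_uS)
open Pool.Agent.GaussPoset.Win.So (TogL TogU RefL RefU RefD red up2 up2_y up2_p up2_ne)

universe u

variable {P : Type u} [Fintype P] [PartialOrder P] [DecidableEq P] {r i : ℕ} {psi : P → P}
  {e : P → ℕ} {C : Finset P}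

lemma red_le (y p : P) (e : P → ℕ) (x : P) : red y p e x ≤ e x := by
  unfold red up2
  split_ifs <;> omega

lemma red_y (y p : P) (e : P → ℕ) : red y p e y = 0 := up2_y y p 0 0 e

lemma red_p {y p : P} (h : p ≠ y) (e : P → ℕ) : red y p e p = 0 := up2_p h 0 0 e

lemma red_spt (hs : Spt C e) (y p : P) : Spt C (red y p e) := by
  intro x hx
  have := red_le y p e x
  have := hs x hx
  omega

/-- the energy of the reduced configuration -/
lemma red_sum {y p : P} (hne : p ≠ y) (e : P → ℕ) :
    ∑ x, red y p e x + e y + e p = ∑ x, e x := by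
  classical
  have h1 : ∀ x, e x = red y p e x + ((if x = y then e y else 0) + (if x = p then e p else 0)) := by
    intro x
    unfold red up2
    by_cases h : x = y
    · subst h
      simp [hne.symm]
    · by_cases h' : x = p
      · subst h'
        simp [h]
      · simp [h, h']
  conv_rhs => rw [Finset.sum_congr rfl fun x _ => h1 x]
  rw [Finset.sum_add_distrib, Finset.sum_add_distrib]
  simp only [Finset.sum_ite_eq', mem_univ, if_true]
  ring

/-- the reduced configuration of a core is a core -/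
lemma red_core (H : Gr P r) (hc : IsCore i ∅ psi e) {y p u p' : P} (D : RefD r i y p u p')
    (hM : Mat P i ∅ psi) (hu : psi y = u) (R : RefL e y p u p') :
    IsCore i ∅ psi (red y p e) := by
  classical
  have hpy : p ≠ y := by
    have := D.lp H
    have := D.ly
    rintro rfl
    omega
  intro x hx
  by_cases h1 : x = y
  · rw [h1]; exact red_y y p e
  by_cases h2 : x = p
  · rw [h2]; exact red_p hpy e
  by_cases h3 : x = u
  · have := red_le y p e u
    have := R.eu
    rw [h3]
    omega
  -- `x` is in the rest of `e`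
  have key : ∀ z, z ≠ y → z ≠ u → z ∈ Tch i e → z ∈ Tch i (red y p e) := by
    intro z hz hz' ht
    unfold Tch at ht ⊢
    rw [mem_filter] at ht ⊢
    refine ⟨mem_univ _, ?_⟩
    rcases ht.2 with ⟨g1, q, hq, hq'⟩ | ⟨g1, q, hq, hq'⟩
    · left
      refine ⟨g1, q, hq, ?_⟩
      have k1 : q ≠ p := by
        rintro rfl
        have : z ∈ uc q := mem_uc.2 hq
        rw [D.cp, mem_singleton] at this
        exact hz this
      have k2 : q ≠ y := by
        rintro rfl
        have := lev_uc H (mem_uc.2 hq)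
        have := D.ly
        omega
      unfold red
      rw [up2_ne k2 k1]
      exact hq'
    · right
      refine ⟨g1, q, hq, ?_⟩
      have k1 : q ≠ p := by
        rintro rfl
        have := lev_uc H (mem_uc.2 hq)
        have := D.lp H
        omega
      have k2 : q ≠ y := by
        rintro rfl
        have := lev_uc H (mem_uc.2 hq)
        have := D.ly
        omega
      unfold red
      rw [up2_ne k2 k1]
      exact hq'
  have hx' : x ∈ Rst i ∅ psi e := by
    rw [mem_Rst] at hx ⊢
    refine ⟨hx.1, hx.2.1, fun h => hx.2.2.1 (key x h1 h3 h), ?_⟩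
    rintro ⟨g1, g2⟩
    apply hx.2.2.2
    refine ⟨g1, key (psi x) ?_ ?_ g2⟩
    · intro h
      have k := hM.invol x g1 (by simp)
      rw [h, hu] at k
      exact h3 k.1.symm
    · intro h
      have k := hM.invol x g1 (by simp)
      rw [h, D.psi_u hM hu] at k
      exact h1 k.1.symm
  have := hc x hx'
  have := red_le y p e x
  omega

/-- all leftover configurations have energy at least six -/
lemma LO6.six (Q : PSO r i psi C) (h : LO6 uc dc (tL (P := P) i) (tU i) (lS P i) (uS P i) e) :
    6 ≤ ∑ x, e x := by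
  classical
  have H := Q.H
  have ne_of_lev : ∀ p q : P, lev p ≠ lev q → p ≠ q := fun p q h h' => h (by rw [h'])
  have hone : ∀ {s : Finset P}, On e s → ∀ x ∈ s, 1 ≤ e x := by
    intro s hs x hx
    rw [hs x, if_pos hx]
  have hs6 : ∀ {a b c d f g : P}, [a, b, c, d, f, g].Nodup → 1 ≤ e a → 1 ≤ e b → 1 ≤ e c →
      1 ≤ e d → 1 ≤ e f → 1 ≤ e g → 6 ≤ ∑ x, e x := by
    intro a b c d f g hn h1 h2 h3 h4 h5 h6
    have := list_sum_le (e := e) _ hn
    simp only [List.map_cons, List.map_nil, List.sum_cons, List.sum_nil] at this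
    omega
  have hdis : ∀ {s t : Finset P} {x y : P}, Disjoint s t → (∃ v, v ∈ s ∧ (x = y → v ∈ t)) →
      x ≠ y := by
    rintro s t x y hd ⟨v, hv, hv'⟩ hxy
    exact disjoint_left.1 hd hv (hv' hxy)
  rcases h with h | h | h | h | h | h | h | h | h | h | h
  · obtain ⟨w, x, x', s, w', y, y', s', T, T', hd, ho⟩ := h
    obtain ⟨l1, l2, l3, l4, -⟩ := td_low H T
    obtain ⟨m1, m2, m3, m4, -⟩ := td_low H T'
    have o := hone ho
    have n1 : x ≠ y := hdis hd ⟨s, by simp [T.sx], fun h => by subst h; simp [T.sx]⟩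
    have n2 : x ≠ y' := hdis hd ⟨s, by simp [T.sx], fun h => by subst h; simp [T.sx]⟩
    have n3 : x' ≠ y := hdis hd ⟨s, by simp [T.sx], fun h => by subst h; simp [T.sx']⟩
    have n4 : x' ≠ y' := hdis hd ⟨s, by simp [T.sx], fun h => by subst h; simp [T.sx']⟩
    have n5 : w ≠ w' := by
      rintro rfl
      have : y ∈ uc w := by rw [T'.cw]; simp
      rw [T.cw, mem_insert, mem_singleton] at this
      rcases this with h | h
      · exact n1 h.symm
      · exact n3 h.symm
    refine hs6 (a := w) (b := x) (c := x') (d := w') (f := y) (g := y') ?_ (o _ (by simp))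
      (o _ (by simp)) (o _ (by simp)) (o _ (by simp)) (o _ (by simp)) (o _ (by simp))
    simp only [List.nodup_cons, List.mem_cons, List.not_mem_nil, or_false, not_or,
      not_false_eq_true, List.nodup_nil, and_true]
    exact ⟨⟨ne_of_lev _ _ (by omega), ne_of_lev _ _ (by omega), n5, ne_of_lev _ _ (by omega),
      ne_of_lev _ _ (by omega)⟩, ⟨T.ne, ne_of_lev _ _ (by omega), n1, n2⟩,
      ⟨ne_of_lev _ _ (by omega), n3, n4⟩, ⟨ne_of_lev _ _ (by omega), ne_of_lev _ _ (by omega)⟩,
      T'.ne⟩
  · obtain ⟨w, x, x', s, w', y, y', s', T, T', hd, ho⟩ := h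
    obtain ⟨l1, l2, l3, l4, -⟩ := td_up H T
    obtain ⟨m1, m2, m3, m4, -⟩ := td_up H T'
    have o := hone ho
    have n1 : x ≠ y := hdis hd ⟨s, by simp [T.sx], fun h => by subst h; simp [T.sx]⟩
    have n2 : x ≠ y' := hdis hd ⟨s, by simp [T.sx], fun h => by subst h; simp [T.sx]⟩
    have n3 : x' ≠ y := hdis hd ⟨s, by simp [T.sx], fun h => by subst h; simp [T.sx']⟩
    have n4 : x' ≠ y' := hdis hd ⟨s, by simp [T.sx], fun h => by subst h; simp [T.sx']⟩
    have n5 : w ≠ w' := by
      rintro rfl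
      have : y ∈ dc w := by rw [T'.cw]; simp
      rw [T.cw, mem_insert, mem_singleton] at this
      rcases this with h | h
      · exact n1 h.symm
      · exact n3 h.symm
    refine hs6 (a := w) (b := x) (c := x') (d := w') (f := y) (g := y') ?_ (o _ (by simp))
      (o _ (by simp)) (o _ (by simp)) (o _ (by simp)) (o _ (by simp)) (o _ (by simp))
    simp only [List.nodup_cons, List.mem_cons, List.not_mem_nil, or_false, not_or,
      not_false_eq_true, List.nodup_nil, and_true]
    exact ⟨⟨ne_of_lev _ _ (by omega), ne_of_lev _ _ (by omega), n5, ne_of_lev _ _ (by omega),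
      ne_of_lev _ _ (by omega)⟩, ⟨T.ne, ne_of_lev _ _ (by omega), n1, n2⟩,
      ⟨ne_of_lev _ _ (by omega), n3, n4⟩, ⟨ne_of_lev _ _ (by omega), ne_of_lev _ _ (by omega)⟩,
      T'.ne⟩
  · obtain ⟨w, x, x', s, z, p, y, T, Z, hd, ho⟩ := h
    obtain ⟨l1, l2, l3, l4, -⟩ := td_low H T
    obtain ⟨-, m2, m3, -, -⟩ := pen_low H Z.pen
    have m1 := lev_uc H (x := z) (v := p) (by rw [Z.cz]; simp)
    have o := hone ho
    have n1 : x ≠ y := hdis hd ⟨s, by simp [T.sx], fun h => by subst h; exact T.sx⟩
    have n3 : x' ≠ y := hdis hd ⟨s, by simp [T.sx], fun h => by subst h; exact T.sx'⟩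
    have n5 : w ≠ p := by
      rintro rfl
      have := T.cw
      rw [Z.pen.cp] at this
      have h2 : y = x := by
        have : x ∈ ({y} : Finset P) := by rw [this]; simp
        rw [mem_singleton] at this
        exact this.symm
      exact n1 h2.symm
    refine hs6 (a := w) (b := x) (c := x') (d := z) (f := p) (g := y) ?_ (o _ (by simp))
      (o _ (by simp)) (o _ (by simp)) (o _ (by simp)) (o _ (by simp)) (o _ (by simp))
    simp only [List.nodup_cons, List.mem_cons, List.not_mem_nil, or_false, not_or,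
      not_false_eq_true, List.nodup_nil, and_true]
    exact ⟨⟨ne_of_lev _ _ (by omega), ne_of_lev _ _ (by omega), ne_of_lev _ _ (by omega), n5,
      ne_of_lev _ _ (by omega)⟩, ⟨T.ne, ne_of_lev _ _ (by omega), ne_of_lev _ _ (by omega), n1⟩,
      ⟨ne_of_lev _ _ (by omega), ne_of_lev _ _ (by omega), n3⟩,
      ⟨ne_of_lev _ _ (by omega), ne_of_lev _ _ (by omega)⟩, ne_of_lev _ _ (by omega)⟩
  · obtain ⟨w, x, x', s, z, p, y, T, Z, hd, ho⟩ := h
    obtain ⟨l1, l2, l3, l4, -⟩ := td_up H T
    obtain ⟨-, m2, m3, -, -⟩ := pen_up H Z.pen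
    have m1 := lev_dc H (x := z) (v := p) (by rw [Z.cz]; simp)
    have o := hone ho
    have n1 : x ≠ y := hdis hd ⟨s, by simp [T.sx], fun h => by subst h; exact T.sx⟩
    have n3 : x' ≠ y := hdis hd ⟨s, by simp [T.sx], fun h => by subst h; exact T.sx'⟩
    have n5 : w ≠ p := by
      rintro rfl
      have := T.cw
      rw [Z.pen.cp] at this
      have h2 : y = x := by
        have : x ∈ ({y} : Finset P) := by rw [this]; simp
        rw [mem_singleton] at this
        exact this.symm
      exact n1 h2.symm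
    refine hs6 (a := w) (b := x) (c := x') (d := z) (f := p) (g := y) ?_ (o _ (by simp))
      (o _ (by simp)) (o _ (by simp)) (o _ (by simp)) (o _ (by simp)) (o _ (by simp))
    simp only [List.nodup_cons, List.mem_cons, List.not_mem_nil, or_false, not_or,
      not_false_eq_true, List.nodup_nil, and_true]
    exact ⟨⟨ne_of_lev _ _ (by omega), ne_of_lev _ _ (by omega), ne_of_lev _ _ (by omega), n5,
      ne_of_lev _ _ (by omega)⟩, ⟨T.ne, ne_of_lev _ _ (by omega), ne_of_lev _ _ (by omega), n1⟩,
      ⟨ne_of_lev _ _ (by omega), ne_of_lev _ _ (by omega), n3⟩,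
      ⟨ne_of_lev _ _ (by omega), ne_of_lev _ _ (by omega)⟩, ne_of_lev _ _ (by omega)⟩
  · obtain ⟨w, x, x', s, w', y, y', s', T, T', hd, ho⟩ := h
    obtain ⟨l1, l2, l3, l4, -⟩ := td_low H T
    obtain ⟨m1, m2, m3, m4, -⟩ := td_up H T'
    have o := hone ho
    refine hs6 (a := w) (b := x) (c := x') (d := w') (f := y) (g := y') ?_ (o _ (by simp))
      (o _ (by simp)) (o _ (by simp)) (o _ (by simp)) (o _ (by simp)) (o _ (by simp))
    simp only [List.nodup_cons, List.mem_cons, List.not_mem_nil, or_false, not_or,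
      not_false_eq_true, List.nodup_nil, and_true]
    exact ⟨⟨ne_of_lev _ _ (by omega), ne_of_lev _ _ (by omega), ne_of_lev _ _ (by omega),
      ne_of_lev _ _ (by omega), ne_of_lev _ _ (by omega)⟩,
      ⟨T.ne, ne_of_lev _ _ (by omega), ne_of_lev _ _ (by omega), ne_of_lev _ _ (by omega)⟩,
      ⟨ne_of_lev _ _ (by omega), ne_of_lev _ _ (by omega), ne_of_lev _ _ (by omega)⟩,
      ⟨ne_of_lev _ _ (by omega), ne_of_lev _ _ (by omega)⟩, T'.ne⟩
  · obtain ⟨w, x, x', s, z, p, y, T, Z, hd, ho⟩ := h
    obtain ⟨l1, l2, l3, l4, -⟩ := td_low H T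
    obtain ⟨-, m2, m3, -, -⟩ := pen_up H Z.pen
    have m1 := lev_dc H (x := z) (v := p) (by rw [Z.cz]; simp)
    have o := hone ho
    refine hs6 (a := w) (b := x) (c := x') (d := z) (f := p) (g := y) ?_ (o _ (by simp))
      (o _ (by simp)) (o _ (by simp)) (o _ (by simp)) (o _ (by simp)) (o _ (by simp))
    simp only [List.nodup_cons, List.mem_cons, List.not_mem_nil, or_false, not_or,
      not_false_eq_true, List.nodup_nil, and_true]
    exact ⟨⟨ne_of_lev _ _ (by omega), ne_of_lev _ _ (by omega), ne_of_lev _ _ (by omega),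
      ne_of_lev _ _ (by omega), ne_of_lev _ _ (by omega)⟩,
      ⟨T.ne, ne_of_lev _ _ (by omega), ne_of_lev _ _ (by omega), ne_of_lev _ _ (by omega)⟩,
      ⟨ne_of_lev _ _ (by omega), ne_of_lev _ _ (by omega), ne_of_lev _ _ (by omega)⟩,
      ⟨ne_of_lev _ _ (by omega), ne_of_lev _ _ (by omega)⟩, ne_of_lev _ _ (by omega)⟩
  · obtain ⟨w, x, x', s, z, p, y, T, Z, hd, ho⟩ := h
    obtain ⟨l1, l2, l3, l4, -⟩ := td_up H T
    obtain ⟨-, m2, m3, -, -⟩ := pen_low H Z.pen
    have m1 := lev_uc H (x := z) (v := p) (by rw [Z.cz]; simp)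
    have o := hone ho
    refine hs6 (a := w) (b := x) (c := x') (d := z) (f := p) (g := y) ?_ (o _ (by simp))
      (o _ (by simp)) (o _ (by simp)) (o _ (by simp)) (o _ (by simp)) (o _ (by simp))
    simp only [List.nodup_cons, List.mem_cons, List.not_mem_nil, or_false, not_or,
      not_false_eq_true, List.nodup_nil, and_true]
    exact ⟨⟨ne_of_lev _ _ (by omega), ne_of_lev _ _ (by omega), ne_of_lev _ _ (by omega),
      ne_of_lev _ _ (by omega), ne_of_lev _ _ (by omega)⟩,
      ⟨T.ne, ne_of_lev _ _ (by omega), ne_of_lev _ _ (by omega), ne_of_lev _ _ (by omega)⟩,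
      ⟨ne_of_lev _ _ (by omega), ne_of_lev _ _ (by omega), ne_of_lev _ _ (by omega)⟩,
      ⟨ne_of_lev _ _ (by omega), ne_of_lev _ _ (by omega)⟩, ne_of_lev _ _ (by omega)⟩
  · obtain ⟨z, w, x, x', s, T, hz, hc, he⟩ := h
    obtain ⟨l1, l2, l3, l4, -⟩ := td_low H T
    have m1 := lev_uc H (x := z) (v := w) (by rw [hc]; simp)
    have hn : [z, w, x, x'].Nodup := by
      simp only [List.nodup_cons, List.mem_cons, List.not_mem_nil, or_false, not_or,
        not_false_eq_true, List.nodup_nil, and_true]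
      exact ⟨⟨ne_of_lev _ _ (by omega), ne_of_lev _ _ (by omega), ne_of_lev _ _ (by omega)⟩,
        ⟨ne_of_lev _ _ (by omega), ne_of_lev _ _ (by omega)⟩, T.ne⟩
    have := list_sum_le (e := e) _ hn
    have e1 : e z = 2 := by rw [he]; simp
    have e2 : e w = 2 := by rw [he]; simp
    have e3 : e x = 1 := by
      rw [he, if_neg, if_pos (Or.inl rfl)]
      rintro (h | h)
      · exact ne_of_lev _ _ (by omega) h
      · exact ne_of_lev _ _ (by omega) h
    have e4 : e x' = 1 := by
      rw [he, if_neg, if_pos (Or.inr rfl)]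
      rintro (h | h)
      · exact ne_of_lev _ _ (by omega) h
      · exact ne_of_lev _ _ (by omega) h
    simp only [List.map_cons, List.map_nil, List.sum_cons, List.sum_nil] at this
    omega
  · obtain ⟨z, w, x, x', s, T, hz, hc, he⟩ := h
    obtain ⟨l1, l2, l3, l4, -⟩ := td_up H T
    have m1 := lev_dc H (x := z) (v := w) (by rw [hc]; simp)
    have hn : [z, w, x, x'].Nodup := by
      simp only [List.nodup_cons, List.mem_cons, List.not_mem_nil, or_false, not_or,
        not_false_eq_true, List.nodup_nil, and_true]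
      exact ⟨⟨ne_of_lev _ _ (by omega), ne_of_lev _ _ (by omega), ne_of_lev _ _ (by omega)⟩,
        ⟨ne_of_lev _ _ (by omega), ne_of_lev _ _ (by omega)⟩, T.ne⟩
    have := list_sum_le (e := e) _ hn
    have e1 : e z = 2 := by rw [he]; simp
    have e2 : e w = 2 := by rw [he]; simp
    have e3 : e x = 1 := by
      rw [he, if_neg, if_pos (Or.inl rfl)]
      rintro (h | h)
      · exact ne_of_lev _ _ (by omega) h
      · exact ne_of_lev _ _ (by omega) h
    have e4 : e x' = 1 := by
      rw [he, if_neg, if_pos (Or.inr rfl)]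
      rintro (h | h)
      · exact ne_of_lev _ _ (by omega) h
      · exact ne_of_lev _ _ (by omega) h
    simp only [List.map_cons, List.map_nil, List.sum_cons, List.sum_nil] at this
    omega
  · obtain ⟨z, p, y, w, x, x', s, hp, T, hz, g1, g2, g3, hc, hd, ho⟩ := h
    obtain ⟨l1, l2, l3, l4, -⟩ := td_low H T
    obtain ⟨-, m2, m3, -, -⟩ := pen_low H hp
    have m1 := lev_uc H (x := z) (v := p) (by rw [hc]; simp)
    have o := hone ho
    have n1 : x ≠ y := hdis hd.symm ⟨s, by simp [T.sx], fun h => by subst h; exact T.sx⟩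
    have n3 : x' ≠ y := hdis hd.symm ⟨s, by simp [T.sx], fun h => by subst h; exact T.sx'⟩
    refine hs6 (a := w) (b := x) (c := x') (d := z) (f := p) (g := y) ?_ (o _ (by simp))
      (o _ (by simp)) (o _ (by simp)) (o _ (by simp)) (o _ (by simp)) (o _ (by simp))
    simp only [List.nodup_cons, List.mem_cons, List.not_mem_nil, or_false, not_or,
      not_false_eq_true, List.nodup_nil, and_true]
    exact ⟨⟨ne_of_lev _ _ (by omega), ne_of_lev _ _ (by omega), ne_of_lev _ _ (by omega),
      Ne.symm g3, ne_of_lev _ _ (by omega)⟩,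
      ⟨T.ne, ne_of_lev _ _ (by omega), ne_of_lev _ _ (by omega), n1⟩,
      ⟨ne_of_lev _ _ (by omega), ne_of_lev _ _ (by omega), n3⟩,
      ⟨ne_of_lev _ _ (by omega), ne_of_lev _ _ (by omega)⟩, ne_of_lev _ _ (by omega)⟩
  · obtain ⟨z, p, y, w, x, x', s, hp, T, hz, g1, g2, g3, hc, hd, ho⟩ := h
    obtain ⟨l1, l2, l3, l4, -⟩ := td_up H T
    obtain ⟨-, m2, m3, -, -⟩ := pen_up H hp
    have m1 := lev_dc H (x := z) (v := p) (by rw [hc]; simp)
    have o := hone ho
    have n1 : x ≠ y := hdis hd.symm ⟨s, by simp [T.sx], fun h => by subst h; exact T.sx⟩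
    have n3 : x' ≠ y := hdis hd.symm ⟨s, by simp [T.sx], fun h => by subst h; exact T.sx'⟩
    refine hs6 (a := w) (b := x) (c := x') (d := z) (f := p) (g := y) ?_ (o _ (by simp))
      (o _ (by simp)) (o _ (by simp)) (o _ (by simp)) (o _ (by simp)) (o _ (by simp))
    simp only [List.nodup_cons, List.mem_cons, List.not_mem_nil, or_false, not_or,
      not_false_eq_true, List.nodup_nil, and_true]
    exact ⟨⟨ne_of_lev _ _ (by omega), ne_of_lev _ _ (by omega), ne_of_lev _ _ (by omega),
      Ne.symm g3, ne_of_lev _ _ (by omega)⟩,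
      ⟨T.ne, ne_of_lev _ _ (by omega), ne_of_lev _ _ (by omega), n1⟩,
      ⟨ne_of_lev _ _ (by omega), ne_of_lev _ _ (by omega), n3⟩,
      ⟨ne_of_lev _ _ (by omega), ne_of_lev _ _ (by omega)⟩, ne_of_lev _ _ (by omega)⟩

end Pool.Agent.GaussPoset.Win.SO
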