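import Pool.Agent.W_448so_h64.SoJ

/-!
SECOND ORDER THEOREM (MP_448cb3_co, proofs row 476): (C4), the classification of the reduced configuration.
-/

namespace Pool.Agent.GaussPoset.Win.SO

set_option linter.unusedSectionVars false

open Finset
open Pool.Agent.GaussPoset.Win.I2 (lS uS mem_lS mem_uS)
open Pool.Agent.GaussPoset.Win.So (TogL TogU RefL RefU RefD red up2 up2_y up2_p up2_ne)

universe u

variable {P : Type u} [Fintype P] [PartialOrder P] [DecidableEq P] {r i : ℕ} {psi : P → P}
  {e : P → ℕ} {C : Finset P}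

/-- the pendants of reflection data -/
lemma refD_PD (H : Gr P r) {y p u p' : P} (D : RefD r i y p u p') : p ∈ PD P i := by
  have h1 := D.lp H
  have h2 := D.cp
  have h3 : p ⋖ y := D.py
  exact mem_PD.2 ⟨h1, by rw [h2]; simp, y, h3, D.two⟩

lemma refD_PU (H : Gr P r) {y p u p' : P} (D : RefD r i y p u p') : p' ∈ PU P i := by
  have h1 := D.lp' H
  have h3 : u ⋖ p' := D.up
  refine mem_PU.2 ⟨by omega, by rw [D.dp]; simp, u, h3, ?_⟩
  rw [D.yu]
  exact D.two

/-- (C4) THE REDUCED CONFIGURATION OF A REFLECTION has at most one deficit, or two and exactly one toggle, which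
does not touch the reflected pair -/
theorem PS6.red (Q : PS6 r i psi C) (hs : Spt C e) (hc : IsCore i ∅ psi e) (hE : ∑ x, e x ≤ 6)
    {y p u p' : P} (hp : p ∈ C) (hp' : p' ∈ C) (hu : psi y = u) (D : RefD r i y p u p')
    (R : RefL e y p u p') :
    Cheap 1 i (So.red y p e) ∨ (Cheap 2 i (So.red y p e) ∧
      ((∃ w x x' a s b, TogL i (So.red y p e) w x x' a s b ∧ a ≠ b ∧ y ≠ x ∧ y ≠ x') ∨
        ∃ w x x' a s b, TogU i (So.red y p e) w x x' a s b ∧ a ≠ b ∧ u ≠ x ∧ u ≠ x')) := by
  have hpy : p ≠ y := by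
    have := D.lp Q.H
    have := D.ly
    rintro rfl
    omega
  have hsum := red_sum hpy e
  have hy1 := R.hy
  have hp1 := R.hp
  have hs0 := red_spt hs y p
  have hc0 := red_core Q.H hc D Q.hM hu R
  have hu0 : So.red y p e u = 0 := by
    have := red_le y p e u
    have := R.eu
    omega
  rcases Q.cls hs0 hc0 (by omega) with h | ⟨h, h1⟩ | h | h
  · exact Or.inl h
  · right
    refine ⟨h, ?_⟩
    rcases h1 with ⟨w, x, x', a, s, b, T, hab⟩ | ⟨w, x, x', a, s, b, T, hab⟩
    · left
      refine ⟨w, x, x', a, s, b, T, hab, ?_, ?_⟩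
      · rintro rfl
        have := T.hx
        rw [red_y] at this
        omega
      · rintro rfl
        have := T.hx'
        rw [red_y] at this
        omega
    · right
      refine ⟨w, x, x', a, s, b, T, hab, ?_, ?_⟩
      · rintro rfl
        have := T.hx
        omega
      · rintro rfl
        have := T.hx'
        omega
  · exfalso
    obtain ⟨y1, p1, u1, p1', g1, g2, g3, D1, R1⟩ := h
    rcases R1 with R1 | R1
    · have h2 := Q.pd p1 g1 p hp (refD_PD Q.H D1) (refD_PD Q.H D)
      have h3 := R1.hp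
      rw [h2, red_p hpy] at h3
      omega
    · have h2 := Q.pu p1' g2 p' hp' (refD_PU Q.H D1) (refD_PU Q.H D)
      have h3 := R1.hp
      have h4 := R.ab p' D.up
      have h5 := red_le y p e p'
      rw [h2] at h3
      omega
  · exfalso
    have := LO6.six Q.toPSO h.2.2.2
    omega

end Pool.Agent.GaussPoset.Win.SO
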