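import Pool.Agent.W_448so_h64.SoI
import Pool.Agent.W_448so_h64.SoL
import Pool.Agent.W_448so_h39.FE

/-!
SECOND ORDER THEOREM (MP_448cb3_co, proofs row 476): cones of charged elements.
-/

namespace Pool.Agent.GaussPoset.Win.SO

set_option linter.unusedSectionVars false

open Finset
open Pool.Agent.GaussPoset.Win.I2 (lS uS mem_lS mem_uS)
open Pool.Agent.GaussPoset.Win.So (TogL TogU RefL RefU RefD)

universe u

variable {P : Type u} [Fintype P] [PartialOrder P] [DecidableEq P] {r i : ℕ} {psi : P → P}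
  {e : P → ℕ} {C : Finset P}

open Classical in
/-- the elements between `z` and the window (`z` included) -/
noncomputable def con (i : ℕ) (z : P) : Finset P :=
  univ.filter (fun y => (i < lev y ∧ z ≤ y) ∨ (lev y < i ∧ y ≤ z))

lemma mem_con {z y : P} : y ∈ con i z ↔ (i < lev y ∧ z ≤ y) ∨ (lev y < i ∧ y ≤ z) := by
  classical
  unfold con
  simp only [mem_filter, mem_univ, true_and]

lemma self_con {z : P} (h : lev z ≠ i) : z ∈ con i z := by
  rw [mem_con]
  rcases Nat.lt_or_gt_of_ne h with h | h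
  · exact Or.inr ⟨h, le_rfl⟩
  · exact Or.inl ⟨h, le_rfl⟩

/-- elements of a cone are on the side of `z` -/
lemma con_low (H : Gr P r) {z y : P} (hz : i < lev z) (h : y ∈ con i z) : i < lev y ∧ z ≤ y := by
  rw [mem_con] at h
  rcases h with h | h
  · exact h
  · have := lev_anti h.2
    omega

lemma con_upp (H : Gr P r) {z y : P} (hz : lev z < i) (h : y ∈ con i z) : lev y < i ∧ y ≤ z := by
  rw [mem_con] at h
  rcases h with h | h
  · have := lev_anti h.2
    omega
  · exact h

/-- a cone is closed towards the window -/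
lemma con_cls (H : Gr P r) {z : P} (hz : lev z ≠ i) : Cls i (con i z) where
  ns := by
    intro x hx
    rw [mem_con] at hx
    omega
  lo := by
    intro x hx hl y hy
    have h1 := lev_uc H (mem_uc.2 hy)
    rw [mem_con] at hx ⊢
    left
    rcases hx with hx | hx
    · exact ⟨by omega, hx.2.trans hy.le⟩
    · omega
  up := by
    intro x hx hl y hy
    have h1 := lev_dc H (mem_dc.2 hy)
    rw [mem_con] at hx ⊢
    right
    rcases hx with hx | hx
    · omega
    · exact ⟨by omega, hy.le.trans hx.2⟩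

/-- a part is closed towards the window -/
lemma con_sub (H : Gr P r) (hC : Part (i + 1) C) {z : P} (hz : z ∈ C) (hl : lev z ≠ i) :
    con i z ⊆ C := by
  intro y hy
  rcases Nat.lt_or_gt_of_ne hl with h | h
  · have h1 := con_upp H h hy
    -- downwards closure on the levels `< i + 1`
    have key : ∀ n, ∀ y, y ≤ z → lev y = lev z + n → lev y < i → y ∈ C := by
      intro n
      induction n with
      | zero =>
        intro y hy hl' hy'
        have : y = z := by
          by_contra hne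
          have := lev_strict H (lt_of_le_of_ne hy hne)
          omega
        rw [this]; exact hz
      | succ n ih =>
        intro y hy hl' hy'
        have hlt : y < z := lt_of_le_of_ne hy (by rintro rfl; omega)
        obtain ⟨w, hw1, hw2⟩ := exists_covBy_le_of_lt hlt
        have h3 := lev_cov H hw1
        exact hC.dn (ih w hw2 (by omega) (by omega)) (by omega) hw1
    have h2 := lev_anti h1.2
    exact key (lev y - lev z) y h1.2 (by omega) h1.1
  · have h1 := con_low H h hy
    exact part_up hC hz h1.2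

/-- the sites of an element of a cone -/
lemma sit_sub (H : Gr P r) {z y : P} (hz : lev z ≠ i) (h : y ∈ con i z) :
    sit i y ⊆ sit i z := by
  rcases Nat.lt_or_gt_of_ne hz with h1 | h1
  · obtain ⟨h2, h3⟩ := con_upp H h1 h
    rw [sit_upp H h1.le, sit_upp H h2.le]
    intro v hv
    rw [mem_stD] at hv ⊢
    exact ⟨hv.1, lt_of_lt_of_le hv.2 h3⟩
  · obtain ⟨h2, h3⟩ := con_low H h1 h
    rw [sit_low H h1.le, sit_low H h2.le]
    intro v hv
    rw [mem_sts] at hv ⊢
    exact ⟨hv.1, lt_of_le_of_lt h3 hv.2⟩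

/-- every element which is no site has a site -/
lemma sit_ne (H : Gr P r) (hir : i ≤ r) {y : P} (hy : lev y ≠ i) : (sit i y).Nonempty := by
  rcases Nat.lt_or_gt_of_ne hy with h1 | h1
  · rw [sit_upp H h1.le]
    obtain ⟨v, hv, hv2⟩ := H.exists_below (x := y) (j := i) h1.le hir
    refine ⟨v, mem_stD.2 ⟨hv2, lt_of_le_of_ne hv ?_⟩⟩
    rintro rfl
    omega
  · rw [sit_low H h1.le]
    obtain ⟨v, hv, hv2⟩ := exists_above' (x := y) (j := i) h1.le
    refine ⟨v, mem_sts.2 ⟨hv2, lt_of_le_of_ne hv ?_⟩⟩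
    rintro rfl
    omega

/-- cones over disjoint sites are disjoint -/
lemma con_disj (H : Gr P r) (hir : i ≤ r) {z z' : P} (hz : lev z ≠ i) (hz' : lev z' ≠ i)
    (hd : Disjoint (sit i z) (sit i z')) : Disjoint (con i z) (con i z') := by
  rw [disjoint_left]
  intro y hy hy'
  have hl : lev y ≠ i := (con_cls H hz).ns y hy
  obtain ⟨v, hv⟩ := sit_ne H hir hl
  exact disjoint_left.1 hd (sit_sub H hz hy hv) (sit_sub H hz' hy' hv)

open Classical in
/-- the elements of `s` without neighbour away from the window in `s` -/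
noncomputable def Mn (i : ℕ) (s : Finset P) : Finset P :=
  s.filter (fun y => ∀ x ∈ s, ¬ ((i < lev y ∧ x ⋖ y) ∨ (lev y < i ∧ y ⋖ x)))

lemma mem_Mn {s : Finset P} {y : P} :
    y ∈ Mn i s ↔ y ∈ s ∧ ∀ x ∈ s, ¬ ((i < lev y ∧ x ⋖ y) ∨ (lev y < i ∧ y ⋖ x)) := by
  classical
  unfold Mn
  simp only [mem_filter]

/-- an element of a cone, not the apex, has a neighbour away from the window in the cone -/
lemma con_step (H : Gr P r) {z y : P} (hz : lev z ≠ i) (hy : y ∈ con i z) (hne : y ≠ z) :
    ∃ x ∈ con i z, (i < lev y ∧ x ⋖ y) ∨ (lev y < i ∧ y ⋖ x) := by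
  rcases Nat.lt_or_gt_of_ne hz with h1 | h1
  · obtain ⟨h2, h3⟩ := con_upp H h1 hy
    obtain ⟨w, hw1, hw2⟩ := exists_covBy_le_of_lt (lt_of_le_of_ne h3 hne)
    have h4 := lev_cov H hw1
    exact ⟨w, mem_con.2 (Or.inr ⟨by omega, hw2⟩), Or.inr ⟨h2, hw1⟩⟩
  · obtain ⟨h2, h3⟩ := con_low H h1 hy
    obtain ⟨w, hw1, hw2⟩ := exists_le_covBy_of_lt (lt_of_le_of_ne h3 (Ne.symm hne))
    have h4 := lev_cov H hw2
    exact ⟨w, mem_con.2 (Or.inl ⟨by omega, hw1⟩), Or.inl ⟨h2, hw2⟩⟩

/-- the apex of a cone is minimal in it -/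
lemma con_apex (H : Gr P r) {z x : P} (hz : lev z ≠ i) (hx : x ∈ con i z)
    (h : (i < lev z ∧ x ⋖ z) ∨ (lev z < i ∧ z ⋖ x)) : False := by
  rcases h with ⟨h1, h2⟩ | ⟨h1, h2⟩
  · have h3 := con_low H h1 hx
    exact absurd (lt_of_le_of_lt h3.2 h2.lt) (lt_irrefl z)
  · have h3 := con_upp H h1 hx
    exact absurd (lt_of_lt_of_le h2.lt h3.2) (lt_irrefl z)

/-- THE MINIMAL ELEMENTS of a union of cones over pairwise disjoint sites are the apices -/
theorem Mn_biUnion (H : Gr P r) (hir : i ≤ r) {T : Finset P} (hT : ∀ z ∈ T, lev z ≠ i)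
    (hd : ∀ z ∈ T, ∀ z' ∈ T, z ≠ z' → Disjoint (sit i z) (sit i z')) :
    Mn i (T.biUnion (con i)) = T := by
  ext y
  rw [mem_Mn]
  constructor
  · rintro ⟨h1, h2⟩
    rw [mem_biUnion] at h1
    obtain ⟨z, hz, hy⟩ := h1
    by_cases hne : y = z
    · rw [hne]; exact hz
    · exfalso
      obtain ⟨x, hx, hx2⟩ := con_step H (hT z hz) hy hne
      exact h2 x (mem_biUnion.2 ⟨z, hz, hx⟩) hx2
  · intro hy
    refine ⟨mem_biUnion.2 ⟨y, hy, self_con (hT y hy)⟩, ?_⟩
    intro x hx hx2
    rw [mem_biUnion] at hx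
    obtain ⟨z, hz, hxz⟩ := hx
    by_cases hne : y = z
    · subst hne
      exact con_apex H (hT y hy) hxz hx2
    · -- `y` is in the cone of `z`
      have hyz : y ∈ con i z := by
        rw [mem_con] at hxz ⊢
        rcases hx2 with ⟨g1, g2⟩ | ⟨g1, g2⟩
        · have h4 := lev_cov H g2
          rcases hxz with hxz | hxz
          · exact Or.inl ⟨g1, hxz.2.trans g2.le⟩
          · omega
        · have h4 := lev_cov H g2
          rcases hxz with hxz | hxz
          · omega
          · exact Or.inr ⟨g1, g2.le.trans hxz.2⟩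
      exact disjoint_left.1 (con_disj H hir (hT y hy) (hT z hz) (hd y hy z hz hne))
        (self_con (hT y hy)) hyz

end Pool.Agent.GaussPoset.Win.SO
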