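import Pool.Agent.W_448so_h64.SoM

/-!
SECOND ORDER THEOREM (MP_448cb3_co, proofs row 476): numbers of the cones of charged elements.
-/

namespace Pool.Agent.GaussPoset.Win.SO

set_option linter.unusedSectionVars false

open Finset
open Pool.Agent.GaussPoset.Win.I2 (lS uS mem_lS mem_uS)

universe u

variable {P : Type u} [Fintype P] [PartialOrder P] [DecidableEq P] {r i : ℕ} {psi : P → P}
  {e : P → ℕ} {C : Finset P}

lemma mem_BL {s : Finset P} {v : P} : v ∈ BL i s ↔ lev v = i ∧ ∃ x ∈ s, x ⋖ v := by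
  classical
  unfold BL
  simp only [mem_filter, mem_lv]

lemma mem_BU {s : Finset P} {v : P} : v ∈ BU i s ↔ lev v = i ∧ ∃ x ∈ s, v ⋖ x := by
  classical
  unfold BU
  simp only [mem_filter, mem_lv]

lemma mem_nL {s : Finset P} {x : P} : x ∈ nL i s ↔ x ∈ s ∧ lev x = i + 1 := by
  unfold nL; rw [mem_filter]

lemma mem_nU {s : Finset P} {x : P} : x ∈ nU i s ↔ x ∈ s ∧ lev x + 1 = i := by
  unfold nU; rw [mem_filter]

lemma BL_union (s s' : Finset P) : BL i (s ∪ s') = BL i s ∪ BL i s' := by
  ext v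
  rw [mem_union, mem_BL, mem_BL, mem_BL]
  constructor
  · rintro ⟨h, x, hx, hv⟩
    rcases mem_union.1 hx with hx | hx
    · exact Or.inl ⟨h, x, hx, hv⟩
    · exact Or.inr ⟨h, x, hx, hv⟩
  · rintro (⟨h, x, hx, hv⟩ | ⟨h, x, hx, hv⟩)
    · exact ⟨h, x, mem_union_left _ hx, hv⟩
    · exact ⟨h, x, mem_union_right _ hx, hv⟩

lemma BU_union (s s' : Finset P) : BU i (s ∪ s') = BU i s ∪ BU i s' := by
  ext v
  rw [mem_union, mem_BU, mem_BU, mem_BU]
  constructor
  · rintro ⟨h, x, hx, hv⟩
    rcases mem_union.1 hx with hx | hx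
    · exact Or.inl ⟨h, x, hx, hv⟩
    · exact Or.inr ⟨h, x, hx, hv⟩
  · rintro (⟨h, x, hx, hv⟩ | ⟨h, x, hx, hv⟩)
    · exact ⟨h, x, mem_union_left _ hx, hv⟩
    · exact ⟨h, x, mem_union_right _ hx, hv⟩

lemma nL_union (s s' : Finset P) : nL i (s ∪ s') = nL i s ∪ nL i s' := by
  unfold nL; rw [filter_union]

lemma nU_union (s s' : Finset P) : nU i (s ∪ s') = nU i s ∪ nU i s' := by
  unfold nU; rw [filter_union]

lemma BL_con_low (H : Gr P r) {z : P} (hz : i < lev z) : BL i (con i z) = sts i z := by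
  ext v
  rw [mem_BL, mem_sts]
  constructor
  · rintro ⟨h, x, hx, hv⟩
    exact ⟨h, lt_of_le_of_lt (con_low H hz hx).2 hv.lt⟩
  · rintro ⟨h, hv⟩
    obtain ⟨x, hx1, hx2⟩ := exists_le_covBy_of_lt hv
    have := lev_cov H hx2
    exact ⟨h, x, mem_con.2 (Or.inl ⟨by omega, hx1⟩), hx2⟩

lemma BU_con_low (H : Gr P r) {z : P} (hz : i < lev z) : BU i (con i z) = ∅ := by
  rw [eq_empty_iff_forall_notMem]
  intro v hv
  rw [mem_BU] at hv
  obtain ⟨h, x, hx, hv⟩ := hv
  have := con_low H hz hx
  have := lev_cov H hv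
  omega

lemma nU_con_low (H : Gr P r) {z : P} (hz : i < lev z) : nU i (con i z) = ∅ := by
  rw [eq_empty_iff_forall_notMem]
  intro v hv
  rw [mem_nU] at hv
  have := con_low H hz hv.1
  omega

lemma BU_con_upp (H : Gr P r) {z : P} (hz : lev z < i) : BU i (con i z) = stD i z := by
  ext v
  rw [mem_BU, mem_stD]
  constructor
  · rintro ⟨h, x, hx, hv⟩
    exact ⟨h, lt_of_lt_of_le hv.lt (con_upp H hz hx).2⟩
  · rintro ⟨h, hv⟩
    obtain ⟨x, hx1, hx2⟩ := exists_covBy_le_of_lt hv
    have := lev_cov H hx1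
    exact ⟨h, x, mem_con.2 (Or.inr ⟨by omega, hx2⟩), hx1⟩

lemma BL_con_upp (H : Gr P r) {z : P} (hz : lev z < i) : BL i (con i z) = ∅ := by
  rw [eq_empty_iff_forall_notMem]
  intro v hv
  rw [mem_BL] at hv
  obtain ⟨h, x, hx, hv⟩ := hv
  have := con_upp H hz hx
  have := lev_cov H hv
  omega

lemma nL_con_upp (H : Gr P r) {z : P} (hz : lev z < i) : nL i (con i z) = ∅ := by
  rw [eq_empty_iff_forall_notMem]
  intro v hv
  rw [mem_nL] at hv
  have := con_upp H hz hv.1
  omega

/-- the sites of a cone -/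
lemma sit_con (H : Gr P r) {z : P} (hz : lev z ≠ i) :
    BL i (con i z) ∪ BU i (con i z) = sit i z := by
  rcases Nat.lt_or_gt_of_ne hz with h | h
  · rw [BL_con_upp H h, BU_con_upp H h, sit_upp H h.le, empty_union]
  · rw [BL_con_low H h, BU_con_low H h, sit_low H h.le, union_empty]

lemma con_site (H : Gr P r) {z : P} (hz : lev z = i) : con i z = ∅ := by
  rw [eq_empty_iff_forall_notMem]
  intro y hy
  rw [mem_con] at hy
  rcases hy with ⟨h1, h2⟩ | ⟨h1, h2⟩
  · have := lev_anti h2
    omega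
  · have := lev_anti h2
    omega

/-- recursion for cones below the window -/
lemma con_rec_low (H : Gr P r) {z : P} (hz : i < lev z) :
    con i z = insert z ((uc z).biUnion (con i)) := by
  ext y
  rw [mem_insert, mem_biUnion]
  constructor
  · intro hy
    obtain ⟨h1, h2⟩ := con_low H hz hy
    by_cases h : y = z
    · exact Or.inl h
    · obtain ⟨w, hw1, hw2⟩ := exists_covBy_le_of_lt (lt_of_le_of_ne h2 (Ne.symm h))
      exact Or.inr ⟨w, mem_uc.2 hw1, mem_con.2 (Or.inl ⟨h1, hw2⟩)⟩
  · rintro (rfl | ⟨w, hw, hy⟩)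
    · exact self_con (by omega)
    · have h1 := lev_uc H hw
      rw [mem_uc] at hw
      by_cases h2 : lev w = i
      · rw [con_site H h2] at hy
        exact absurd hy (notMem_empty _)
      · obtain ⟨h3, h4⟩ := con_low H (by omega) hy
        exact mem_con.2 (Or.inl ⟨h3, hw.le.trans h4⟩)

/-- recursion for cones above the window -/
lemma con_rec_upp (H : Gr P r) {z : P} (hz : lev z < i) :
    con i z = insert z ((dc z).biUnion (con i)) := by
  ext y
  rw [mem_insert, mem_biUnion]
  constructor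
  · intro hy
    obtain ⟨h1, h2⟩ := con_upp H hz hy
    by_cases h : y = z
    · exact Or.inl h
    · obtain ⟨w, hw1, hw2⟩ := exists_le_covBy_of_lt (lt_of_le_of_ne h2 h)
      exact Or.inr ⟨w, mem_dc.2 hw2, mem_con.2 (Or.inr ⟨h1, hw1⟩)⟩
  · rintro (rfl | ⟨w, hw, hy⟩)
    · exact self_con (by omega)
    · have h1 := lev_dc H hw
      rw [mem_dc] at hw
      by_cases h2 : lev w = i
      · rw [con_site H h2] at hy
        exact absurd hy (notMem_empty _)
      · obtain ⟨h3, h4⟩ := con_upp H (by omega) hy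
        exact mem_con.2 (Or.inr ⟨h3, h4.trans hw.le⟩)

lemma con_one_low (H : Gr P r) {z : P} (hz : lev z = i + 1) : con i z = {z} := by
  rw [con_rec_low H (by omega)]
  have : (uc z).biUnion (con i) = ∅ := by
    rw [eq_empty_iff_forall_notMem]
    intro y hy
    rw [mem_biUnion] at hy
    obtain ⟨w, hw, hy⟩ := hy
    have := lev_uc H hw
    rw [con_site H (by omega)] at hy
    exact absurd hy (notMem_empty _)
  rw [this]
  rfl

lemma con_one_upp (H : Gr P r) {z : P} (hz : lev z + 1 = i) : con i z = {z} := by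
  rw [con_rec_upp H (by omega)]
  have : (dc z).biUnion (con i) = ∅ := by
    rw [eq_empty_iff_forall_notMem]
    intro y hy
    rw [mem_biUnion] at hy
    obtain ⟨w, hw, hy⟩ := hy
    have := lev_dc H hw
    rw [con_site H (by omega)] at hy
    exact absurd hy (notMem_empty _)
  rw [this]
  rfl

lemma con_two_low (H : Gr P r) {z : P} (hz : lev z = i + 2) : con i z = insert z (uc z) := by
  rw [con_rec_low H (by omega)]
  congr 1
  ext y
  rw [mem_biUnion]
  constructor
  · rintro ⟨w, hw, hy⟩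
    have := lev_uc H hw
    rw [con_one_low H (by omega), mem_singleton] at hy
    rw [hy]; exact hw
  · intro hy
    have := lev_uc H hy
    exact ⟨y, hy, by rw [con_one_low H (by omega)]; simp⟩

lemma con_two_upp (H : Gr P r) {z : P} (hz : lev z + 2 = i) : con i z = insert z (dc z) := by
  rw [con_rec_upp H (by omega)]
  congr 1
  ext y
  rw [mem_biUnion]
  constructor
  · rintro ⟨w, hw, hy⟩
    have := lev_dc H hw
    rw [con_one_upp H (by omega), mem_singleton] at hy
    rw [hy]; exact hw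
  · intro hy
    have := lev_dc H hy
    exact ⟨y, hy, by rw [con_one_upp H (by omega)]; simp⟩

/-- the numbers of a charged element -/
structure Num (i : ℕ) (C : Finset P) (z : P) : Prop where
  ns : lev z ≠ i
  mC : z ∈ C
  num : (BL i (con i z)).card + (BU i (con i z)).card =
    (nL i (con i z)).card + (nU i (con i z)).card + 1
  sgn : chg i C z = (-1) ^ ((BL i (con i z)).card + (nU i (con i z)).card)
  three : (con i z).card = 3

/-- levels of the four types -/
lemma Chs_cases (H : Gr P r) {z : P} (hz : z ∈ Chs i C) :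
    (z ∈ ZL i C ∧ lev z = i + 2) ∨ (z ∈ ZU i C ∧ lev z + 2 = i) ∨
      (z ∈ FL i C ∧ lev z = i + 3) ∨ (z ∈ FU' i C ∧ lev z + 3 = i) := by
  unfold Chs at hz
  rw [mem_union, mem_union, mem_union] at hz
  rcases hz with ((h | h) | h) | h
  · exact Or.inl ⟨h, (mem_ZL.1 h).2.1⟩
  · exact Or.inr (Or.inl ⟨h, (mem_ZU.1 h).2.1⟩)
  · exact Or.inr (Or.inr (Or.inl ⟨h, lev_FL H h⟩))
  · exact Or.inr (Or.inr (Or.inr ⟨h, lev_FU H h⟩))

lemma chg_ZL (H : Gr P r) {z : P} (hz : z ∈ ZL i C) : chg i C z = -1 := by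
  unfold chg
  rw [if_neg]
  have h1 := (mem_ZL.1 hz).2.1
  rw [mem_union]
  rintro (h | h)
  · have := (mem_ZU.1 h).2.1
    omega
  · have := lev_FL H h
    omega

lemma chg_FU (H : Gr P r) {z : P} (hz : z ∈ FU' i C) : chg i C z = -1 := by
  unfold chg
  rw [if_neg]
  have h1 := lev_FU H hz
  rw [mem_union]
  rintro (h | h)
  · have := (mem_ZU.1 h).2.1
    omega
  · have := lev_FL H h
    omega

lemma chg_ZU {z : P} (hz : z ∈ ZU i C) : chg i C z = 1 := by
  unfold chg
  rw [if_pos (mem_union_left _ hz)]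

lemma chg_FL {z : P} (hz : z ∈ FL i C) : chg i C z = 1 := by
  unfold chg
  rw [if_pos (mem_union_right _ hz)]

lemma num_ZL (H : Gr P r) {z : P} (hz : z ∈ ZL i C) : Num i C z := by
  obtain ⟨h1, h2, h3⟩ := mem_ZL.1 hz
  have hu := card_uc_of_up H h2 h3
  have e1 : (BL i (con i z)).card = 3 := by rw [BL_con_low H (by omega), card_sts, h3]
  have e2 : nL i (con i z) = uc z := by
    rw [con_two_low H h2]
    ext y
    rw [mem_nL, mem_insert]
    constructor
    · rintro ⟨h | h, hl⟩
      · subst h; omega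
      · exact h
    · intro h
      have := lev_uc H h
      exact ⟨Or.inr h, by omega⟩
  refine ⟨by omega, h1, ?_, ?_, ?_⟩
  · rw [e1, BU_con_low H (by omega), e2, nU_con_low H (by omega), hu]
    simp
  · rw [chg_ZL H hz, e1, nU_con_low H (by omega)]
    norm_num
  · rw [con_two_low H h2, card_insert_of_notMem, hu]
    intro h
    have := lev_uc H h
    omega

lemma num_ZU (H : Gr P r) {z : P} (hz : z ∈ ZU i C) : Num i C z := by
  obtain ⟨h1, h2, h3⟩ := mem_ZU.1 hz
  have hu := card_dc_of_dn H h2 h3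
  have e1 : (BU i (con i z)).card = 3 := by rw [BU_con_upp H (by omega), card_stD, h3]
  have e2 : nU i (con i z) = dc z := by
    rw [con_two_upp H h2]
    ext y
    rw [mem_nU, mem_insert]
    constructor
    · rintro ⟨h | h, hl⟩
      · subst h; omega
      · exact h
    · intro h
      have := lev_dc H h
      exact ⟨Or.inr h, by omega⟩
  refine ⟨by omega, h1, ?_, ?_, ?_⟩
  · rw [e1, BL_con_upp H (by omega), e2, nL_con_upp H (by omega), hu]
  · rw [chg_ZU hz, BL_con_upp H (by omega), e2, hu]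
    norm_num
  · rw [con_two_upp H h2, card_insert_of_notMem, hu]
    intro h
    have := lev_dc H h
    omega

/-- the cone of a lower chain -/
lemma con_FL (H : Gr P r) {z p y : P} (hz : lev z = i + 3) (hp : uc z = {p}) (hy : uc p = {y}) :
    con i z = {z, p, y} := by
  have h1 := lev_uc H (x := z) (v := p) (by rw [hp]; simp)
  rw [con_rec_low H (by omega), hp, singleton_biUnion, con_two_low H (by omega), hy]

lemma con_FU (H : Gr P r) {z p y : P} (hz : lev z + 3 = i) (hp : dc z = {p}) (hy : dc p = {y}) :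
    con i z = {z, p, y} := by
  have h1 := lev_dc H (x := z) (v := p) (by rw [hp]; simp)
  rw [con_rec_upp H (by omega), hp, singleton_biUnion, con_two_upp H (by omega), hy]

/-- the pendant of a chain -/
lemma FL_data (H : Gr P r) {z : P} (hz : z ∈ FL i C) :
    ∃ p y, uc z = {p} ∧ uc p = {y} ∧ p ∈ PD P i ∧ lev p = i + 2 ∧ lev y = i + 1 ∧
      (uc y).card = 2 := by
  obtain ⟨h1, p, hp, hu⟩ := mem_FL.1 hz
  obtain ⟨g1, g2, y, hy, hc⟩ := mem_PD.1 hp
  have g3 := lev_uc H (mem_uc.2 hy)
  refine ⟨p, y, hu, ?_, hp, g1, by omega, hc⟩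
  obtain ⟨q, hq⟩ := card_eq_one.1 g2
  have : y ∈ uc p := mem_uc.2 hy
  rw [hq, mem_singleton] at this
  rw [hq, this]

lemma FU_data (H : Gr P r) {z : P} (hz : z ∈ FU' i C) :
    ∃ p y, dc z = {p} ∧ dc p = {y} ∧ p ∈ PU P i ∧ lev p + 2 = i ∧ lev y + 1 = i ∧
      (dc y).card = 2 := by
  obtain ⟨h1, p, hp, hu⟩ := mem_FU'.1 hz
  obtain ⟨g1, g2, y, hy, hc⟩ := mem_PU.1 hp
  have g3 := lev_dc H (mem_dc.2 hy)
  refine ⟨p, y, hu, ?_, hp, g1, by omega, hc⟩
  obtain ⟨q, hq⟩ := card_eq_one.1 g2
  have : y ∈ dc p := mem_dc.2 hy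
  rw [hq, mem_singleton] at this
  rw [hq, this]

lemma num_FL (H : Gr P r) {z : P} (hz : z ∈ FL i C) : Num i C z := by
  have h1 := (mem_FL.1 hz).1
  have h2 := lev_FL H hz
  obtain ⟨p, y, g1, g2, g3, g4, g5, g6⟩ := FL_data H hz
  have hcon := con_FL H h2 g1 g2
  have e1 : BL i (con i z) = uc y := by
    rw [hcon]
    ext v
    rw [mem_BL]
    constructor
    · rintro ⟨h, x, hx, hv⟩
      have hv' := lev_uc H (mem_uc.2 hv)
      rw [mem_insert, mem_insert, mem_singleton] at hx
      rcases hx with rfl | rfl | rfl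
      · omega
      · omega
      · exact mem_uc.2 hv
    · intro hv
      have hv' := lev_uc H hv
      exact ⟨by omega, y, by simp, mem_uc.1 hv⟩
  have e2 : nL i (con i z) = {y} := by
    rw [hcon]
    ext v
    rw [mem_nL, mem_insert, mem_insert, mem_singleton]
    constructor
    · rintro ⟨rfl | rfl | rfl, hl⟩
      · omega
      · omega
      · rfl
    · rintro rfl
      exact ⟨Or.inr (Or.inr rfl), g5⟩
  refine ⟨by omega, h1, ?_, ?_, ?_⟩
  · rw [e1, BU_con_low H (by omega), e2, nU_con_low H (by omega), g6]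
    simp
  · rw [chg_FL hz, e1, nU_con_low H (by omega), g6]
    norm_num
  · rw [hcon, card_insert_of_notMem, card_insert_of_notMem, card_singleton]
    · rw [mem_singleton]
      rintro rfl
      omega
    · rw [mem_insert, mem_singleton]
      rintro (rfl | rfl) <;> omega

lemma num_FU (H : Gr P r) {z : P} (hz : z ∈ FU' i C) : Num i C z := by
  have h1 := (mem_FU'.1 hz).1
  have h2 := lev_FU H hz
  obtain ⟨p, y, g1, g2, g3, g4, g5, g6⟩ := FU_data H hz
  have hcon := con_FU H h2 g1 g2
  have e1 : BU i (con i z) = dc y := by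
    rw [hcon]
    ext v
    rw [mem_BU]
    constructor
    · rintro ⟨h, x, hx, hv⟩
      have hv' := lev_dc H (mem_dc.2 hv)
      rw [mem_insert, mem_insert, mem_singleton] at hx
      rcases hx with rfl | rfl | rfl
      · omega
      · omega
      · exact mem_dc.2 hv
    · intro hv
      have hv' := lev_dc H hv
      exact ⟨by omega, y, by simp, mem_dc.1 hv⟩
  have e2 : nU i (con i z) = {y} := by
    rw [hcon]
    ext v
    rw [mem_nU, mem_insert, mem_insert, mem_singleton]
    constructor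
    · rintro ⟨rfl | rfl | rfl, hl⟩
      · omega
      · omega
      · rfl
    · rintro rfl
      exact ⟨Or.inr (Or.inr rfl), g5⟩
  refine ⟨by omega, h1, ?_, ?_, ?_⟩
  · rw [e1, BL_con_upp H (by omega), e2, nL_con_upp H (by omega), g6]
    simp
  · rw [chg_FU H hz, BL_con_upp H (by omega), e2]
    norm_num
  · rw [hcon, card_insert_of_notMem, card_insert_of_notMem, card_singleton]
    · rw [mem_singleton]
      rintro rfl
      omega
    · rw [mem_insert, mem_singleton]
      rintro (rfl | rfl) <;> omega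

/-- all charged elements -/
theorem num_Chs (H : Gr P r) {z : P} (hz : z ∈ Chs i C) : Num i C z := by
  rcases Chs_cases H hz with h | h | h | h
  · exact num_ZL H h.1
  · exact num_ZU H h.1
  · exact num_FL H h.1
  · exact num_FU H h.1

end Pool.Agent.GaussPoset.Win.SO
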