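import Pool.Agent.W_448so_h64.SoN

/-!
SECOND ORDER THEOREM (MP_448cb3_co, proofs row 476): the leftover configurations of energy six, index set.
-/

namespace Pool.Agent.GaussPoset.Win.SO

set_option linter.unusedSectionVars false

open Finset
open Pool.Agent.GaussPoset.Win.I2 (lS uS mem_lS mem_uS)
open Pool.Agent.GaussPoset.Win.So (TogL TogU RefL RefU RefD)

universe u

variable {P : Type u} [Fintype P] [PartialOrder P] [DecidableEq P] {r i : ℕ} {psi : P → P}
  {e : P → ℕ} {C : Finset P}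

/-- covers towards the window -/
noncomputable def nb (i : ℕ) (z : P) : Finset P := if i < lev z then uc z else dc z

open Classical in
/-- elements over a T-element only -/
noncomputable def N1f (i : ℕ) (C : Finset P) : Finset P :=
  C.filter (fun z => (i < lev z ∧ ∃ w ∈ ZL i C, uc z = {w}) ∨
    (lev z < i ∧ ∃ w ∈ ZU i C, dc z = {w}))

open Classical in
/-- elements over a pendant and a T-element with disjoint sites -/
noncomputable def N5f (i : ℕ) (C : Finset P) : Finset P :=
  C.filter (fun z => (i < lev z ∧ ∃ p w, p ∈ PD P i ∧ w ∈ ZL i C ∧ uc z = {p, w} ∧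
      Disjoint (sts i p) (sts i w)) ∨
    (lev z < i ∧ ∃ p w, p ∈ PU P i ∧ w ∈ ZU i C ∧ dc z = {p, w} ∧
      Disjoint (stD i p) (stD i w)))

lemma mem_N1f {z : P} : z ∈ N1f i C ↔ z ∈ C ∧ ((i < lev z ∧ ∃ w ∈ ZL i C, uc z = {w}) ∨
    (lev z < i ∧ ∃ w ∈ ZU i C, dc z = {w})) := by
  classical
  unfold N1f
  simp only [mem_filter]

lemma mem_N5f {z : P} : z ∈ N5f i C ↔ z ∈ C ∧ ((i < lev z ∧ ∃ p w, p ∈ PD P i ∧ w ∈ ZL i C ∧
      uc z = {p, w} ∧ Disjoint (sts i p) (sts i w)) ∨
    (lev z < i ∧ ∃ p w, p ∈ PU P i ∧ w ∈ ZU i C ∧ dc z = {p, w} ∧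
      Disjoint (stD i p) (stD i w))) := by
  classical
  unfold N5f
  simp only [mem_filter]

lemma nb_low {z : P} (h : i < lev z) : nb i z = uc z := by unfold nb; rw [if_pos h]

lemma nb_upp {z : P} (h : lev z < i) : nb i z = dc z := by unfold nb; rw [if_neg (by omega)]

/-- levels -/
lemma N1f_lev (H : Gr P r) {z : P} (hz : z ∈ N1f i C) :
    (lev z = i + 3 ∧ ∃ w ∈ ZL i C, uc z = {w}) ∨ (lev z + 3 = i ∧ ∃ w ∈ ZU i C, dc z = {w}) := by
  rcases (mem_N1f.1 hz).2 with ⟨h1, w, h2, h3⟩ | ⟨h1, w, h2, h3⟩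
  · left
    have g1 := lev_uc H (x := z) (v := w) (by rw [h3]; simp)
    have g2 := (mem_ZL.1 h2).2.1
    exact ⟨by omega, w, h2, h3⟩
  · right
    have g1 := lev_dc H (x := z) (v := w) (by rw [h3]; simp)
    have g2 := (mem_ZU.1 h2).2.1
    exact ⟨by omega, w, h2, h3⟩

lemma N5f_lev (H : Gr P r) {z : P} (hz : z ∈ N5f i C) :
    (lev z = i + 3 ∧ ∃ p w, p ∈ PD P i ∧ w ∈ ZL i C ∧ uc z = {p, w} ∧
      Disjoint (sts i p) (sts i w)) ∨
    (lev z + 3 = i ∧ ∃ p w, p ∈ PU P i ∧ w ∈ ZU i C ∧ dc z = {p, w} ∧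
      Disjoint (stD i p) (stD i w)) := by
  rcases (mem_N5f.1 hz).2 with ⟨h1, p, w, h0, h2, h3, h4⟩ | ⟨h1, p, w, h0, h2, h3, h4⟩
  · left
    have g1 := lev_uc H (x := z) (v := w) (by rw [h3]; simp)
    have g2 := (mem_ZL.1 h2).2.1
    exact ⟨by omega, p, w, h0, h2, h3, h4⟩
  · right
    have g1 := lev_dc H (x := z) (v := w) (by rw [h3]; simp)
    have g2 := (mem_ZU.1 h2).2.1
    exact ⟨by omega, p, w, h0, h2, h3, h4⟩

/-- elements whose label is two -/
noncomputable def dbl (i : ℕ) (C T : Finset P) : Finset P :=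
  (T ∩ N1f i C).biUnion (fun z => insert z (nb i z))

/-- the configuration of an index set -/
noncomputable def Psi (i : ℕ) (C T : Finset P) : P → ℕ :=
  fun y => on (T.biUnion (con i)) y + on (dbl i C T) y

open Classical in
/-- pairs of charged elements with disjoint sites -/
noncomputable def PR (i : ℕ) (C : Finset P) : Finset (Finset P) :=
  ((Chs i C).powersetCard 2).filter
    (fun T => ∀ z ∈ T, ∀ z' ∈ T, z ≠ z' → Disjoint (sit i z) (sit i z'))

lemma mem_PR {T : Finset P} : T ∈ PR i C ↔ T ⊆ Chs i C ∧ T.card = 2 ∧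
    ∀ z ∈ T, ∀ z' ∈ T, z ≠ z' → Disjoint (sit i z) (sit i z') := by
  classical
  unfold PR
  simp only [mem_filter, mem_powersetCard, and_assoc]

/-- the index set of the leftover configurations -/
noncomputable def Ix (i : ℕ) (C : Finset P) : Finset (Finset P) :=
  PR i C ∪ (N1f i C ∪ N5f i C).image (fun z => {z})

lemma mem_Ix {T : Finset P} : T ∈ Ix i C ↔ T ∈ PR i C ∨ ∃ z, (z ∈ N1f i C ∨ z ∈ N5f i C) ∧
    T = {z} := by
  unfold Ix
  rw [mem_union, mem_image]
  constructor
  · rintro (h | ⟨z, hz, rfl⟩)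
    · exact Or.inl h
    · exact Or.inr ⟨z, mem_union.1 hz, rfl⟩
  · rintro (h | ⟨z, hz, rfl⟩)
    · exact Or.inl h
    · exact Or.inr ⟨z, mem_union.2 hz, rfl⟩

/-- the elements of an index set are far, in the part, and have pairwise disjoint sites -/
lemma Ix_data (H : Gr P r) {T : Finset P} (hT : T ∈ Ix i C) :
    (∀ z ∈ T, (i + 2 ≤ lev z ∨ lev z + 2 ≤ i) ∧ z ∈ C) ∧
      ∀ z ∈ T, ∀ z' ∈ T, z ≠ z' → Disjoint (sit i z) (sit i z') := by
  rcases mem_Ix.1 hT with h | ⟨z, hz, rfl⟩
  · obtain ⟨h1, h2, h3⟩ := mem_PR.1 h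
    refine ⟨fun z hz => ⟨?_, (num_Chs H (h1 hz)).mC⟩, h3⟩
    rcases Chs_cases H (h1 hz) with g | g | g | g <;> omega
  · refine ⟨fun z' hz' => ?_, fun a ha b hb hab => ?_⟩
    · rw [mem_singleton] at hz'
      subst hz'
      rcases hz with hz | hz
      · refine ⟨?_, (mem_N1f.1 hz).1⟩
        rcases N1f_lev H hz with g | g <;> omega
      · refine ⟨?_, (mem_N5f.1 hz).1⟩
        rcases N5f_lev H hz with g | g <;> omega
    · rw [mem_singleton] at ha hb
      exact absurd (ha.trans hb.symm) hab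

lemma nb_con (H : Gr P r) {z : P} (hz : i + 2 ≤ lev z ∨ lev z + 2 ≤ i) : nb i z ⊆ con i z := by
  intro y hy
  rcases hz with h | h
  · rw [nb_low (by omega)] at hy
    have h1 := lev_uc H hy
    rw [mem_uc] at hy
    exact mem_con.2 (Or.inl ⟨by omega, hy.le⟩)
  · rw [nb_upp (by omega)] at hy
    have h1 := lev_dc H hy
    rw [mem_dc] at hy
    exact mem_con.2 (Or.inr ⟨by omega, hy.le⟩)

/-- the doubled elements are in the cones -/
lemma dbl_sub (H : Gr P r) {T : Finset P} (hT : T ∈ Ix i C) :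
    dbl i C T ⊆ T.biUnion (con i) := by
  intro y hy
  unfold dbl at hy
  rw [mem_biUnion] at hy ⊢
  obtain ⟨z, hz, hy⟩ := hy
  have hz' := (mem_inter.1 hz).1
  have hl := ((Ix_data H hT).1 z hz').1
  refine ⟨z, hz', ?_⟩
  rw [mem_insert] at hy
  rcases hy with rfl | hy
  · exact self_con (by omega)
  · exact nb_con H hl hy

/-- the support of the configuration -/
lemma Psi_pos (H : Gr P r) {T : Finset P} (hT : T ∈ Ix i C) {y : P} :
    0 < Psi i C T y ↔ y ∈ T.biUnion (con i) := by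
  unfold Psi on
  constructor
  · intro h
    by_contra hn
    rw [if_neg hn, if_neg (fun h' => hn (dbl_sub H hT h'))] at h
    omega
  · intro h
    rw [if_pos h]
    omega

lemma Psi_zero (H : Gr P r) {T : Finset P} (hT : T ∈ Ix i C) {y : P}
    (hy : y ∉ T.biUnion (con i)) : Psi i C T y = 0 := by
  have := (Psi_pos H hT (y := y)).not.2 hy
  omega

/-- the elements of the support are on the sides -/
lemma supp_ns (H : Gr P r) {T : Finset P} (hT : T ∈ Ix i C) {y : P}
    (hy : y ∈ T.biUnion (con i)) : lev y ≠ i ∧ y ∈ T.biUnion (con i) := by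
  refine ⟨?_, hy⟩
  rw [mem_biUnion] at hy
  obtain ⟨z, hz, hy⟩ := hy
  have hl := ((Ix_data H hT).1 z hz).1
  exact (con_cls H (z := z) (by omega)).ns y hy

/-- injectivity -/
theorem Psi_inj (H : Gr P r) (hir : i ≤ r) {T T' : Finset P} (hT : T ∈ Ix i C)
    (hT' : T' ∈ Ix i C) (h : Psi i C T = Psi i C T') : T = T' := by
  have h1 : T.biUnion (con i) = T'.biUnion (con i) := by
    ext y
    rw [← Psi_pos H hT, ← Psi_pos H hT', h]
  have g := Ix_data H hT
  have g' := Ix_data H hT'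
  rw [← Mn_biUnion H hir (fun z hz => by have := (g.1 z hz).1; omega) g.2, h1,
    Mn_biUnion H hir (fun z hz => by have := (g'.1 z hz).1; omega) g'.2]

/-- the support is in the part -/
lemma Psi_spt (H : Gr P r) (hC : Part (i + 1) C) {T : Finset P} (hT : T ∈ Ix i C) :
    Spt C (Psi i C T) := by
  intro y hy
  apply Psi_zero H hT
  rw [mem_biUnion]
  rintro ⟨z, hz, hyz⟩
  have g := (Ix_data H hT).1 z hz
  exact hy (con_sub H hC g.2 (by omega) hyz)

/-- the configurations are cores -/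
theorem Psi_core (H : Gr P r) {T : Finset P} (hT : T ∈ Ix i C) :
    IsCore i ∅ psi (Psi i C T) := by
  classical
  intro x hx
  by_contra hne
  have hpos : 0 < Psi i C T x := Nat.pos_of_ne_zero hne
  have h1 := (Psi_pos H hT).1 hpos
  rw [mem_Rst] at hx
  rw [mem_biUnion] at h1
  obtain ⟨z, hz, hxz⟩ := h1
  have g := ((Ix_data H hT).1 z hz).1
  have hn := hx.1
  unfold near at hn
  rw [mem_filter] at hn
  obtain ⟨q, hq, hq2⟩ := con_step H (z := z) (by omega) hxz (by rintro rfl; omega)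
  apply hx.2.2.1
  unfold Tch
  rw [mem_filter]
  refine ⟨mem_univ _, ?_⟩
  have hqp : 0 < Psi i C T q := (Psi_pos H hT).2 (mem_biUnion.2 ⟨z, hz, hq⟩)
  rcases hq2 with ⟨k1, k2⟩ | ⟨k1, k2⟩
  · exact Or.inl ⟨by omega, q, k2, hqp⟩
  · exact Or.inr ⟨by omega, q, k2, hqp⟩

/-- an excited element of the configuration without excited neighbour away from the window is an index -/
lemma Psi_min (H : Gr P r) (hir : i ≤ r) {T : Finset P} (hT : T ∈ Ix i C) {p : P}
    (hp : 0 < Psi i C T p)
    (h : ∀ x, (i < lev p ∧ x ⋖ p) ∨ (lev p < i ∧ p ⋖ x) → Psi i C T x = 0) : p ∈ T := by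
  have g := Ix_data H hT
  rw [← Mn_biUnion H hir (fun z hz => by have := (g.1 z hz).1; omega) g.2, mem_Mn]
  refine ⟨(Psi_pos H hT).1 hp, fun x hx hx2 => ?_⟩
  have h1 := (Psi_pos H hT).2 hx
  rw [h x hx2] at h1
  omega

/-- elements of an index set are no pendants -/
lemma Ix_noPD (H : Gr P r) {T : Finset P} (hT : T ∈ Ix i C) {p : P} (hp : p ∈ T) :
    p ∉ PD P i ∧ p ∉ PU P i := by
  rcases mem_Ix.1 hT with h | ⟨z, hz, rfl⟩
  · obtain ⟨h1, -, -⟩ := mem_PR.1 h
    constructor
    · intro hq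
      obtain ⟨k1, k2⟩ := lev_PD hq
      rcases Chs_cases H (h1 hp) with g | g | g | g
      · have := card_uc_of_up H g.2 (mem_ZL.1 g.1).2.2
        omega
      · omega
      · omega
      · omega
    · intro hq
      obtain ⟨k1, k2⟩ := lev_PU hq
      rcases Chs_cases H (h1 hp) with g | g | g | g
      · omega
      · have := card_dc_of_dn H g.2 (mem_ZU.1 g.1).2.2
        omega
      · omega
      · omega
  · rw [mem_singleton] at hp
    subst hp
    constructor
    · intro hq
      obtain ⟨k1, k2⟩ := lev_PD hq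
      rcases hz with hz | hz
      · rcases N1f_lev H hz with g | g <;> omega
      · rcases N5f_lev H hz with g | g <;> omega
    · intro hq
      obtain ⟨k1, k2⟩ := lev_PU hq
      rcases hz with hz | hz
      · rcases N1f_lev H hz with g | g <;> omega
      · rcases N5f_lev H hz with g | g <;> omega

/-- no reflections -/
theorem Psi_noRef (H : Gr P r) (hir : i ≤ r) {T : Finset P} (hT : T ∈ Ix i C) {y p u p' : P}
    (D : RefD r i y p u p') : ¬ RefL (Psi i C T) y p u p' ∧ ¬ RefU (Psi i C T) y p u p' := by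
  have l1 := D.lp H
  have l2 := D.lp' H
  constructor
  · intro R
    have h1 := R.hp
    have h2 := Psi_min H hir hT (p := p) (by omega) (by
      rintro x (⟨k1, k2⟩ | ⟨k1, k2⟩)
      · exact R.chp x k2
      · omega)
    exact (Ix_noPD H hT h2).1 (refD_PD H D)
  · intro R
    have h1 := R.hp
    have h2 := Psi_min H hir hT (p := p') (by omega) (by
      rintro x (⟨k1, k2⟩ | ⟨k1, k2⟩)
      · omega
      · exact R.abp x k2)
    exact (Ix_noPD H hT h2).2 (refD_PU H D)

/-- the label of a site is zero -/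
lemma Psi_site (H : Gr P r) {T : Finset P} (hT : T ∈ Ix i C) {s : P} (hs : lev s = i) :
    Psi i C T s = 0 := by
  apply Psi_zero H hT
  intro h
  exact (supp_ns H hT h).1 hs

/-- a label two at distance two has a label two behind it -/
lemma Psi_two (H : Gr P r) {T : Finset P} (hT : T ∈ Ix i C) {w : P} (h : 2 ≤ Psi i C T w) :
    (lev w = i + 2 → ∃ z, z ⋖ w ∧ Psi i C T z = 2) ∧
      (lev w + 2 = i → ∃ z, w ⋖ z ∧ Psi i C T z = 2) := by
  have h1 : w ∈ dbl i C T := by
    by_contra hn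
    unfold Psi on at h
    rw [if_neg hn] at h
    split_ifs at h <;> omega
  unfold dbl at h1
  rw [mem_biUnion] at h1
  obtain ⟨z, hz, hw⟩ := h1
  obtain ⟨hz1, hz2⟩ := mem_inter.1 hz
  have hlz := N1f_lev H hz2
  have h2 : Psi i C T z = 2 := by
    unfold Psi on
    rw [if_pos (mem_biUnion.2 ⟨z, hz1, self_con (by omega)⟩), if_pos]
    unfold dbl
    exact mem_biUnion.2 ⟨z, hz, mem_insert_self _ _⟩
  rw [mem_insert] at hw
  constructor
  · intro hl
    rcases hw with rfl | hw
    · omega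
    · rcases Nat.lt_or_ge i (lev z) with k | k
      · rw [nb_low k] at hw
        exact ⟨z, mem_uc.1 hw, h2⟩
      · rw [nb_upp (by omega)] at hw
        have := lev_dc H hw
        omega
  · intro hl
    rcases hw with rfl | hw
    · omega
    · rcases Nat.lt_or_ge i (lev z) with k | k
      · rw [nb_low k] at hw
        have := lev_uc H hw
        omega
      · rw [nb_upp (by omega)] at hw
        exact ⟨z, mem_dc.1 hw, h2⟩

/-- no toggles -/
theorem Psi_noTogL (H : Gr P r) {T : Finset P} (hT : T ∈ Ix i C) {w x x' a s b : P} :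
    ¬ TogL i (Psi i C T) w x x' a s b := by
  intro G
  have h1 := TogL.four G
  have h2 := Psi_site H hT (G.ls H)
  obtain ⟨z, hz, hz2⟩ := (Psi_two H hT (w := w) (by omega)).1 G.lw
  have := G.cw z hz
  omega

theorem Psi_noTogU (H : Gr P r) {T : Finset P} (hT : T ∈ Ix i C) {w x x' a s b : P} :
    ¬ TogU i (Psi i C T) w x x' a s b := by
  intro G
  have h1 := TogU.four G
  have h2 := Psi_site H hT (G.ls H)
  obtain ⟨z, hz, hz2⟩ := (Psi_two H hT (w := w) (by omega)).2 G.lw
  have := G.cw z hz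
  omega

end Pool.Agent.GaussPoset.Win.SO
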