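import Pool.Agent.W_448so_h64.SoO

/-!
SECOND ORDER THEOREM (MP_448cb3_co, proofs row 476): the leftover configurations of energy six are exactly the
configurations of the index set; their values.
-/

namespace Pool.Agent.GaussPoset.Win.SO

set_option linter.unusedSectionVars false

open Finset
open Pool.Agent.GaussPoset.Win.I2 (lS uS mem_lS mem_uS)
open Pool.Agent.GaussPoset.Win.So (TogL TogU RefL RefU RefD)

universe u

variable {P : Type u} [Fintype P] [PartialOrder P] [DecidableEq P] {r i : ℕ} {psi : P → P}
  {e : P → ℕ} {C : Finset P}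

lemma on_eq {s : Finset P} (h : On e s) : e = on s := by
  funext y
  rw [h y]
  rfl

/-- charged elements are not in `N1f` -/
lemma Chs_N1f (H : Gr P r) {z : P} (hz : z ∈ Chs i C) : z ∉ N1f i C := by
  intro h
  rcases Chs_cases H hz with g | g | g | g
  · rcases N1f_lev H h with k | k <;> omega
  · rcases N1f_lev H h with k | k <;> omega
  · rcases N1f_lev H h with ⟨k, w, hw, hw2⟩ | k
    · obtain ⟨p, y, g1, g2, g3, g4, g5, g6⟩ := FL_data H g.1
      have h1 : p = w := by
        rw [hw2, singleton_inj] at g1
        exact g1.symm
      have h2 := card_uc_of_up H (mem_ZL.1 hw).2.1 (mem_ZL.1 hw).2.2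
      rw [← h1, g2] at h2
      simp at h2
    · omega
  · rcases N1f_lev H h with k | ⟨k, w, hw, hw2⟩
    · omega
    · obtain ⟨p, y, g1, g2, g3, g4, g5, g6⟩ := FU_data H g.1
      have h1 : p = w := by
        rw [hw2, singleton_inj] at g1
        exact g1.symm
      have h2 := card_dc_of_dn H (mem_ZU.1 hw).2.1 (mem_ZU.1 hw).2.2
      rw [← h1, g2] at h2
      simp at h2

lemma N5f_N1f (H : Gr P r) {z : P} (hz : z ∈ N5f i C) : z ∉ N1f i C := by
  intro h
  rcases N5f_lev H hz with ⟨k, p, w, h0, h2, h3, h4⟩ | ⟨k, p, w, h0, h2, h3, h4⟩
  · rcases N1f_lev H h with ⟨k', w', hw, hw2⟩ | k'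
    · have h5 : p = w := by
        have g1 : p ∈ uc z := by rw [h3]; simp
        have g2 : w ∈ uc z := by rw [h3]; simp
        rw [hw2, mem_singleton] at g1 g2
        rw [g1, g2]
      have h6 := card_uc_of_up H (mem_ZL.1 h2).2.1 (mem_ZL.1 h2).2.2
      have h7 := (lev_PD h0).2
      rw [h5] at h7
      omega
    · omega
  · rcases N1f_lev H h with k' | ⟨k', w', hw, hw2⟩
    · omega
    · have h5 : p = w := by
        have g1 : p ∈ dc z := by rw [h3]; simp
        have g2 : w ∈ dc z := by rw [h3]; simp
        rw [hw2, mem_singleton] at g1 g2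
        rw [g1, g2]
      have h6 := card_dc_of_dn H (mem_ZU.1 h2).2.1 (mem_ZU.1 h2).2.2
      have h7 := (lev_PU h0).2
      rw [h5] at h7
      omega

/-- without `N1f` the configuration is an indicator -/
lemma Psi_on {T : Finset P} (h : ∀ z ∈ T, z ∉ N1f i C) : Psi i C T = on (T.biUnion (con i)) := by
  have h1 : dbl i C T = ∅ := by
    unfold dbl
    have : T ∩ N1f i C = ∅ := by
      rw [eq_empty_iff_forall_notMem]
      intro z hz
      rw [mem_inter] at hz
      exact h z hz.1 hz.2
    rw [this]
    rfl
  funext y
  unfold Psi
  rw [h1]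
  unfold on
  simp

lemma on_sum (s : Finset P) : ∑ x, on s x = s.card := by
  unfold on
  rw [Finset.sum_boole]
  simp

/-- a pair of charged elements with disjoint sites -/
lemma pr_of (H : Gr P r) (hir : i ≤ r) {z z' : P} (hz : z ∈ Chs i C) (hz' : z' ∈ Chs i C)
    (hd : Disjoint (sit i z) (sit i z')) :
    ({z, z'} : Finset P) ∈ PR i C ∧ Psi i C {z, z'} = on (con i z ∪ con i z') := by
  have hne : z ≠ z' := by
    rintro rfl
    obtain ⟨v, hv⟩ := sit_ne H hir (num_Chs H hz).ns
    exact disjoint_left.1 hd hv hv
  constructor
  · rw [mem_PR]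
    refine ⟨?_, card_pair hne, ?_⟩
    · intro y hy
      rw [mem_insert, mem_singleton] at hy
      rcases hy with rfl | rfl
      · exact hz
      · exact hz'
    · intro a ha b hb hab
      rw [mem_insert, mem_singleton] at ha hb
      rcases ha with rfl | rfl <;> rcases hb with rfl | rfl
      · exact absurd rfl hab
      · exact hd
      · exact hd.symm
      · exact absurd rfl hab
  · rw [Psi_on, biUnion_insert, singleton_biUnion]
    intro a ha
    rw [mem_insert, mem_singleton] at ha
    rcases ha with rfl | rfl
    · exact Chs_N1f H hz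
    · exact Chs_N1f H hz'

/-- disjoint sites: the numbers of the union -/
theorem pair_value (H : Gr P r) (hi : 1 ≤ i) (hi2 : i + 1 ≤ r) (hC : Part (i + 1) C)
    {z z' : P} (hz : z ∈ Chs i C) (hz' : z' ∈ Chs i C)
    (hd : Disjoint (sit i z) (sit i z')) :
    ∑ x, on (con i z ∪ con i z') x = 6 ∧
    PowerSeries.coeff (st i C).card (dd ^ 2 * tC i C (on (con i z ∪ con i z')) : A) =
      chg i C z * chg i C z' := by
  have hir : i ≤ r := by omega
  have N := num_Chs H hz
  have N' := num_Chs H hz'
  have hcd := con_disj H hir N.ns N'.ns hd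
  constructor
  · rw [on_sum, card_union_of_disjoint hcd, N.three, N'.three]
  have hs : Cls i (con i z ∪ con i z') := by
    have c1 := con_cls H N.ns
    have c2 := con_cls H N'.ns
    constructor
    · intro x hx
      rcases mem_union.1 hx with hx | hx
      · exact c1.ns x hx
      · exact c2.ns x hx
    · intro x hx hl y hy
      rcases mem_union.1 hx with hx | hx
      · exact mem_union_left _ (c1.lo x hx hl y hy)
      · exact mem_union_right _ (c2.lo x hx hl y hy)
    · intro x hx hl y hy
      rcases mem_union.1 hx with hx | hx
      · exact mem_union_left _ (c1.up x hx hl y hy)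
      · exact mem_union_right _ (c2.up x hx hl y hy)
  have hsC : con i z ∪ con i z' ⊆ C :=
    union_subset (con_sub H hC N.mC N.ns) (con_sub H hC N'.mC N'.ns)
  have s1 := sit_con H N.ns
  have s1' := sit_con H N'.ns
  have a1 : BL i (con i z) ⊆ sit i z := by rw [← s1]; exact subset_union_left
  have a2 : BU i (con i z) ⊆ sit i z := by rw [← s1]; exact subset_union_right
  have a1' : BL i (con i z') ⊆ sit i z' := by rw [← s1']; exact subset_union_left
  have a2' : BU i (con i z') ⊆ sit i z' := by rw [← s1']; exact subset_union_right
  have own : ∀ {y : P}, lev y ≠ i → Disjoint (BL i (con i y)) (BU i (con i y)) := by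
    intro y hy
    rcases Nat.lt_or_gt_of_ne hy with h | h
    · rw [BL_con_upp H h]; exact disjoint_empty_left _
    · rw [BU_con_low H h]; exact disjoint_empty_right _
  have d1 : Disjoint (BL i (con i z)) (BL i (con i z')) := disjoint_of_subset_left a1
    (disjoint_of_subset_right a1' hd)
  have d2 : Disjoint (BU i (con i z)) (BU i (con i z')) := disjoint_of_subset_left a2
    (disjoint_of_subset_right a2' hd)
  have d3 : Disjoint (nL i (con i z)) (nL i (con i z')) := disjoint_of_subset_left
    (filter_subset _ _) (disjoint_of_subset_right (filter_subset _ _) hcd)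
  have d4 : Disjoint (nU i (con i z)) (nU i (con i z')) := disjoint_of_subset_left
    (filter_subset _ _) (disjoint_of_subset_right (filter_subset _ _) hcd)
  have hdis : Disjoint (BL i (con i z ∪ con i z')) (BU i (con i z ∪ con i z')) := by
    rw [BL_union, BU_union, disjoint_union_left, disjoint_union_right, disjoint_union_right]
    exact ⟨⟨own N.ns, disjoint_of_subset_left a1 (disjoint_of_subset_right a2' hd)⟩,
      disjoint_of_subset_left a1' (disjoint_of_subset_right a2 hd.symm), own N'.ns⟩
  have c1 : (BL i (con i z ∪ con i z')).card = (BL i (con i z)).card + (BL i (con i z')).card := by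
    rw [BL_union, card_union_of_disjoint d1]
  have c2 : (BU i (con i z ∪ con i z')).card = (BU i (con i z)).card + (BU i (con i z')).card := by
    rw [BU_union, card_union_of_disjoint d2]
  have c3 : (nL i (con i z ∪ con i z')).card = (nL i (con i z)).card + (nL i (con i z')).card := by
    rw [nL_union, card_union_of_disjoint d3]
  have c4 : (nU i (con i z ∪ con i z')).card = (nU i (con i z)).card + (nU i (con i z')).card := by
    rw [nU_union, card_union_of_disjoint d4]
  have n1 := N.num
  have n2 := N'.num
  rw [on_coeff H hi hi2 hC hs hsC hdis (by omega), N.sgn, N'.sgn, c1, c4, ← pow_add]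
  congr 1
  ring

/-- the value of a pair -/
theorem PR_value (H : Gr P r) (hi : 1 ≤ i) (hi2 : i + 1 ≤ r) (hC : Part (i + 1) C)
    {T : Finset P} (hT : T ∈ PR i C) :
    ∑ x, Psi i C T x = 6 ∧
    PowerSeries.coeff (st i C).card (dd ^ 2 * tC i C (Psi i C T) : A) = ∏ z ∈ T, chg i C z := by
  have hir : i ≤ r := by omega
  obtain ⟨h1, h2, h3⟩ := mem_PR.1 hT
  obtain ⟨z, z', hne, rfl⟩ := card_eq_two.1 h2
  have hz := h1 (show z ∈ ({z, z'} : Finset P) by simp)
  have hz' := h1 (show z' ∈ ({z, z'} : Finset P) by simp)
  have hd := h3 z (by simp) z' (by simp) hne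
  have h4 := (pr_of H hir hz hz' hd).2
  have h5 := pair_value H hi hi2 hC hz hz' hd
  rw [h4, prod_pair hne]
  exact h5

/-- cone and numbers of `N5f` -/
theorem N5_value (H : Gr P r) (hi : 1 ≤ i) (hi2 : i + 1 ≤ r) (hC : Part (i + 1) C)
    {z : P} (hz : z ∈ N5f i C) :
    ∑ x, Psi i C {z} x = 6 ∧
    PowerSeries.coeff (st i C).card (dd ^ 2 * tC i C (Psi i C {z}) : A) = -1 := by
  have hps : Psi i C {z} = on (con i z) := by
    rw [Psi_on, singleton_biUnion]
    intro a ha
    rw [mem_singleton] at ha
    subst ha
    exact N5f_N1f H hz
  have hzC := (mem_N5f.1 hz).1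
  rw [hps, on_sum]
  rcases N5f_lev H hz with ⟨k, p, w, h0, h2, h3, h4⟩ | ⟨k, p, w, h0, h2, h3, h4⟩
  · obtain ⟨p1, p2, y, hy, hyc⟩ := mem_PD.1 h0
    have hpy : uc p = {y} := by
      obtain ⟨q, hq⟩ := card_eq_one.1 p2
      have : y ∈ uc p := mem_uc.2 hy
      rw [hq, mem_singleton] at this
      rw [hq, this]
    have hly := lev_uc H (mem_uc.2 hy)
    obtain ⟨w0, w1, w2⟩ := mem_ZL.1 h2
    have hwc := card_uc_of_up H w1 w2
    have hpw : p ≠ w := by rintro rfl; omega
    have hcon : con i z = {z, p, y} ∪ (insert w (uc w)) := by
      rw [con_rec_low H (by omega), h3, biUnion_insert, singleton_biUnion, con_two_low H p1,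
        con_two_low H w1, hpy]
      ext v
      simp only [mem_insert, mem_union, mem_singleton]
      tauto
    have hyw : y ∉ uc w := by
      intro h
      obtain ⟨v, hv⟩ := uc_nonempty H (x := y) (by omega)
      exact disjoint_left.1 h4 ((mem_sts_iff H p1).2 ⟨y, by rw [hpy]; simp, hv⟩)
        ((mem_sts_iff H w1).2 ⟨y, h, hv⟩)
    have hlw : ∀ v ∈ uc w, lev v = i + 1 := fun v hv => by have := lev_uc H hv; omega
    have hcard : (con i z).card = 6 := by
      rw [hcon, card_union_of_disjoint, card_insert_of_notMem, card_insert_of_notMem,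
        card_singleton, card_insert_of_notMem, hwc]
      · intro h; have := hlw w h; omega
      · rw [mem_singleton]; rintro rfl; omega
      · rw [mem_insert, mem_singleton]; rintro (rfl | rfl) <;> omega
      · rw [disjoint_left]
        intro v hv hv'
        rw [mem_insert, mem_insert, mem_singleton] at hv
        rw [mem_insert] at hv'
        rcases hv with rfl | rfl | rfl
        · rcases hv' with rfl | hv'
          · omega
          · have := hlw v hv'; omega
        · rcases hv' with rfl | hv'
          · exact hpw rfl
          · have := hlw v hv'; omega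
        · rcases hv' with rfl | hv'
          · omega
          · exact hyw hv'
    have hnL : (nL i (con i z)).card = 3 := by
      have : nL i (con i z) = insert y (uc w) := by
        rw [hcon]
        ext v
        rw [mem_nL]
        simp only [mem_insert, mem_union, mem_singleton]
        constructor
        · rintro ⟨(rfl | rfl | rfl) | (rfl | h), hl⟩
          · omega
          · omega
          · exact Or.inl rfl
          · omega
          · exact Or.inr h
        · rintro (rfl | h)
          · exact ⟨Or.inl (Or.inr (Or.inr rfl)), by omega⟩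
          · exact ⟨Or.inr (Or.inr h), hlw v h⟩
      rw [this, card_insert_of_notMem hyw, hwc]
    have hBL : (BL i (con i z)).card = 5 := by
      have e1 : BL i (con i z) = uc y ∪ sts i w := by
        rw [hcon]
        ext v
        rw [mem_BL, mem_union, mem_sts_iff H w1]
        constructor
        · rintro ⟨hv, x, hx, hxv⟩
          have := lev_uc H (mem_uc.2 hxv)
          simp only [mem_insert, mem_union, mem_singleton] at hx
          rcases hx with (rfl | rfl | rfl) | (rfl | h)
          · omega
          · omega
          · exact Or.inl (mem_uc.2 hxv)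
          · omega
          · exact Or.inr ⟨x, h, mem_uc.2 hxv⟩
        · rintro (h | ⟨x, hx, hxv⟩)
          · have := lev_uc H h
            exact ⟨by omega, y, by simp, mem_uc.1 h⟩
          · have h5 := lev_uc H hxv
            have h6 := hlw x hx
            exact ⟨by omega, x, by simp [hx], mem_uc.1 hxv⟩
      have e2 : Disjoint (uc y) (sts i w) := by
        refine disjoint_of_subset_left ?_ h4
        intro v hv
        exact (mem_sts_iff H p1).2 ⟨y, by rw [hpy]; simp, hv⟩
      rw [e1, card_union_of_disjoint e2, hyc, card_sts, w2]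
    refine ⟨hcard, ?_⟩
    have hBU := BU_con_low H (i := i) (z := z) (by omega)
    have hnU := nU_con_low H (i := i) (z := z) (by omega)
    rw [on_coeff H hi hi2 hC (con_cls H (by omega)) (con_sub H hC hzC (by omega)), hBL, hnU]
    · norm_num
    · rw [hBU]; exact disjoint_empty_right _
    · rw [hBL, hBU, hnL, hnU, card_empty]
  · obtain ⟨p1, p2, y, hy, hyc⟩ := mem_PU.1 h0
    have hpy : dc p = {y} := by
      obtain ⟨q, hq⟩ := card_eq_one.1 p2
      have : y ∈ dc p := mem_dc.2 hy
      rw [hq, mem_singleton] at this
      rw [hq, this]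
    have hly := lev_dc H (mem_dc.2 hy)
    obtain ⟨w0, w1, w2⟩ := mem_ZU.1 h2
    have hwc := card_dc_of_dn H w1 w2
    have hpw : p ≠ w := by rintro rfl; omega
    have hcon : con i z = {z, p, y} ∪ (insert w (dc w)) := by
      rw [con_rec_upp H (by omega), h3, biUnion_insert, singleton_biUnion, con_two_upp H p1,
        con_two_upp H w1, hpy]
      ext v
      simp only [mem_insert, mem_union, mem_singleton]
      tauto
    have hyw : y ∉ dc w := by
      intro h
      obtain ⟨v, hv⟩ := dc_nonempty H (x := y) (by omega)
      exact disjoint_left.1 h4 ((mem_stD_iff H p1).2 ⟨y, by rw [hpy]; simp, hv⟩)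
        ((mem_stD_iff H w1).2 ⟨y, h, hv⟩)
    have hlw : ∀ v ∈ dc w, lev v + 1 = i := fun v hv => by have := lev_dc H hv; omega
    have hcard : (con i z).card = 6 := by
      rw [hcon, card_union_of_disjoint, card_insert_of_notMem, card_insert_of_notMem,
        card_singleton, card_insert_of_notMem, hwc]
      · intro h; have := hlw w h; omega
      · rw [mem_singleton]; rintro rfl; omega
      · rw [mem_insert, mem_singleton]; rintro (rfl | rfl) <;> omega
      · rw [disjoint_left]
        intro v hv hv'
        rw [mem_insert, mem_insert, mem_singleton] at hv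
        rw [mem_insert] at hv'
        rcases hv with rfl | rfl | rfl
        · rcases hv' with rfl | hv'
          · omega
          · have := hlw v hv'; omega
        · rcases hv' with rfl | hv'
          · exact hpw rfl
          · have := hlw v hv'; omega
        · rcases hv' with rfl | hv'
          · omega
          · exact hyw hv'
    have hnU : (nU i (con i z)).card = 3 := by
      have : nU i (con i z) = insert y (dc w) := by
        rw [hcon]
        ext v
        rw [mem_nU]
        simp only [mem_insert, mem_union, mem_singleton]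
        constructor
        · rintro ⟨(rfl | rfl | rfl) | (rfl | h), hl⟩
          · omega
          · omega
          · exact Or.inl rfl
          · omega
          · exact Or.inr h
        · rintro (rfl | h)
          · exact ⟨Or.inl (Or.inr (Or.inr rfl)), by omega⟩
          · exact ⟨Or.inr (Or.inr h), hlw v h⟩
      rw [this, card_insert_of_notMem hyw, hwc]
    have hBU : (BU i (con i z)).card = 5 := by
      have e1 : BU i (con i z) = dc y ∪ stD i w := by
        rw [hcon]
        ext v
        rw [mem_BU, mem_union, mem_stD_iff H w1]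
        constructor
        · rintro ⟨hv, x, hx, hxv⟩
          have := lev_dc H (mem_dc.2 hxv)
          simp only [mem_insert, mem_union, mem_singleton] at hx
          rcases hx with (rfl | rfl | rfl) | (rfl | h)
          · omega
          · omega
          · exact Or.inl (mem_dc.2 hxv)
          · omega
          · exact Or.inr ⟨x, h, mem_dc.2 hxv⟩
        · rintro (h | ⟨x, hx, hxv⟩)
          · have := lev_dc H h
            exact ⟨by omega, y, by simp, mem_dc.1 h⟩
          · have h5 := lev_dc H hxv
            have h6 := hlw x hx
            exact ⟨by omega, x, by simp [hx], mem_dc.1 hxv⟩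
      have e2 : Disjoint (dc y) (stD i w) := by
        refine disjoint_of_subset_left ?_ h4
        intro v hv
        exact (mem_stD_iff H p1).2 ⟨y, by rw [hpy]; simp, hv⟩
      rw [e1, card_union_of_disjoint e2, hyc, card_stD, w2]
    refine ⟨hcard, ?_⟩
    have hBL := BL_con_upp H (i := i) (z := z) (by omega)
    have hnL := nL_con_upp H (i := i) (z := z) (by omega)
    rw [on_coeff H hi hi2 hC (con_cls H (by omega)) (con_sub H hC hzC (by omega)), hnU, hBL]
    · norm_num
    · rw [hBL]; exact disjoint_empty_left _
    · rw [hBL, hBU, hnL, hnU, card_empty]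

end Pool.Agent.GaussPoset.Win.SO
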