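import Pool.Agent.W_448so_h64.SoT
import Pool.Agent.W_448so_h17.AsF

/-!
SECOND ORDER THEOREM (MP_448cb3_co, proofs row 476): the configurations of energy five.
-/

namespace Pool.Agent.GaussPoset.Win.SO

set_option linter.unusedSectionVars false

open Finset
open Pool.Agent.GaussPoset.Win.I2 (lS uS mem_lS mem_uS)

universe u

variable {P : Type u} [Fintype P] [PartialOrder P] [DecidableEq P] {r i : ℕ} {psi : P → P}
  {e : P → ℕ} {C : Finset P}

/-- pendants of the part -/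
noncomputable def PN (i : ℕ) (C : Finset P) : Finset P :=
  C.filter (fun p => p ∈ PD P i ∨ p ∈ PU P i)

/-- value of a pendant -/
noncomputable def vp (i : ℕ) (p : P) : ℤ := if p ∈ PD P i then 1 else -1

open Classical in
/-- T-elements and pendants with disjoint sites -/
noncomputable def I5 (i : ℕ) (C : Finset P) : Finset (P × P) :=
  ((ZL i C ∪ ZU i C) ×ˢ PN i C).filter (fun q => Disjoint (sit i q.1) (sit i q.2))

/-- ordered closed pairs -/
noncomputable def O5 (i : ℕ) (C : Finset P) : Finset (P × P) :=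
  (ZL i C ×ˢ ZL i C).filter (fun q => q.1 ≠ q.2 ∧ uc q.1 = uc q.2)

/-- flips -/
noncomputable def F5 (i : ℕ) (C : Finset P) : Finset (P × P) :=
  (C.filter (fun p => p ∈ PD P i) ×ˢ C.filter (fun p => p ∈ PU P i)).filter
    (fun q => (sit i q.1 ∩ sit i q.2).card = 1)

open Classical in
/-- the common sites of the covers -/
noncomputable def cs (i : ℕ) (w : P) : Finset P := (lv P i).filter (fun v => ∀ x ∈ uc w, x ⋖ v)

noncomputable def c5 (i : ℕ) (q : P × P) : P → ℕ := on (con i q.1 ∪ con i q.2)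

noncomputable def cA (i : ℕ) (q : P × P) : P → ℕ :=
  fun y => on (con i q.1 ∪ con i q.2) y + on {q.1} y

noncomputable def cB (i : ℕ) (q : P × P) : P → ℕ := on (con i q.1 ∪ con i q.2 ∪ cs i q.1)

noncomputable def cF (i : ℕ) (q : P × P) : P → ℕ :=
  on (con i q.1 ∪ con i q.2 ∪ (sit i q.1 ∩ sit i q.2))

lemma mem_PN {p : P} : p ∈ PN i C ↔ p ∈ C ∧ (p ∈ PD P i ∨ p ∈ PU P i) := by
  unfold PN; rw [mem_filter]

lemma mem_I5 {q : P × P} : q ∈ I5 i C ↔ (q.1 ∈ ZL i C ∨ q.1 ∈ ZU i C) ∧ q.2 ∈ PN i C ∧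
    Disjoint (sit i q.1) (sit i q.2) := by
  classical
  unfold I5
  simp only [mem_filter, mem_product, mem_union, and_assoc]

lemma mem_O5 {q : P × P} : q ∈ O5 i C ↔ q.1 ∈ ZL i C ∧ q.2 ∈ ZL i C ∧ q.1 ≠ q.2 ∧
    uc q.1 = uc q.2 := by
  unfold O5
  simp only [mem_filter, mem_product, and_assoc]

lemma mem_F5 {q : P × P} : q ∈ F5 i C ↔ q.1 ∈ C ∧ q.1 ∈ PD P i ∧ q.2 ∈ C ∧ q.2 ∈ PU P i ∧
    (sit i q.1 ∩ sit i q.2).card = 1 := by
  unfold F5
  simp only [mem_filter, mem_product, and_assoc]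

lemma mem_cs {w v : P} : v ∈ cs i w ↔ lev v = i ∧ ∀ x ∈ uc w, x ⋖ v := by
  classical
  unfold cs
  simp only [mem_filter, mem_lv]

lemma vp_PD {p : P} (h : p ∈ PD P i) : vp i p = 1 := by unfold vp; rw [if_pos h]

lemma vp_PU {p : P} (h : p ∈ PU P i) : vp i p = -1 := by
  unfold vp
  rw [if_neg]
  intro h'
  have := lev_PD h'
  have := lev_PU h
  omega

lemma num_PN (H : Gr P r) {p : P} (hp : p ∈ PN i C) : NumG i C p (vp i p) 2 := by
  rw [mem_PN] at hp
  rcases hp.2 with h | h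
  · rw [vp_PD h]; exact num_PD H h hp.1
  · rw [vp_PU h]; exact num_PU H h hp.1

lemma Z_Chs {w : P} (h : w ∈ ZL i C ∨ w ∈ ZU i C) : w ∈ Chs i C := by
  unfold Chs
  simp only [mem_union]
  rcases h with h | h
  · exact Or.inl (Or.inl (Or.inl h))
  · exact Or.inl (Or.inl (Or.inr h))

/-- values of the pairs -/
theorem I5_value (H : Gr P r) (hi : 1 ≤ i) (hi2 : i + 1 ≤ r) (hC : Part (i + 1) C)
    {q : P × P} (hq : q ∈ I5 i C) :
    ∑ x, c5 i q x = 5 ∧
    PowerSeries.coeff (st i C).card (dd ^ 2 * tC i C (c5 i q) : A) =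
      chg i C q.1 * vp i q.2 := by
  obtain ⟨h1, h2, h3⟩ := mem_I5.1 hq
  exact pair_gen H hi hi2 hC (num_Chs H (Z_Chs h1)).g (num_PN H h2) h3

/-- closed pairs: T data -/
lemma O5_data (Q : PSO r i psi C) {q : P × P} (hq : q ∈ O5 i C) :
    ∃ x x' s, TD uc (tL (P := P) i) (lS P i) q.1 x x' s ∧
      TD uc (tL (P := P) i) (lS P i) q.2 x x' s ∧ q.1 ≠ q.2 ∧ cs i q.1 = {s} ∧
      con i q.1 = {q.1, x, x'} ∧ con i q.2 = {q.2, x, x'} ∧ lev q.1 = i + 2 ∧ lev q.2 = i + 2 ∧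
      lev x = i + 1 ∧ lev x' = i + 1 ∧ lev s = i := by
  have H := Q.H
  obtain ⟨h1, h2, h3, h4⟩ := mem_O5.1 hq
  obtain ⟨x, x', s, T⟩ := td_of_ZL Q h1
  obtain ⟨l1, l2, l3, l4, -⟩ := td_low H T
  have k := (mem_ZL.1 h2).2.1
  have T' : TD uc (tL (P := P) i) (lS P i) q.2 x x' s :=
    ⟨mem_lS.2 (by omega), by unfold tL; omega, by rw [← h4, T.cw], T.ne, T.cx, T.cx', T.sx,
      T.sx', T.only⟩
  refine ⟨x, x', s, T, T', h3, ?_, (td_ZL H T (mem_ZL.1 h1).1).2,
    (td_ZL H T' (mem_ZL.1 h2).1).2, l1, k, l2, l3, l4⟩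
  ext v
  rw [mem_cs, mem_singleton, T.cw]
  simp only [mem_insert, mem_singleton, forall_eq_or_imp, forall_eq]
  constructor
  · rintro ⟨g1, g2, g3⟩
    exact T.only v (mem_uc.2 g2) (mem_uc.2 g3)
  · rintro rfl
    exact ⟨l4, mem_uc.1 T.sx, mem_uc.1 T.sx'⟩

/-- the labels of the configurations A and B -/
lemma cA_lab (Q : PSO r i psi C) {q : P × P} {x x' s : P}
    (T : TD uc (tL (P := P) i) (lS P i) q.1 x x' s)
    (h1 : con i q.1 = {q.1, x, x'}) (h2 : con i q.2 = {q.2, x, x'}) (y : P) :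
    cA i q y = if y = q.1 then 2 else if y = q.2 ∨ y = x ∨ y = x' then 1 else 0 := by
  unfold cA on
  rw [h1, h2]
  simp only [mem_union, mem_insert, mem_singleton]
  by_cases g1 : y = q.1
  · rw [if_pos (by tauto), if_pos g1, if_pos g1]
  · rw [if_neg g1, if_neg g1]
    by_cases g2 : y = q.2 ∨ y = x ∨ y = x'
    · rw [if_pos (by tauto), if_pos g2]
    · rw [if_neg (by tauto), if_neg g2]

lemma cB_lab {q : P × P} {x x' s : P} (h1 : con i q.1 = {q.1, x, x'})
    (h2 : con i q.2 = {q.2, x, x'}) (h3 : cs i q.1 = {s}) :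
    On (cB i q) {q.1, q.2, x, x', s} := by
  intro y
  unfold cB on
  rw [h1, h2, h3]
  congr 1
  simp only [mem_union, mem_insert, mem_singleton, eq_iff_iff]
  tauto

/-- flips: data -/
lemma F5_data (H : Gr P r) {q : P × P} (hq : q ∈ F5 i C) :
    ∃ y u s, Pen uc (tL (P := P) i) (lS P i) q.1 y ∧ Pen dc (tU (P := P) i) (uS P i) q.2 u ∧
      uc y ∩ dc u = {s} ∧ sit i q.1 ∩ sit i q.2 = {s} ∧ con i q.1 = {q.1, y} ∧
      con i q.2 = {q.2, u} ∧ lev q.1 = i + 2 ∧ lev q.2 + 2 = i ∧ lev y = i + 1 ∧ lev u + 1 = i ∧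
      lev s = i := by
  obtain ⟨h1, h2, h3, h4, h5⟩ := mem_F5.1 hq
  obtain ⟨y, a1, a2, a3, a4, a5⟩ := PD_data H h2
  obtain ⟨u, b1, b2, b3, b4, b5⟩ := PU_data H h4
  obtain ⟨s, hs⟩ := card_eq_one.1 h5
  have e1 := sit_PD H a2 a1
  have e2 := sit_PU H b2 b1
  have hs' : uc y ∩ dc u = {s} := by rw [← e1, ← e2, hs]
  have hsm : s ∈ uc y := by
    have : s ∈ uc y ∩ dc u := by rw [hs']; simp
    exact (mem_inter.1 this).1
  have := lev_uc H hsm
  exact ⟨y, u, s, a5, b5, hs', hs, con_PD H a2 a1, con_PU H b2 b1, a2, b2, a3, b3, by omega⟩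

lemma cF_lab {q : P × P} {y u s : P} (h1 : con i q.1 = {q.1, y})
    (h2 : con i q.2 = {q.2, u}) (h3 : sit i q.1 ∩ sit i q.2 = {s}) :
    On (cF i q) {q.1, y, s, u, q.2} := by
  intro v
  unfold cF on
  rw [h1, h2, h3]
  congr 1
  simp only [mem_union, mem_insert, mem_singleton, eq_iff_iff]
  tauto

/-- the sites of an element of a part -/
lemma sit_part (H : Gr P r) (hC : Part (i + 1) C) {z : P} (hz : z ∈ C) : sit i z ⊆ st i C := by
  intro v hv
  unfold sit at hv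
  rw [mem_union, mem_sts, mem_stD] at hv
  rw [mem_st]
  rcases hv with ⟨h1, h2⟩ | ⟨h1, h2⟩
  · exact ⟨part_up hC hz h2.le, h1⟩
  · refine ⟨?_, h1⟩
    have key : ∀ n, ∀ y, y ≤ z → lev y = lev z + n → lev y ≤ i → y ∈ C := by
      intro n
      induction n with
      | zero =>
        intro y hy hl' hy'
        have : y = z := by
          by_contra hne
          have := lev_strict H (lt_of_le_of_ne hy hne)
          omega
        rw [this]; exact hz
      | succ n ih =>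
        intro y hy hl' hy'
        have hlt : y < z := lt_of_le_of_ne hy (by rintro rfl; omega)
        obtain ⟨w, hw1, hw2⟩ := exists_covBy_le_of_lt hlt
        have h3 := lev_cov H hw1
        exact hC.dn (ih w hw2 (by omega) (by omega)) (by omega) hw1
    have h4 := lev_anti h2.le
    exact key (lev v - lev z) v h2.le (by omega) h1.le

/-- supports -/
lemma c5_spt (H : Gr P r) (hC : Part (i + 1) C) {q : P × P} (hq : q ∈ I5 i C) :
    Spt C (c5 i q) := by
  obtain ⟨h1, h2, h3⟩ := mem_I5.1 hq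
  have N := num_Chs H (Z_Chs h1)
  have N' := num_PN H h2
  intro y hy
  unfold c5 on
  rw [if_neg]
  intro h
  rcases mem_union.1 h with h | h
  · exact hy (con_sub H hC N.mC N.ns h)
  · exact hy (con_sub H hC N'.mC N'.ns h)

lemma cA_spt (Q : PSO r i psi C) {q : P × P} (hq : q ∈ O5 i C) : Spt C (cA i q) := by
  obtain ⟨x, x', s, T, T', hne, h1, h2, h3, h4, h5, h6, h7, h8⟩ := O5_data Q hq
  obtain ⟨g1, g2, g3, g4⟩ := mem_O5.1 hq
  have hC := Q.hC
  intro y hy
  unfold cA on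
  rw [if_neg, if_neg]
  · rw [mem_singleton]
    rintro rfl
    exact hy (mem_ZL.1 g1).1
  · intro h
    rcases mem_union.1 h with h | h
    · exact hy (con_sub Q.H hC (mem_ZL.1 g1).1 (by omega) h)
    · exact hy (con_sub Q.H hC (mem_ZL.1 g2).1 (by omega) h)

lemma cB_spt (Q : PSO r i psi C) {q : P × P} (hq : q ∈ O5 i C) : Spt C (cB i q) := by
  obtain ⟨x, x', s, T, T', hne, h1, h2, h3, h4, h5, h6, h7, h8⟩ := O5_data Q hq
  obtain ⟨g1, g2, g3, g4⟩ := mem_O5.1 hq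
  have hC := Q.hC
  intro y hy
  unfold cB on
  rw [if_neg]
  intro h
  rcases mem_union.1 h with h | h
  · rcases mem_union.1 h with h | h
    · exact hy (con_sub Q.H hC (mem_ZL.1 g1).1 (by omega) h)
    · exact hy (con_sub Q.H hC (mem_ZL.1 g2).1 (by omega) h)
  · rw [h1, mem_singleton] at h
    subst h
    have hx : q.1 ⋖ x := by rw [← mem_uc, T.cw]; simp
    have hs : x ⋖ y := mem_uc.1 T.sx
    exact hy (part_up hC (mem_ZL.1 g1).1 (hx.le.trans hs.le))

lemma cF_spt (Q : PSO r i psi C) {q : P × P} (hq : q ∈ F5 i C) : Spt C (cF i q) := by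
  obtain ⟨y, u, s, T, T', h1, h2, h3, h4, h5, h6, h7, h8, h9⟩ := F5_data Q.H hq
  obtain ⟨g1, g2, g3, g4, g5⟩ := mem_F5.1 hq
  have hC := Q.hC
  intro v hv
  unfold cF on
  rw [if_neg]
  intro h
  rcases mem_union.1 h with h | h
  · rcases mem_union.1 h with h | h
    · exact hv (con_sub Q.H hC g1 (by omega) h)
    · exact hv (con_sub Q.H hC g3 (by omega) h)
  · have h9 := sit_part Q.H hC g1 (mem_inter.1 h).1
    exact hv (mem_st.1 h9).1

/-- the configurations of the pairs are in the list -/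
theorem c5_LO5 (Q : PSO r i psi C) {q : P × P} (hq : q ∈ I5 i C) :
    LO5 uc dc (tL (P := P) i) (tU i) (lS P i) (uS P i) (c5 i q) := by
  have H := Q.H
  obtain ⟨h1, h2, h3⟩ := mem_I5.1 hq
  obtain ⟨h4, h5⟩ := mem_PN.1 h2
  have aux : ∀ {a b c d f : P}, con i q.1 = {a, b, c} → con i q.2 = {d, f} →
      On (c5 i q) {a, b, c, d, f} := by
    intro a b c d f k1 k2 v
    unfold c5 on
    rw [k1, k2]
    congr 1
    simp only [mem_union, mem_insert, mem_singleton, eq_iff_iff]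
    tauto
  rcases h1 with h1 | h1
  · obtain ⟨x, x', s, T⟩ := td_of_ZL Q h1
    have e1 := (td_ZL H T (mem_ZL.1 h1).1).2
    have e2 := sit_td_low H T
    rcases h5 with h5 | h5
    · obtain ⟨y, a1, a2, a3, a4, a5⟩ := PD_data H h5
      refine Or.inl ⟨q.1, x, x', s, q.2, y, T, a5, ?_, aux e1 (con_PD H a2 a1)⟩
      rw [← e2, ← sit_PD H a2 a1]
      exact h3
    · obtain ⟨y, a1, a2, a3, a4, a5⟩ := PU_data H h5
      refine Or.inr (Or.inr (Or.inl ⟨q.1, x, x', s, q.2, y, T, a5, ?_, aux e1 (con_PU H a2 a1)⟩))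
      rw [← e2, ← sit_PU H a2 a1]
      exact h3
  · obtain ⟨x, x', s, T⟩ := td_of_ZU Q h1
    have e1 := (td_ZU H T (mem_ZU.1 h1).1).2
    have e2 := sit_td_upp H T
    rcases h5 with h5 | h5
    · obtain ⟨y, a1, a2, a3, a4, a5⟩ := PD_data H h5
      refine Or.inr (Or.inr (Or.inr ⟨q.1, x, x', s, q.2, y, T, a5, ?_, aux e1 (con_PD H a2 a1)⟩))
      rw [← e2, ← sit_PD H a2 a1]
      exact h3
    · obtain ⟨y, a1, a2, a3, a4, a5⟩ := PU_data H h5
      refine Or.inr (Or.inl ⟨q.1, x, x', s, q.2, y, T, a5, ?_, aux e1 (con_PU H a2 a1)⟩)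
      rw [← e2, ← sit_PU H a2 a1]
      exact h3

/-- every configuration of the list comes from a pair -/
theorem LO5_index (Q : PSO r i psi C) (hs : Spt C e)
    (h : LO5 uc dc (tL (P := P) i) (tU i) (lS P i) (uS P i) e) : ∃ q ∈ I5 i C, c5 i q = e := by
  have H := Q.H
  have hmem : ∀ {s : Finset P}, On e s → ∀ x ∈ s, x ∈ C := by
    intro s ho x hx
    apply mem_of_spt hs
    rw [ho x, if_pos hx]
    exact Nat.one_pos
  have fin : ∀ {w p : P} {s : Finset P}, (w ∈ ZL i C ∨ w ∈ ZU i C) → p ∈ PN i C →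
      Disjoint (sit i w) (sit i p) → On e s → s = con i w ∪ con i p →
      ∃ q ∈ I5 i C, c5 i q = e := by
    intro w p s k1 k2 k3 k4 k5
    refine ⟨(w, p), mem_I5.2 ⟨k1, k2, k3⟩, ?_⟩
    rw [on_eq k4, k5]
    rfl
  rcases h with h | h | h | h
  · obtain ⟨w, x, x', s, p, y, T, Z, hd, ho⟩ := h
    obtain ⟨a1, a2⟩ := td_ZL H T (hmem ho w (by simp))
    obtain ⟨g1, g2, g3, g4, g5⟩ := pen_low H Z
    refine fin (w := w) (p := p) (Or.inl a1) (mem_PN.2 ⟨hmem ho p (by simp), Or.inl g1⟩) ?_ ho ?_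
    · rw [sit_td_low H T, sit_PD H g2 g4]; exact hd
    · rw [a2, con_PD H g2 g4]; ext v; simp only [mem_union, mem_insert, mem_singleton]; tauto
  · obtain ⟨w, x, x', s, p, y, T, Z, hd, ho⟩ := h
    obtain ⟨a1, a2⟩ := td_ZU H T (hmem ho w (by simp))
    obtain ⟨g1, g2, g3, g4, g5⟩ := pen_up H Z
    refine fin (w := w) (p := p) (Or.inr a1) (mem_PN.2 ⟨hmem ho p (by simp), Or.inr g1⟩) ?_ ho ?_
    · rw [sit_td_upp H T, sit_PU H g2 g4]; exact hd
    · rw [a2, con_PU H g2 g4]; ext v; simp only [mem_union, mem_insert, mem_singleton]; tauto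
  · obtain ⟨w, x, x', s, p, y, T, Z, hd, ho⟩ := h
    obtain ⟨a1, a2⟩ := td_ZL H T (hmem ho w (by simp))
    obtain ⟨g1, g2, g3, g4, g5⟩ := pen_up H Z
    refine fin (w := w) (p := p) (Or.inl a1) (mem_PN.2 ⟨hmem ho p (by simp), Or.inr g1⟩) ?_ ho ?_
    · rw [sit_td_low H T, sit_PU H g2 g4]; exact hd
    · rw [a2, con_PU H g2 g4]; ext v; simp only [mem_union, mem_insert, mem_singleton]; tauto
  · obtain ⟨w, x, x', s, p, y, T, Z, hd, ho⟩ := h
    obtain ⟨a1, a2⟩ := td_ZU H T (hmem ho w (by simp))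
    obtain ⟨g1, g2, g3, g4, g5⟩ := pen_low H Z
    refine fin (w := w) (p := p) (Or.inr a1) (mem_PN.2 ⟨hmem ho p (by simp), Or.inl g1⟩) ?_ ho ?_
    · rw [sit_td_upp H T, sit_PD H g2 g4]; exact hd
    · rw [a2, con_PD H g2 g4]; ext v; simp only [mem_union, mem_insert, mem_singleton]; tauto

/-- closed pair configurations come from closed pairs -/
theorem Clx_index (Q : PSO r i psi C) (hs : Spt C e) (h : Clx i e) :
    (∃ q ∈ O5 i C, cA i q = e) ∨ ∃ q ∈ O5 i C, cB i q = e := by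
  have H := Q.H
  obtain ⟨w, w', x, x', s, T, T', hne, he⟩ := h
  have key : w ∈ C → w' ∈ C → (w, w') ∈ O5 i C := by
    intro g1 g2
    refine mem_O5.2 ⟨(td_ZL H T g1).1, (td_ZL H T' g2).1, hne, ?_⟩
    show uc w = uc w'
    rw [T.cw, T'.cw]
  rcases he with he | he
  · left
    have hw : w ∈ C := mem_of_spt hs (by rw [he w, if_pos rfl]; omega)
    have hw' : w' ∈ C :=
      mem_of_spt hs (by rw [he w', if_neg (Ne.symm hne), if_pos (Or.inl rfl)]; omega)
    refine ⟨(w, w'), key hw hw', ?_⟩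
    funext y
    rw [he y]
    exact cA_lab Q (q := (w, w')) T (td_ZL H T hw).2 (td_ZL H T' hw').2 y
  · right
    have hw : w ∈ C := mem_of_spt hs (he.pos (by simp))
    have hw' : w' ∈ C := mem_of_spt hs (he.pos (by simp))
    have hk := key hw hw'
    obtain ⟨y, y', s', S, S', -, h1, h2, h3, -⟩ := O5_data Q hk
    have hss : cs i w = {s} := by
      ext v
      rw [mem_cs, mem_singleton, T.cw]
      simp only [mem_insert, mem_singleton, forall_eq_or_imp, forall_eq]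
      constructor
      · rintro ⟨g1, g2, g3⟩
        exact T.only v (mem_uc.2 g2) (mem_uc.2 g3)
      · rintro rfl
        exact ⟨(td_low H T).2.2.2.1, mem_uc.1 T.sx, mem_uc.1 T.sx'⟩
    refine ⟨(w, w'), hk, ?_⟩
    rw [on_eq he, ← on_eq (cB_lab (i := i) (q := (w, w')) (td_ZL H T hw).2 (td_ZL H T' hw').2 hss)]

/-- flip configurations come from flips -/
theorem Flx_index (Q : PSO r i psi C) (hs : Spt C e) (h : Flx i e) :
    ∃ q ∈ F5 i C, cF i q = e := by
  have H := Q.H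
  obtain ⟨p, y, p', u, s, T, T', hys, he⟩ := h
  have hp : p ∈ C := mem_of_spt hs (he.pos (by simp))
  have hp' : p' ∈ C := mem_of_spt hs (he.pos (by simp))
  obtain ⟨g1, g2, g3, g4, g5⟩ := pen_low H T
  obtain ⟨k1, k2, k3, k4, k5⟩ := pen_up H T'
  have hsi : sit i p ∩ sit i p' = {s} := by rw [sit_PD H g2 g4, sit_PU H k2 k4, hys]
  refine ⟨(p, p'), mem_F5.2 ⟨hp, g1, hp', k1, ?_⟩, ?_⟩
  · show (sit i p ∩ sit i p').card = 1
    rw [hsi, card_singleton]
  · rw [on_eq he, ← on_eq (cF_lab (i := i) (q := (p, p')) (con_PD H g2 g4) (con_PU H k2 k4) hsi)]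

end Pool.Agent.GaussPoset.Win.SO
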